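import Mathlib

/-!
Convex regions moving around a right-angled corner: the definitions used in the main statement.
The plane is identified with the complex plane, with its usual Lebesgue measure.
-/

namespace Pool.Agent.MP_3737e1_gt

open MeasureTheory Set Real

/-- The horizontal arm `H` of the corridor: `x ≤ 1`, `0 ≤ y ≤ 1`. -/
def armH : Set ℂ := {z | z.re ≤ 1 ∧ 0 ≤ z.im ∧ z.im ≤ 1}

/-- The vertical arm `V` of the corridor: `0 ≤ x ≤ 1`, `y ≤ 1`. -/
def armV : Set ℂ := {z | 0 ≤ z.re ∧ z.re ≤ 1 ∧ z.im ≤ 1}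

/-- The corridor `L` of width `1` with a right-angled corner. -/
def corridor : Set ℂ := armH ∪ armV

/-- The orientation-preserving rigid motion `z ↦ c z + b`, where `c` is on the unit circle. -/
def rig (c : Circle) (b : ℂ) (z : ℂ) : ℂ := (c : ℂ) * z + b

/-- `S` can be moved around the corner: there is a continuous path `t ↦ rig (c t) (b t)`,
`t ∈ [0,1]`, of orientation-preserving rigid motions which keeps `S` inside the corridor, puts `S`
into the horizontal arm at time `0` and into the vertical arm at time `1`. -/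
def CanMove (S : Set ℂ) : Prop :=
  ∃ (c : unitInterval → Circle) (b : unitInterval → ℂ), Continuous c ∧ Continuous b ∧
    (∀ t, ∀ z ∈ S, rig (c t) (b t) z ∈ corridor) ∧
    (∀ z ∈ S, rig (c 0) (b 0) z ∈ armH) ∧
    (∀ z ∈ S, rig (c 1) (b 1) z ∈ armV)

/-- The set of areas of convex regions (compact convex sets) that can be moved around the
corner. -/
def movableAreas : Set ℝ :=
  {A | ∃ S : Set ℂ, IsCompact S ∧ Convex ℝ S ∧ CanMove S ∧ (volume S).toReal = A}

/-- The constant `A_conv`. -/
noncomputable def Aconv : ℝ := sSup movableAreas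

/-- The equation satisfied by the angle `τ`. -/
def TauEq (τ : ℝ) : Prop :=
  (π / 4 - τ) * (cos τ ^ 3 - sin τ ^ 3) = cos τ * (cos (2 * τ) - sin (2 * τ))

/-- The height `a` of the extremal region, as a function of `τ`. -/
noncomputable def topHeight (τ : ℝ) : ℝ := cos τ - sin τ ^ 3 / cos τ ^ 2

/-- The extremal area `3(π/4 - τ) + (3/2) cos 2τ - 2 a (cos τ - sin τ)`. -/
noncomputable def areaVal (τ a : ℝ) : ℝ :=
  3 * (π / 4 - τ) + 3 / 2 * cos (2 * τ) - 2 * a * (cos τ - sin τ)

/-- The support function of the curved part of the extremal region at the angle `t`. -/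
noncomputable def hgt (a t : ℝ) : ℝ := 1 + cos t * (cos t - sin t + a * (t - π / 4))

/-- The extremal region: the points `x + i y` with `y ≥ 0` and
`|x| cos t + y sin t ≤ 1 + cos t (cos t - sin t + a (t - π/4))` for all `t` in `[τ, π/2 - τ]`. -/
def sofa (τ a : ℝ) : Set ℂ :=
  {z | 0 ≤ z.im ∧ ∀ t ∈ Icc τ (π / 2 - τ), |z.re| * cos t + z.im * sin t ≤ hgt a t}

end Pool.Agent.MP_3737e1_gt
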