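import Mathlib
import Pool.Agent.MP_3737e1_gt.Defs

namespace Pool.Agent.MP_3737e1_gt

open MeasureTheory Set Real

noncomputable section

/-- position of the inner corner -/
def xcor (a t : ℝ) : ℝ := cos t - sin t + a * (t - π / 4)

def xcor' (a t : ℝ) : ℝ := a - sin t - cos t

/-- density -/
def rho (a t : ℝ) : ℝ := 3 * (sin t + cos t) - 2 * a

/-- boundary curve, first coordinate -/
def cx (a t : ℝ) : ℝ := cos t + xcor a t - xcor' a t * sin t * cos t

/-- boundary curve, second coordinate -/
def cy (a t : ℝ) : ℝ := sin t + xcor' a t * cos t ^ 2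

/-- the parameters solve the extremality equations -/
structure Params (τ a : ℝ) : Prop where
  pos : 0 < τ
  lt : τ < π / 4
  ha : a = cos τ - sin τ ^ 3 / cos τ ^ 2
  heq : (π / 4 - τ) * (cos τ ^ 3 - sin τ ^ 3) = cos τ * (cos (2 * τ) - sin (2 * τ))

lemma hasDerivAt_xcor (a t : ℝ) : HasDerivAt (xcor a) (xcor' a t) t := by
  have h := ((hasDerivAt_cos t).sub (hasDerivAt_sin t)).add
    (((hasDerivAt_id t).sub_const (π / 4)).const_mul a)
  exact h.congr_deriv (by unfold xcor'; ring)

lemma hasDerivAt_xcor' (a t : ℝ) : HasDerivAt (xcor' a) (sin t - cos t) t := by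
  have h := ((hasDerivAt_const t a).sub (hasDerivAt_sin t)).sub (hasDerivAt_cos t)
  exact h.congr_deriv (by ring)

lemma hasDerivAt_cx (a t : ℝ) : HasDerivAt (cx a) (-(sin t * rho a t) * sin t) t := by
  have h := ((hasDerivAt_cos t).add (hasDerivAt_xcor a t)).sub
    (((hasDerivAt_xcor' a t).mul (hasDerivAt_sin t)).mul (hasDerivAt_cos t))
  refine h.congr_deriv ?_
  simp only [xcor', rho, Pi.mul_apply]
  linear_combination (2 * sin t - a + cos t) * sin_sq_add_cos_sq t

lemma hasDerivAt_cy (a t : ℝ) : HasDerivAt (cy a) ((sin t * rho a t) * cos t) t := by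
  have h := (hasDerivAt_sin t).add
    ((hasDerivAt_xcor' a t).mul ((hasDerivAt_cos t).pow 2))
  refine h.congr_deriv ?_
  simp only [xcor', rho, Pi.pow_apply]
  linear_combination (-cos t) * sin_sq_add_cos_sq t

lemma hgt_eq_curve (a t : ℝ) : hgt a t = cx a t * cos t + cy a t * sin t := by
  unfold hgt cx cy xcor xcor'
  linear_combination -sin_sq_add_cos_sq t

lemma hasDerivAt_hgt (a t : ℝ) : HasDerivAt (hgt a) (-cx a t * sin t + cy a t * cos t) t := by
  have h : HasDerivAt (fun t => 1 + cos t * xcor a t) (-sin t * xcor a t + cos t * xcor' a t) t := by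
    have := ((hasDerivAt_cos t).mul (hasDerivAt_xcor a t)).const_add 1
    exact this
  have e : hgt a = fun t => 1 + cos t * xcor a t := by
    funext t; unfold hgt xcor; ring
  rw [e]
  refine h.congr_deriv ?_
  unfold cx cy xcor xcor'
  linear_combination (-(a - sin t - cos t)) * cos t * sin_sq_add_cos_sq t

lemma continuous_xcor (a : ℝ) : Continuous (xcor a) := by unfold xcor; fun_prop
lemma continuous_xcor' (a : ℝ) : Continuous (xcor' a) := by unfold xcor'; fun_prop
lemma continuous_rho (a : ℝ) : Continuous (rho a) := by unfold rho; fun_prop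
lemma continuous_cx (a : ℝ) : Continuous (cx a) := by
  unfold cx; have := continuous_xcor a; have := continuous_xcor' a; fun_prop
lemma continuous_cy (a : ℝ) : Continuous (cy a) := by
  unfold cy; have := continuous_xcor' a; fun_prop
lemma continuous_hgt (a : ℝ) : Continuous (hgt a) := by unfold hgt; fun_prop

variable {τ a : ℝ}

lemma Params.cos_pos (P : Params τ a) : 0 < cos τ := by
  apply Real.cos_pos_of_mem_Ioo
  constructor <;> have := P.pos <;> have := P.lt <;> linarith [pi_pos]

lemma Params.sin_pos (P : Params τ a) : 0 < sin τ := by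
  apply Real.sin_pos_of_pos_of_lt_pi P.pos
  have := P.lt; linarith [pi_pos]

lemma Params.a_lt_one (P : Params τ a) : a < 1 := by
  rw [P.ha]
  have h1 := P.cos_pos
  have h2 := P.sin_pos
  have h3 : 0 < sin τ ^ 3 / cos τ ^ 2 := by positivity
  have h4 := cos_le_one τ
  linarith

lemma Params.a_mul (P : Params τ a) : a * cos τ ^ 2 = cos τ ^ 3 - sin τ ^ 3 := by
  rw [P.ha]
  have := P.cos_pos
  field_simp

lemma Params.sin_lt_cos (P : Params τ a) : sin τ < cos τ := by
  rw [← Real.cos_pi_div_two_sub]
  apply Real.cos_lt_cos_of_nonneg_of_le_pi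
  · exact P.pos.le
  · have := P.pos; linarith [pi_pos]
  · have := P.lt; linarith

lemma Params.a_pos (P : Params τ a) : 0 < a := by
  have h1 := P.a_mul
  have h2 := P.cos_pos
  have h3 := P.sin_lt_cos
  have h4 := P.sin_pos
  have h5 : sin τ ^ 3 < cos τ ^ 3 := pow_lt_pow_left₀ h3 h4.le (by norm_num)
  by_contra hcon
  push Not at hcon
  have : a * cos τ ^ 2 ≤ 0 := mul_nonpos_of_nonpos_of_nonneg hcon (by positivity)
  linarith

lemma Params.xcor'_tau (P : Params τ a) : xcor' a τ * cos τ ^ 2 = - sin τ := by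
  unfold xcor'
  have h1 := P.a_mul
  have h2 : sin τ ^ 2 = 1 - cos τ ^ 2 := by have := sin_sq_add_cos_sq τ; linarith
  have h3 : sin τ ^ 3 = sin τ * (1 - cos τ ^ 2) := by rw [← h2]; ring
  calc (a - sin τ - cos τ) * cos τ ^ 2 = a * cos τ ^ 2 - sin τ * cos τ ^ 2 - cos τ ^ 3 := by ring
    _ = - sin τ := by rw [h1, h3]; ring

lemma Params.cy_tau (P : Params τ a) : cy a τ = 0 := by
  unfold cy
  rw [P.xcor'_tau]; ring

lemma Params.cy_end (P : Params τ a) : cy a (π / 2 - τ) = a := by
  unfold cy xcor'
  rw [sin_pi_div_two_sub, cos_pi_div_two_sub]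
  have h1 := P.xcor'_tau
  have h2 : sin τ ^ 2 = 1 - cos τ ^ 2 := by have := sin_sq_add_cos_sq τ; linarith
  unfold xcor' at h1
  rw [h2]
  linear_combination -h1

lemma Params.cx_end (P : Params τ a) : cx a (π / 2 - τ) = 0 := by
  have hc := P.cos_pos
  have h1 := P.xcor'_tau
  have h3 := P.heq
  have h4 := P.a_mul
  rw [cos_two_mul, sin_two_mul] at h3
  have h2 : sin τ ^ 2 = 1 - cos τ ^ 2 := by have := sin_sq_add_cos_sq τ; linarith
  have key : cx a (π / 2 - τ) * cos τ ^ 2 = 0 := by
    unfold cx xcor xcor'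
    rw [sin_pi_div_two_sub, cos_pi_div_two_sub]
    unfold xcor' at h1
    have e : (sin τ + (sin τ - cos τ + a * (π / 2 - τ - π / 4)) -
      (a - cos τ - sin τ) * cos τ * sin τ) * cos τ ^ 2
      = 2 * sin τ * cos τ ^ 2 - cos τ ^ 3 + (π / 4 - τ) * (a * cos τ ^ 2)
        - ((a - sin τ - cos τ) * cos τ ^ 2) * cos τ * sin τ := by ring
    rw [e, h1, h4, h3]
    have : sin τ * cos τ * sin τ = cos τ * (1 - cos τ ^ 2) := by rw [← h2]; ring
    linear_combination this
  have h5 : cos τ ^ 2 ≠ 0 := by positivity
  exact (mul_eq_zero.mp key).resolve_right h5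

lemma one_le_sin_add_cos {t : ℝ} (h0 : 0 ≤ t) (h1 : t ≤ π / 2) : 1 ≤ sin t + cos t := by
  have hs : 0 ≤ sin t := sin_nonneg_of_nonneg_of_le_pi h0 (by linarith [pi_pos])
  have hc : 0 ≤ cos t := cos_nonneg_of_mem_Icc ⟨by linarith [pi_pos], h1⟩
  nlinarith [sin_sq_add_cos_sq t, mul_nonneg hs hc]

lemma Params.rho_pos (P : Params τ a) {t : ℝ} (h0 : 0 ≤ t) (h1 : t ≤ π / 2) : 1 < rho a t := by
  unfold rho
  have := one_le_sin_add_cos h0 h1
  have := P.a_lt_one
  linarith

lemma hasDerivAt_curve_dot (a u v x : ℝ) :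
    HasDerivAt (fun x => cx a x * u + cy a x * v)
      (sin x * rho a x * (cos x * v - sin x * u)) x := by
  have h := ((hasDerivAt_cx a x).mul_const u).add ((hasDerivAt_cy a x).mul_const v)
  exact h.congr_deriv (by ring)

lemma Params.curve_le (P : Params τ a) {t t' : ℝ} (ht : t ∈ Icc (0 : ℝ) (π / 2))
    (ht' : t' ∈ Icc (0 : ℝ) (π / 2)) : cx a t * cos t' + cy a t * sin t' ≤ hgt a t' := by
  rw [hgt_eq_curve]
  set G : ℝ → ℝ := fun x => cx a x * cos t' + cy a x * sin t' with hG
  have hd : ∀ x, HasDerivAt G (sin x * rho a x * sin (t' - x)) x := by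
    intro x
    refine (hasDerivAt_curve_dot a (cos t') (sin t') x).congr_deriv ?_
    rw [sin_sub]; ring
  have hcont : Continuous G := by
    have := continuous_cx a
    have := continuous_cy a
    fun_prop
  show G t ≤ G t'
  rcases le_total t t' with h | h
  · have hm : MonotoneOn G (Icc 0 t') := by
      apply monotoneOn_of_deriv_nonneg (convex_Icc _ _) hcont.continuousOn
      · exact fun x _ => (hd x).differentiableAt.differentiableWithinAt
      · intro x hx
        rw [interior_Icc] at hx
        rw [(hd x).deriv]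
        have h1 : 0 ≤ sin x := sin_nonneg_of_nonneg_of_le_pi hx.1.le (by
          have := hx.2; have := ht'.2; linarith [pi_pos])
        have h2 : 0 < rho a x := lt_trans one_pos (P.rho_pos hx.1.le (by
          have := hx.2; have := ht'.2; linarith))
        have h3 : 0 ≤ sin (t' - x) := sin_nonneg_of_nonneg_of_le_pi (by linarith [hx.2]) (by
          have := hx.1; have := ht'.2; linarith [pi_pos])
        positivity
    exact hm ⟨ht.1, h⟩ ⟨ht'.1, le_rfl⟩ h
  · have hm : AntitoneOn G (Icc t' (π / 2)) := by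
      apply antitoneOn_of_deriv_nonpos (convex_Icc _ _) hcont.continuousOn
      · exact fun x _ => (hd x).differentiableAt.differentiableWithinAt
      · intro x hx
        rw [interior_Icc] at hx
        rw [(hd x).deriv]
        have h1 : 0 ≤ sin x := sin_nonneg_of_nonneg_of_le_pi (by linarith [hx.1, ht'.1]) (by
          have := hx.2; linarith [pi_pos])
        have h2 : 0 < rho a x := lt_trans one_pos (P.rho_pos (by linarith [hx.1, ht'.1]) hx.2.le)
        have h3 : 0 ≤ sin (x - t') := sin_nonneg_of_nonneg_of_le_pi (by linarith [hx.1]) (by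
          have := hx.2; have := ht'.1; linarith [pi_pos])
        have h4 : sin (t' - x) = - sin (x - t') := by rw [← sin_neg]; congr 1; ring
        rw [h4]
        have : 0 ≤ sin x * rho a x * sin (x - t') := by positivity
        linarith
    exact hm ⟨le_rfl, ht'.2⟩ ⟨h, ht.2⟩ h

/-- derivative of the support function `hgt` -/
def hgt' (a t : ℝ) : ℝ := -cx a t * sin t + cy a t * cos t

lemma rho_symm (a t : ℝ) : rho a (π / 2 - t) = rho a t := by
  unfold rho; rw [sin_pi_div_two_sub, cos_pi_div_two_sub]; ring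

lemma xcor_symm (a t : ℝ) : xcor a (π / 2 - t) = - xcor a t := by
  unfold xcor; rw [sin_pi_div_two_sub, cos_pi_div_two_sub]; ring

lemma hgt_eq (a t : ℝ) : hgt a t = 1 + cos t * xcor a t := by unfold hgt xcor; ring

lemma hgt'_eq (a t : ℝ) : hgt' a t = cos t * xcor' a t - sin t * xcor a t := by
  unfold hgt' cx cy
  unfold xcor'
  linear_combination (a - sin t - cos t) * cos t * sin_sq_add_cos_sq t

lemma Params.int_one (P : Params τ a) (s : ℝ) :
    ∫ r in s..(π / 2 - τ), cos (r - s) * (sin r * rho a r) = a * cos s - hgt' a s := by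
  have h : ∀ r ∈ uIcc s (π / 2 - τ), HasDerivAt (fun x => cx a x * (-sin s) + cy a x * cos s)
      (cos (r - s) * (sin r * rho a r)) r := by
    intro r _
    refine (hasDerivAt_curve_dot a (-sin s) (cos s) r).congr_deriv ?_
    rw [cos_sub]; ring
  rw [intervalIntegral.integral_eq_sub_of_hasDerivAt h]
  · rw [P.cx_end, P.cy_end]; unfold hgt'; ring
  · apply Continuous.intervalIntegrable
    have := continuous_rho a
    fun_prop

lemma Params.int_two (P : Params τ a) (s : ℝ) :
    ∫ r in τ..s, cos (s - r) * (cos r * rho a r) = a * sin s - hgt' a (π / 2 - s) := by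
  have h1 := P.int_one (π / 2 - s)
  rw [cos_pi_div_two_sub] at h1
  rw [← h1]
  have h2 := intervalIntegral.integral_comp_sub_left
    (a := τ) (b := s) (fun r => cos (r - (π / 2 - s)) * (sin r * rho a r)) (π / 2)
  rw [← h2]
  apply intervalIntegral.integral_congr
  intro r _
  simp only
  rw [sin_pi_div_two_sub, rho_symm]
  congr 2
  ring

/-- four times the mixed area of two right triangles with unit hypotenuses on a common line -/
def kern0 (s r : ℝ) : ℝ := cos (r - s) * (sin |r - s| + sin (s + r))

lemma continuous_kern0 : Continuous (fun p : ℝ × ℝ => kern0 p.1 p.2) := by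
  unfold kern0; fun_prop

lemma kern0_of_le {s r : ℝ} (h : r ≤ s) : kern0 s r = 2 * sin s * (cos (s - r) * cos r) := by
  unfold kern0
  rw [abs_of_nonpos (by linarith)]
  have h1 : cos (r - s) = cos (s - r) := by rw [← cos_neg]; congr 1; ring
  have h2 : sin (-(r - s)) + sin (s + r) = 2 * sin s * cos r := by
    have : -(r - s) = s - r := by ring
    rw [this, sin_sub, sin_add]; ring
  rw [h1, h2]; ring

lemma kern0_of_ge {s r : ℝ} (h : s ≤ r) : kern0 s r = 2 * cos s * (cos (r - s) * sin r) := by
  unfold kern0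
  rw [abs_of_nonneg (by linarith)]
  have h2 : sin (r - s) + sin (s + r) = 2 * cos s * sin r := by
    rw [sin_sub, sin_add]; ring
  rw [h2]; ring

lemma Params.kkt (P : Params τ a) {s : ℝ} (hs : s ∈ Icc τ (π / 2 - τ)) :
    ∫ r in τ..(π / 2 - τ), kern0 s r * rho a r = 2 * (sin s + cos s) := by
  have hc : Continuous (fun r => kern0 s r * rho a r) := by
    have := continuous_rho a
    have h := continuous_kern0.comp (Continuous.prodMk_right s)
    exact h.mul this
  rw [← intervalIntegral.integral_add_adjacent_intervals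
    (hc.intervalIntegrable τ s) (hc.intervalIntegrable s (π / 2 - τ))]
  have e1 : ∫ r in τ..s, kern0 s r * rho a r
      = 2 * sin s * ∫ r in τ..s, cos (s - r) * (cos r * rho a r) := by
    rw [← intervalIntegral.integral_const_mul]
    apply intervalIntegral.integral_congr
    intro r hr
    rw [uIcc_of_le hs.1] at hr
    simp only
    rw [kern0_of_le hr.2]; ring
  have e2 : ∫ r in s..(π / 2 - τ), kern0 s r * rho a r
      = 2 * cos s * ∫ r in s..(π / 2 - τ), cos (r - s) * (sin r * rho a r) := by
    rw [← intervalIntegral.integral_const_mul]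
    apply intervalIntegral.integral_congr
    intro r hr
    rw [uIcc_of_le hs.2] at hr
    simp only
    rw [kern0_of_ge hr.1]; ring
  rw [e1, e2, P.int_one, P.int_two, hgt'_eq, hgt'_eq, xcor_symm, cos_pi_div_two_sub,
    sin_pi_div_two_sub]
  have h3 : xcor' a (π / 2 - s) = xcor' a s := by
    unfold xcor'; rw [sin_pi_div_two_sub, cos_pi_div_two_sub]; ring
  rw [h3]
  have h4 : xcor' a s = a - sin s - cos s := rfl
  rw [h4]
  linear_combination (2 * (sin s + cos s)) * sin_sq_add_cos_sq s

lemma int_sum_rho (τ a : ℝ) :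
    ∫ s in τ..(π / 2 - τ), (sin s + cos s) * rho a s = 2 * areaVal τ a := by
  have h : ∀ r ∈ uIcc τ (π / 2 - τ),
      HasDerivAt (fun x => 3 * (x - cos (2 * x) / 2) - 2 * a * (sin x - cos x))
      ((sin r + cos r) * rho a r) r := by
    intro r _
    have h1 : HasDerivAt (fun x => cos (2 * x)) (-sin (2 * r) * (2 * 1)) r :=
      ((hasDerivAt_id r).const_mul 2).cos
    have h2 := (((hasDerivAt_id r).sub (h1.div_const 2)).const_mul 3).sub
      (((hasDerivAt_sin r).sub (hasDerivAt_cos r)).const_mul (2 * a))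
    refine h2.congr_deriv ?_
    rw [sin_two_mul]
    unfold rho
    linear_combination (-3) * sin_sq_add_cos_sq r
  rw [intervalIntegral.integral_eq_sub_of_hasDerivAt h]
  · have e : 2 * (π / 2 - τ) = π - 2 * τ := by ring
    rw [e, cos_pi_sub, sin_pi_div_two_sub, cos_pi_div_two_sub]
    unfold areaVal; ring
  · apply Continuous.intervalIntegrable
    have := continuous_rho a
    fun_prop

lemma int_symm_eq (τ : ℝ) (f : ℝ → ℝ) :
    ∫ t in τ..(π / 2 - τ), f (π / 2 - t) = ∫ t in τ..(π / 2 - τ), f t := by
  rw [intervalIntegral.integral_comp_sub_left]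
  congr 1
  ring

lemma Params.area_curve (P : Params τ a) :
    ∫ t in τ..(π / 2 - τ), (sin t * rho a t * cos t) * (2 * cx a t) = areaVal τ a := by
  have hcx := continuous_cx a
  have hcy := continuous_cy a
  have hr := continuous_rho a
  have hh := continuous_hgt a
  have hx := continuous_xcor a
  -- the integral of the derivative of `cx * cy` vanishes
  have h0 : ∫ t in τ..(π / 2 - τ),
      ((-(sin t * rho a t) * sin t) * cy a t + cx a t * ((sin t * rho a t) * cos t)) = 0 := by
    have h : ∀ r ∈ uIcc τ (π / 2 - τ), HasDerivAt (fun x => cx a x * cy a x)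
      ((-(sin r * rho a r) * sin r) * cy a r + cx a r * ((sin r * rho a r) * cos r)) r :=
      fun r _ => (hasDerivAt_cx a r).mul (hasDerivAt_cy a r)
    rw [intervalIntegral.integral_eq_sub_of_hasDerivAt h]
    · rw [P.cx_end, P.cy_tau]; ring
    · apply Continuous.intervalIntegrable; fun_prop
  have h1 : ∫ t in τ..(π / 2 - τ), (sin t * rho a t * cos t) * (2 * cx a t)
      = ∫ t in τ..(π / 2 - τ), sin t * rho a t * hgt a t := by
    have : ∫ t in τ..(π / 2 - τ), (sin t * rho a t * cos t) * (2 * cx a t)
      = (∫ t in τ..(π / 2 - τ), sin t * rho a t * hgt a t) + ∫ t in τ..(π / 2 - τ),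
      ((-(sin t * rho a t) * sin t) * cy a t + cx a t * ((sin t * rho a t) * cos t)) := by
      rw [← intervalIntegral.integral_add]
      · apply intervalIntegral.integral_congr
        intro t _
        simp only
        rw [hgt_eq_curve]; ring
      · apply Continuous.intervalIntegrable; fun_prop
      · apply Continuous.intervalIntegrable; fun_prop
    rw [this, h0, add_zero]
  have h2 : (∫ t in τ..(π / 2 - τ), sin t * rho a t * hgt a t)
      + (∫ t in τ..(π / 2 - τ), sin t * rho a t * hgt a t) = 2 * areaVal τ a := by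
    nth_rewrite 2 [← int_symm_eq]
    rw [← int_sum_rho, ← intervalIntegral.integral_add]
    · apply intervalIntegral.integral_congr
      intro t _
      simp only
      rw [hgt_eq, hgt_eq, xcor_symm, rho_symm, sin_pi_div_two_sub, cos_pi_div_two_sub]
      ring
    · apply Continuous.intervalIntegrable; fun_prop
    · apply Continuous.intervalIntegrable; fun_prop
  rw [h1]; linarith

end

end Pool.Agent.MP_3737e1_gt
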