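import Mathlib
import Pool.Agent.MP_3737e1_gt.Curve

namespace Pool.Agent.MP_3737e1_gt

open MeasureTheory Set Real

noncomputable section

variable {τ a : ℝ}

lemma Params.mem_range (P : Params τ a) {t : ℝ} (ht : t ∈ Icc τ (π / 2 - τ)) :
    t ∈ Icc (0 : ℝ) (π / 2) :=
  ⟨P.pos.le.trans ht.1, by have := ht.2; have := P.pos; linarith⟩

lemma Params.tau_mem (P : Params τ a) : τ ∈ Icc τ (π / 2 - τ) :=
  ⟨le_rfl, by have := P.lt; linarith⟩

lemma Params.end_mem (P : Params τ a) : π / 2 - τ ∈ Icc τ (π / 2 - τ) :=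
  ⟨by have := P.lt; linarith, le_rfl⟩

lemma convex_sofa (P : Params τ a) : Convex ℝ (sofa τ a) := by
  intro z hz w hw α β hα hβ hαβ
  refine ⟨?_, ?_⟩
  · have h1 := hz.1
    have h2 := hw.1
    simp only [Complex.add_im, Complex.real_smul, Complex.mul_im, Complex.ofReal_re,
      Complex.ofReal_im, zero_mul, add_zero]
    positivity
  · intro t ht
    have h1 := hz.2 t ht
    have h2 := hw.2 t ht
    have hc : 0 ≤ cos t := cos_nonneg_of_mem_Icc
      ⟨by have := (P.mem_range ht).1; linarith [pi_pos], (P.mem_range ht).2⟩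
    simp only [Complex.add_im, Complex.add_re, Complex.real_smul, Complex.mul_im, Complex.mul_re,
      Complex.ofReal_re, Complex.ofReal_im, zero_mul, add_zero, sub_zero]
    have h3 : |α * z.re + β * w.re| ≤ α * |z.re| + β * |w.re| := by
      calc |α * z.re + β * w.re| ≤ |α * z.re| + |β * w.re| := abs_add_le _ _
        _ = α * |z.re| + β * |w.re| := by rw [abs_mul, abs_mul, abs_of_nonneg hα, abs_of_nonneg hβ]
    calc |α * z.re + β * w.re| * cos t + (α * z.im + β * w.im) * sin t
        ≤ (α * |z.re| + β * |w.re|) * cos t + (α * z.im + β * w.im) * sin t := by gcongr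
      _ = α * (|z.re| * cos t + z.im * sin t) + β * (|w.re| * cos t + w.im * sin t) := by ring
      _ ≤ α * hgt a t + β * hgt a t := by gcongr
      _ = hgt a t := by rw [← add_mul, hαβ, one_mul]

lemma isClosed_sofa (τ a : ℝ) : IsClosed (sofa τ a) := by
  have : sofa τ a = {z : ℂ | 0 ≤ z.im} ∩
      ⋂ t ∈ Icc τ (π / 2 - τ), {z : ℂ | |z.re| * cos t + z.im * sin t ≤ hgt a t} := by
    ext z; simp [sofa]
  rw [this]
  apply IsClosed.inter
  · exact isClosed_le continuous_const Complex.continuous_im
  · apply isClosed_biInter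
    intro t _
    apply isClosed_le _ continuous_const
    have := Complex.continuous_re
    have := Complex.continuous_im
    fun_prop

lemma Params.im_le (P : Params τ a) {z : ℂ} (hz : z ∈ sofa τ a) :
    |z.re| * sin τ + z.im * cos τ ≤ a * cos τ := by
  have h := hz.2 _ P.end_mem
  rw [hgt_eq_curve, P.cx_end, P.cy_end, cos_pi_div_two_sub, sin_pi_div_two_sub] at h
  linarith

lemma Params.re_le (P : Params τ a) {z : ℂ} (hz : z ∈ sofa τ a) :
    |z.re| * cos τ + z.im * sin τ ≤ cx a τ * cos τ := by
  have h := hz.2 _ P.tau_mem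
  rw [hgt_eq_curve, P.cy_tau] at h
  linarith

lemma isCompact_sofa (P : Params τ a) : IsCompact (sofa τ a) := by
  apply Metric.isCompact_of_isClosed_isBounded (isClosed_sofa τ a)
  rw [isBounded_iff_forall_norm_le]
  refine ⟨cx a τ + a, fun z hz => ?_⟩
  have hc := P.cos_pos
  have hs := P.sin_pos
  have h1 := P.im_le hz
  have h2 := P.re_le hz
  have h3 := hz.1
  have h4 : |z.re| ≤ cx a τ := by
    have : |z.re| * cos τ ≤ cx a τ * cos τ := by
      have : 0 ≤ z.im * sin τ := by positivity
      linarith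
    exact le_of_mul_le_mul_right this hc
  have h5 : z.im ≤ a := by
    have : z.im * cos τ ≤ a * cos τ := by
      have : 0 ≤ |z.re| * sin τ := by positivity
      linarith
    exact le_of_mul_le_mul_right this hc
  calc ‖z‖ ≤ |z.re| + |z.im| := Complex.norm_le_abs_re_add_abs_im z
    _ ≤ cx a τ + a := by rw [abs_of_nonneg h3]; linarith

lemma Params.cx_antitone (P : Params τ a) : AntitoneOn (cx a) (Icc 0 (π / 2)) := by
  apply antitoneOn_of_deriv_nonpos (convex_Icc _ _) (continuous_cx a).continuousOn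
  · exact fun x _ => (hasDerivAt_cx a x).differentiableAt.differentiableWithinAt
  · intro x hx
    rw [interior_Icc] at hx
    rw [(hasDerivAt_cx a x).deriv]
    have h1 : 0 ≤ sin x := sin_nonneg_of_nonneg_of_le_pi hx.1.le (by
      have := hx.2; linarith [pi_pos])
    have h2 : 0 < rho a x := lt_trans one_pos (P.rho_pos hx.1.le hx.2.le)
    have : 0 ≤ sin x * rho a x * sin x := by positivity
    linarith

lemma Params.cx_nonneg (P : Params τ a) {t : ℝ} (ht : t ∈ Icc τ (π / 2 - τ)) : 0 ≤ cx a t := by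
  rw [← P.cx_end]
  exact P.cx_antitone (P.mem_range ht) (P.mem_range P.end_mem) ht.2

lemma Params.cy_strictMono (P : Params τ a) : StrictMonoOn (cy a) (Icc 0 (π / 2)) := by
  apply strictMonoOn_of_deriv_pos (convex_Icc _ _) (continuous_cy a).continuousOn
  intro x hx
  rw [interior_Icc] at hx
  rw [(hasDerivAt_cy a x).deriv]
  have h1 : 0 < sin x := sin_pos_of_pos_of_lt_pi hx.1 (by
    have := hx.2; linarith [pi_pos])
  have h2 : 0 < rho a x := lt_trans one_pos (P.rho_pos hx.1.le hx.2.le)
  have h3 : 0 < cos x := cos_pos_of_mem_Ioo ⟨by linarith [hx.1, pi_pos], hx.2⟩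
  positivity

lemma Params.cy_nonneg (P : Params τ a) {t : ℝ} (ht : t ∈ Icc τ (π / 2 - τ)) : 0 ≤ cy a t := by
  rw [← P.cy_tau]
  exact P.cy_strictMono.monotoneOn (P.mem_range P.tau_mem) (P.mem_range ht) ht.1

lemma Params.slice_mem (P : Params τ a) {t x : ℝ} (ht : t ∈ Icc τ (π / 2 - τ))
    (hx : |x| ≤ cx a t) : (⟨x, cy a t⟩ : ℂ) ∈ sofa τ a := by
  refine ⟨P.cy_nonneg ht, fun t' ht' => ?_⟩
  have h := P.curve_le (P.mem_range ht) (P.mem_range ht')
  have hc : 0 ≤ cos t' := cos_nonneg_of_mem_Icc
    ⟨by have := (P.mem_range ht').1; linarith [pi_pos], (P.mem_range ht').2⟩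
  simp only
  calc |x| * cos t' + cy a t * sin t' ≤ cx a t * cos t' + cy a t * sin t' := by gcongr
    _ ≤ hgt a t' := h

/-- lower bound for the area of the extremal region -/
lemma Params.area_ge (P : Params τ a) : ENNReal.ofReal (areaVal τ a) ≤ volume (sofa τ a) := by
  have hτ : τ ≤ π / 2 - τ := P.tau_mem.2
  set E : Set (ℝ × ℝ) := {p | (⟨p.1, p.2⟩ : ℂ) ∈ sofa τ a} with hE
  have hEm : MeasurableSet E := by
    have hc : Continuous (fun p : ℝ × ℝ => (⟨p.1, p.2⟩ : ℂ)) := by
      have := Complex.equivRealProdCLM.symm.continuous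
      exact this
    exact ((isClosed_sofa τ a).preimage hc).measurableSet
  have hvol : volume (sofa τ a) = volume E := by
    have h := Complex.volume_preserving_equiv_real_prod.symm
    have h2 := h.measure_preimage (isClosed_sofa τ a).measurableSet.nullMeasurableSet
    rw [← h2]
    rfl
  rw [hvol]
  have hprod : volume E = ∫⁻ y : ℝ, volume ((fun x : ℝ => (x, y)) ⁻¹' E) := by
    rw [Measure.volume_eq_prod, Measure.prod_apply_symm hEm]
  rw [hprod]
  have hinj : InjOn (cy a) (Icc τ (π / 2 - τ)) :=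
    (P.cy_strictMono.mono (fun t ht => P.mem_range ht)).injOn
  have hcv := lintegral_image_eq_lintegral_abs_deriv_mul (s := Icc τ (π / 2 - τ))
    (f := cy a) (f' := fun t => (sin t * rho a t) * cos t) measurableSet_Icc
    (fun t _ => (hasDerivAt_cy a t).hasDerivWithinAt) hinj
    (fun y => volume ((fun x : ℝ => (x, y)) ⁻¹' E))
  calc ENNReal.ofReal (areaVal τ a)
      = ENNReal.ofReal (∫ t in Icc τ (π / 2 - τ), (sin t * rho a t * cos t) * (2 * cx a t)) := by
        rw [← P.area_curve, intervalIntegral.integral_of_le hτ, integral_Icc_eq_integral_Ioc]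
    _ = ∫⁻ t in Icc τ (π / 2 - τ), ENNReal.ofReal ((sin t * rho a t * cos t) * (2 * cx a t)) := by
        rw [ofReal_integral_eq_lintegral_ofReal]
        · apply Continuous.integrableOn_Icc
          have := continuous_cx a
          have := continuous_rho a
          fun_prop
        · rw [Filter.EventuallyLE, ae_restrict_iff' measurableSet_Icc]
          apply Filter.Eventually.of_forall
          intro t ht
          have h0 := P.mem_range ht
          have h1 : 0 ≤ sin t := sin_nonneg_of_nonneg_of_le_pi h0.1 (by linarith [h0.2, pi_pos])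
          have h2 : 0 < rho a t := lt_trans one_pos (P.rho_pos h0.1 h0.2)
          have h3 : 0 ≤ cos t := cos_nonneg_of_mem_Icc ⟨by linarith [h0.1, pi_pos], h0.2⟩
          have h4 := P.cx_nonneg ht
          simp only [Pi.zero_apply]
          positivity
    _ ≤ ∫⁻ t in Icc τ (π / 2 - τ), ENNReal.ofReal |sin t * rho a t * cos t| *
          volume ((fun x : ℝ => (x, cy a t)) ⁻¹' E) := by
        apply setLIntegral_mono' measurableSet_Icc
        intro t ht
        have h0 := P.mem_range ht
        have h1 : 0 ≤ sin t := sin_nonneg_of_nonneg_of_le_pi h0.1 (by linarith [h0.2, pi_pos])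
        have h2 : 0 < rho a t := lt_trans one_pos (P.rho_pos h0.1 h0.2)
        have h3 : 0 ≤ cos t := cos_nonneg_of_mem_Icc ⟨by linarith [h0.1, pi_pos], h0.2⟩
        have h5 : 0 ≤ sin t * rho a t * cos t := by positivity
        rw [abs_of_nonneg h5, ENNReal.ofReal_mul h5]
        gcongr
        have h6 : Icc (-cx a t) (cx a t) ⊆ (fun x : ℝ => (x, cy a t)) ⁻¹' E := by
          intro x hx
          exact P.slice_mem ht (abs_le.mpr ⟨hx.1, hx.2⟩)
        calc ENNReal.ofReal (2 * cx a t) = volume (Icc (-cx a t) (cx a t)) := by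
              rw [Real.volume_Icc]; congr 1; ring
          _ ≤ _ := measure_mono h6
    _ = ∫⁻ y in cy a '' Icc τ (π / 2 - τ), volume ((fun x : ℝ => (x, y)) ⁻¹' E) := hcv.symm
    _ ≤ ∫⁻ y : ℝ, volume ((fun x : ℝ => (x, y)) ⁻¹' E) := setLIntegral_le_lintegral _ _

end

end Pool.Agent.MP_3737e1_gt
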