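import Mathlib
import Pool.Agent.MP_3737e1_gt.Sofa

namespace Pool.Agent.MP_3737e1_gt

open MeasureTheory Set Real

noncomputable section

variable {τ a : ℝ}

lemma Params.xcor_tau (P : Params τ a) : xcor a τ * cos τ = sin τ * cos τ + sin τ ^ 2 := by
  have h := P.cx_end
  unfold cx at h
  rw [xcor_symm, cos_pi_div_two_sub, sin_pi_div_two_sub] at h
  have h3 : xcor' a (π / 2 - τ) = xcor' a τ := by
    unfold xcor'; rw [sin_pi_div_two_sub, cos_pi_div_two_sub]; ring
  rw [h3] at h
  have h4 := P.xcor'_tau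
  linear_combination (-cos τ) * h - sin τ * h4

lemma Params.r_eq (P : Params τ a) : cx a τ * cos τ = 1 + cos τ * xcor a τ := by
  have h := hgt_eq_curve a τ
  rw [hgt_eq, P.cy_tau] at h
  linarith

lemma Params.p_eq (P : Params τ a) : a * cos τ = 1 - sin τ * xcor a τ := by
  have h := hgt_eq_curve a (π / 2 - τ)
  rw [hgt_eq, P.cx_end, P.cy_end, xcor_symm, cos_pi_div_two_sub, sin_pi_div_two_sub] at h
  linarith

lemma Params.r_pos (P : Params τ a) : 0 < cx a τ := by
  have h := P.r_eq
  have h2 := P.xcor_tau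
  have hc := P.cos_pos
  have hs := P.sin_pos
  have : 0 < cx a τ * cos τ := by
    rw [h, mul_comm (cos τ), h2]; positivity
  exact (pos_iff_pos_of_mul_pos this).mpr hc

/-- the auxiliary inequality on `[0, τ]` -/
lemma Params.aux_le (P : Params τ a) {x : ℝ} (h0 : 0 ≤ x) (h1 : x ≤ τ) :
    a * cos x + (cx a τ - 1 / cos x) * sin x ≤ 1 := by
  have hτ := P.lt
  have hcos : ∀ y ∈ Icc 0 τ, 0 < cos y := fun y hy =>
    cos_pos_of_mem_Ioo ⟨by linarith [hy.1, pi_pos], by linarith [hy.2, pi_pos]⟩
  set g : ℝ → ℝ := fun y => a * cos y + cx a τ * sin y - tan y with hg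
  have hgd : ∀ y ∈ Icc 0 τ, HasDerivAt g (-a * sin y + cx a τ * cos y - 1 / cos y ^ 2) y := by
    intro y hy
    have h := (((hasDerivAt_cos y).const_mul a).add ((hasDerivAt_sin y).const_mul (cx a τ))).sub
      (hasDerivAt_tan (hcos y hy).ne')
    exact h.congr_deriv (by ring)
  have hpos : ∀ y ∈ Icc 0 τ, 0 ≤ -a * sin y + cx a τ * cos y - 1 / cos y ^ 2 := by
    intro y hy
    have e1 : sin y ≤ sin τ := sin_le_sin_of_le_of_le_pi_div_two (by linarith [hy.1, pi_pos])
      (by linarith [pi_pos]) hy.2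
    have e2 : cos τ ≤ cos y := cos_le_cos_of_nonneg_of_le_pi hy.1 (by linarith [pi_pos]) hy.2
    have hc := P.cos_pos
    have ha := P.a_pos
    have hr := P.r_pos
    have e3 : 1 / cos y ^ 2 ≤ 1 / cos τ ^ 2 := by gcongr
    have e4 : -a * sin τ + cx a τ * cos τ - 1 / cos τ ^ 2 = 0 := by
      have q1 := P.r_eq
      have q2 := P.p_eq
      have q3 := P.xcor_tau
      have q4 := sin_sq_add_cos_sq τ
      field_simp
      have : (-(a * sin τ) + cx a τ * cos τ) * cos τ ^ 2 - 1 = 0 := by
        linear_combination (-(sin τ * cos τ)) * q2 + cos τ ^ 2 * q1 + q3 * cos τ ^ 2 + sin τ ^ 2 * q3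
          + (1 + sin τ * cos τ + sin τ ^ 2) * q4
      linarith
    have e5 : a * sin y ≤ a * sin τ := by gcongr
    have e6 : cx a τ * cos τ ≤ cx a τ * cos y := by gcongr
    linarith
  have hmono : MonotoneOn g (Icc 0 τ) := by
    apply monotoneOn_of_deriv_nonneg (convex_Icc _ _)
    · exact fun y hy => (hgd y hy).continuousAt.continuousWithinAt
    · intro y hy
      exact (hgd y (interior_subset hy)).differentiableAt.differentiableWithinAt
    · intro y hy
      rw [(hgd y (interior_subset hy)).deriv]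
      exact hpos y (interior_subset hy)
  have h2 := hmono ⟨h0, h1⟩ ⟨P.pos.le, le_rfl⟩ h1
  have h3 : g τ = 1 := by
    have q1 := P.r_eq
    have q2 := P.p_eq
    have hc := P.cos_pos
    simp only [hg]
    rw [tan_eq_sin_div_cos, q2]
    field_simp
    linear_combination sin τ * q1
  have h4 : g x = a * cos x + (cx a τ - 1 / cos x) * sin x := by
    simp only [hg]
    rw [tan_eq_sin_div_cos]; ring
  rw [← h4, ← h3]; exact h2

/-- horizontal position of the inner corner during the motion -/
def xi (τ a θ : ℝ) : ℝ :=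
  xcor a (max τ (min θ (π / 2 - τ))) + (1 / cos τ - 1 / cos (min θ τ))
    - (1 / cos τ - 1 / sin (max θ (π / 2 - τ)))

lemma Params.xi_left (P : Params τ a) {θ : ℝ} (h : θ ≤ τ) : xi τ a θ = cx a τ - 1 / cos θ := by
  unfold xi
  have h1 := P.tau_mem.2
  have hc := P.cos_pos
  rw [min_eq_left h, min_eq_left (h.trans h1), max_eq_left h, max_eq_right (h.trans h1),
    sin_pi_div_two_sub]
  have q1 := P.r_eq
  have : cx a τ = xcor a τ + 1 / cos τ := by
    field_simp
    linarith
  rw [this]; ring

lemma Params.xi_mid (_P : Params τ a) {θ : ℝ} (h : θ ∈ Icc τ (π / 2 - τ)) :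
    xi τ a θ = xcor a θ := by
  unfold xi
  rw [min_eq_left h.2, max_eq_right h.1, min_eq_right h.1, max_eq_right h.2, sin_pi_div_two_sub]
  ring

lemma Params.xi_symm (P : Params τ a) (θ : ℝ) : xi τ a (π / 2 - θ) = - xi τ a θ := by
  have h1 := P.tau_mem.2
  unfold xi
  have e1 : max τ (min (π / 2 - θ) (π / 2 - τ)) = π / 2 - max τ (min θ (π / 2 - τ)) := by
    rcases le_total θ τ with h | h
    · rw [min_eq_right (by linarith), max_eq_right h1, min_eq_left (by linarith), max_eq_left h]
    · rcases le_total θ (π / 2 - τ) with h' | h'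
      · rw [min_eq_left (by linarith), max_eq_right (by linarith), min_eq_left h', max_eq_right h]
      · rw [min_eq_left (by linarith), max_eq_left (by linarith), min_eq_right h', max_eq_right h1]
        ring
  have e2 : cos (min (π / 2 - θ) τ) = sin (max θ (π / 2 - τ)) := by
    rw [← sin_pi_div_two_sub]
    congr 1
    rcases le_total θ (π / 2 - τ) with h | h
    · rw [min_eq_right (by linarith), max_eq_right h]
    · rw [min_eq_left (by linarith), max_eq_left h]; ring
  have e3 : sin (max (π / 2 - θ) (π / 2 - τ)) = cos (min θ τ) := by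
    rw [← cos_pi_div_two_sub]
    congr 1
    rcases le_total θ τ with h | h
    · rw [max_eq_left (by linarith), min_eq_left h]; ring
    · rw [max_eq_right (by linarith), min_eq_right h]; ring
  rw [e1, e2, e3, xcor_symm]
  ring

lemma Params.outer (P : Params τ a) {z : ℂ} (hz : z ∈ sofa τ a) {θ : ℝ}
    (hθ : θ ∈ Icc 0 (π / 2)) : |z.re| * cos θ + z.im * sin θ ≤ 1 + xi τ a θ * cos θ := by
  have hc := P.cos_pos
  have hs := P.sin_pos
  have hlt := P.lt
  have him := hz.1
  rcases le_total θ τ with h | h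
  · rw [P.xi_left h]
    have hcθ : 0 < cos θ := cos_pos_of_mem_Ioo
      ⟨by linarith [hθ.1, pi_pos], by linarith [pi_pos]⟩
    have h1 := P.re_le hz
    have h2 : (cx a τ - 1 / cos θ) * cos θ = cx a τ * cos θ - 1 := by
      field_simp
    rw [h2]
    -- |re| cos θ + im sin θ ≤ r cos θ
    have h3 : sin θ * cos τ ≤ sin τ * cos θ := by
      have : 0 ≤ sin (τ - θ) := sin_nonneg_of_nonneg_of_le_pi (by linarith)
        (by linarith [hθ.1, pi_pos])
      rw [sin_sub] at this; linarith
    have h4 : (|z.re| * cos θ + z.im * sin θ) * cos τ ≤ (cx a τ * cos θ) * cos τ := by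
      calc (|z.re| * cos θ + z.im * sin θ) * cos τ
          = |z.re| * cos τ * cos θ + z.im * (sin θ * cos τ) := by ring
        _ ≤ |z.re| * cos τ * cos θ + z.im * (sin τ * cos θ) := by gcongr
        _ = (|z.re| * cos τ + z.im * sin τ) * cos θ := by ring
        _ ≤ (cx a τ * cos τ) * cos θ := by gcongr
        _ = (cx a τ * cos θ) * cos τ := by ring
    have h5 := le_of_mul_le_mul_right h4 hc
    linarith
  · rcases le_total θ (π / 2 - τ) with h' | h'
    · rw [P.xi_mid ⟨h, h'⟩]
      have := hz.2 θ ⟨h, h'⟩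
      rw [hgt_eq] at this
      linarith
    · -- θ ≥ π/2 - τ
      have hx : xi τ a θ = - (cx a τ - 1 / sin θ) := by
        have e : θ = π / 2 - (π / 2 - θ) := by ring
        rw [e, P.xi_symm, P.xi_left (by linarith), cos_pi_div_two_sub, ← e]
      rw [hx]
      have h6 := P.aux_le (x := π / 2 - θ) (by linarith [hθ.2]) (by linarith)
      rw [cos_pi_div_two_sub, sin_pi_div_two_sub] at h6
      have h1 := P.im_le hz
      have h3 : cos θ * cos τ ≤ sin θ * sin τ := by
        have : cos (θ + τ) ≤ 0 := cos_nonpos_of_pi_div_two_le_of_le (by linarith)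
          (by linarith [hθ.2])
        rw [cos_add] at this; linarith
      have hsθ : 0 ≤ sin θ := sin_nonneg_of_nonneg_of_le_pi hθ.1 (by linarith [hθ.2, pi_pos])
      have h4 : (|z.re| * cos θ + z.im * sin θ) * cos τ ≤ (a * sin θ) * cos τ := by
        calc (|z.re| * cos θ + z.im * sin θ) * cos τ
            = |z.re| * (cos θ * cos τ) + z.im * cos τ * sin θ := by ring
          _ ≤ |z.re| * (sin θ * sin τ) + z.im * cos τ * sin θ := by gcongr
          _ = (|z.re| * sin τ + z.im * cos τ) * sin θ := by ring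
          _ ≤ (a * cos τ) * sin θ := by gcongr
          _ = (a * sin θ) * cos τ := by ring
      have h5 := le_of_mul_le_mul_right h4 hc
      linarith

/-- the motion in coordinates -/
lemma Params.move_mem (P : Params τ a) {z : ℂ} (hz : z ∈ sofa τ a) {θ : ℝ}
    (hθ : θ ∈ Icc 0 (π / 2)) :
    (z.re - xi τ a θ) * cos θ + z.im * sin θ ≤ 1 ∧
    -(z.re - xi τ a θ) * sin θ + z.im * cos θ ≤ 1 := by
  constructor
  · have h := P.outer hz hθ
    have hcθ : 0 ≤ cos θ := cos_nonneg_of_mem_Icc ⟨by linarith [hθ.1, pi_pos], hθ.2⟩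
    have h2 : z.re * cos θ ≤ |z.re| * cos θ := by
      gcongr; exact le_abs_self _
    linarith
  · have h := P.outer hz (θ := π / 2 - θ) ⟨by linarith [hθ.2], by linarith [hθ.1]⟩
    rw [P.xi_symm, cos_pi_div_two_sub, sin_pi_div_two_sub] at h
    have hsθ : 0 ≤ sin θ := sin_nonneg_of_nonneg_of_le_pi hθ.1 (by linarith [hθ.2, pi_pos])
    have h2 : -z.re * sin θ ≤ |z.re| * sin θ := by
      gcongr; exact neg_le_abs _
    linarith

lemma Params.continuous_xi (P : Params τ a) :
    Continuous (fun t : unitInterval => xi τ a (π / 2 * (t : ℝ))) := by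
  unfold xi
  have h0 := continuous_xcor a
  have hlt := P.lt
  have hpos := P.pos
  have h1 : Continuous (fun t : unitInterval => xcor a (max τ (min (π / 2 * (t : ℝ)) (π / 2 - τ)))) :=
    h0.comp (by fun_prop)
  have h2 : Continuous (fun t : unitInterval => 1 / cos (min (π / 2 * (t : ℝ)) τ)) := by
    apply Continuous.div (by fun_prop) (by fun_prop)
    intro t
    have ht0 : 0 ≤ π / 2 * (t : ℝ) := mul_nonneg (by positivity) t.2.1
    apply ne_of_gt
    apply cos_pos_of_mem_Ioo
    constructor
    · have : 0 ≤ min (π / 2 * (t : ℝ)) τ := le_min ht0 hpos.le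
      linarith [pi_pos]
    · have : min (π / 2 * (t : ℝ)) τ ≤ τ := min_le_right _ _
      linarith [pi_pos]
  have h3 : Continuous (fun t : unitInterval => 1 / sin (max (π / 2 * (t : ℝ)) (π / 2 - τ))) := by
    apply Continuous.div (by fun_prop) (by fun_prop)
    intro t
    have ht1 : π / 2 * (t : ℝ) ≤ π / 2 * 1 := by
      have := t.2.2
      gcongr
    apply ne_of_gt
    apply sin_pos_of_pos_of_lt_pi
    · have : π / 2 - τ ≤ max (π / 2 * (t : ℝ)) (π / 2 - τ) := le_max_right _ _
      linarith [pi_pos]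
    · have : max (π / 2 * (t : ℝ)) (π / 2 - τ) ≤ π / 2 :=
        max_le (by linarith) (by linarith)
      linarith [pi_pos]
  exact ((h1.add (continuous_const.sub h2)).sub (continuous_const.sub h3))

theorem Params.canMove (P : Params τ a) : CanMove (sofa τ a) := by
  refine ⟨fun t => Circle.exp (-(π / 2 * (t : ℝ))),
    fun t => -((Circle.exp (-(π / 2 * (t : ℝ))) : ℂ) * (xi τ a (π / 2 * (t : ℝ)) : ℝ)),
    ?_, ?_, ?_, ?_, ?_⟩
  · exact Circle.exp.continuous.comp (by fun_prop)
  · have h1 := P.continuous_xi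
    have h2 : Continuous (fun t : unitInterval => ((Circle.exp (-(π / 2 * (t : ℝ))) : Circle) : ℂ)) :=
      continuous_subtype_val.comp (Circle.exp.continuous.comp (by fun_prop))
    exact (h2.mul (Complex.continuous_ofReal.comp h1)).neg
  all_goals
    have key : ∀ (t : unitInterval) (z : ℂ),
      ((Circle.exp (-(π / 2 * (t : ℝ))) : Circle) : ℂ) * z +
        -((Circle.exp (-(π / 2 * (t : ℝ))) : ℂ) * (xi τ a (π / 2 * (t : ℝ)) : ℝ))
      = ⟨(z.re - xi τ a (π / 2 * (t : ℝ))) * cos (π / 2 * (t : ℝ)) + z.im * sin (π / 2 * (t : ℝ)),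
        -(z.re - xi τ a (π / 2 * (t : ℝ))) * sin (π / 2 * (t : ℝ)) + z.im * cos (π / 2 * (t : ℝ))⟩ := by
      intro t z
      rw [Circle.coe_exp]
      have e : Complex.exp ((-(π / 2 * (t : ℝ)) : ℝ) * Complex.I)
        = ⟨cos (π / 2 * (t : ℝ)), -sin (π / 2 * (t : ℝ))⟩ := by
        apply Complex.ext
        · rw [Complex.exp_ofReal_mul_I_re, cos_neg]
        · rw [Complex.exp_ofReal_mul_I_im, sin_neg]
      rw [e]
      apply Complex.ext
      · simp; ring
      · simp; ring
  · intro t z hz
    unfold rig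
    rw [key]
    have hθ : π / 2 * (t : ℝ) ∈ Icc 0 (π / 2) := by
      have h0 := t.2.1
      have h1 := t.2.2
      constructor
      · positivity
      · calc π / 2 * (t : ℝ) ≤ π / 2 * 1 := by gcongr
          _ = π / 2 := by ring
    set θ := π / 2 * (t : ℝ) with hθdef
    obtain ⟨h1, h2⟩ := P.move_mem hz hθ
    have hcθ : 0 ≤ cos θ := cos_nonneg_of_mem_Icc ⟨by linarith [hθ.1, pi_pos], hθ.2⟩
    have hsθ : 0 ≤ sin θ := sin_nonneg_of_nonneg_of_le_pi hθ.1 (by linarith [hθ.2, pi_pos])
    by_cases h3 : 0 ≤ -(z.re - xi τ a θ) * sin θ + z.im * cos θ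
    · left; exact ⟨h1, h3, h2⟩
    · right
      refine ⟨?_, h1, h2⟩
      simp only
      by_contra h4
      push Not at h3 h4
      have h5 : z.im = ((z.re - xi τ a θ) * cos θ + z.im * sin θ) * sin θ
        + (-(z.re - xi τ a θ) * sin θ + z.im * cos θ) * cos θ := by
        linear_combination (-z.im) * sin_sq_add_cos_sq θ
      have h6 := hz.1
      have h7 := one_le_sin_add_cos hθ.1 hθ.2
      rcases hsθ.eq_or_lt with h8 | h8
      · have : ((z.re - xi τ a θ) * cos θ + z.im * sin θ) * sin θ = 0 := by rw [← h8]; ring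
        have : (-(z.re - xi τ a θ) * sin θ + z.im * cos θ) * cos θ < 0 :=
          mul_neg_of_neg_of_pos h3 (by linarith)
        linarith
      · have : ((z.re - xi τ a θ) * cos θ + z.im * sin θ) * sin θ < 0 :=
          mul_neg_of_neg_of_pos h4 h8
        have : (-(z.re - xi τ a θ) * sin θ + z.im * cos θ) * cos θ ≤ 0 :=
          mul_nonpos_of_nonpos_of_nonneg h3.le hcθ
        linarith
  · intro z hz
    unfold rig
    rw [key]
    have h := P.move_mem hz (θ := π / 2 * ((0 : unitInterval) : ℝ)) (by simp; positivity)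
    refine ⟨h.1, ?_, h.2⟩
    have := hz.1
    simpa using this
  · intro z hz
    unfold rig
    rw [key]
    have h := P.move_mem hz (θ := π / 2 * ((1 : unitInterval) : ℝ)) (by simp; positivity)
    refine ⟨?_, h.1, h.2⟩
    have := hz.1
    simpa using this

end

end Pool.Agent.MP_3737e1_gt
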