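import Mathlib

namespace Pool.Agent.MP_3737e1_gt

open MeasureTheory Set Real
open scoped ComplexConjugate

noncomputable section

local instance instTwoPiPos' : Fact (0 < 2 * π) := Fact.mk Real.two_pi_pos

/-- Fourier coefficients of a real function on `[0, 2π]` -/
def fc (h : ℝ → ℝ) (k : ℤ) : ℂ :=
  (1 / (2 * π) : ℝ) * ∫ x in (0 : ℝ)..(2 * π), Complex.exp (-(k * x : ℝ) * Complex.I) * (h x : ℂ)

/-- the function on the circle -/
def onCircle (h : ℝ → ℝ) (hc : Continuous h) (hp : Function.Periodic h (2 * π)) :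
    C(AddCircle (2 * π), ℂ) where
  toFun := Function.Periodic.lift (f := fun x => (h x : ℂ)) (c := 2 * π)
    (fun x => by simp only [hp x])
  continuous_toFun := continuous_coinduced_dom.mpr (Complex.continuous_ofReal.comp hc)

lemma onCircle_coe (h : ℝ → ℝ) (hc : Continuous h) (hp : Function.Periodic h (2 * π)) (x : ℝ) :
    onCircle h hc hp (x : AddCircle (2 * π)) = (h x : ℂ) := rfl

lemma fourier_two_pi (k : ℤ) (x : ℝ) :
    fourier k (x : AddCircle (2 * π)) = Complex.exp ((k * x : ℝ) * Complex.I) := by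
  rw [fourier_coe_apply]
  congr 1
  have : (π : ℂ) ≠ 0 := by exact_mod_cast pi_ne_zero
  push_cast
  field_simp

lemma fourierCoeff_onCircle (h : ℝ → ℝ) (hc : Continuous h) (hp : Function.Periodic h (2 * π))
    (k : ℤ) : fourierCoeff (onCircle h hc hp) k = fc h k := by
  rw [fourierCoeff_eq_intervalIntegral _ k 0, fc, zero_add, Complex.real_smul]
  congr 1
  apply intervalIntegral.integral_congr
  intro x _
  simp only
  rw [onCircle_coe, fourier_two_pi, smul_eq_mul]
  congr 2
  push_cast
  ring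

lemma hasSum_sq_fc (h : ℝ → ℝ) (hc : Continuous h) (hp : Function.Periodic h (2 * π)) :
    HasSum (fun k : ℤ => ‖fc h k‖ ^ 2) ((2 * π)⁻¹ * ∫ x in (0 : ℝ)..(2 * π), h x ^ 2) := by
  have h1 := hasSum_sq_fourierCoeff
    (ContinuousMap.toLp (E := ℂ) 2 (AddCircle.haarAddCircle (T := 2 * π)) ℂ (onCircle h hc hp))
  simp_rw [fourierCoeff_toLp, fourierCoeff_onCircle] at h1
  convert! h1 using 1
  have h2 : ∫ t : AddCircle (2 * π), ‖(ContinuousMap.toLp (E := ℂ) 2
      (AddCircle.haarAddCircle (T := 2 * π)) ℂ (onCircle h hc hp)) t‖ ^ 2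
      ∂AddCircle.haarAddCircle
      = ∫ t : AddCircle (2 * π), ‖onCircle h hc hp t‖ ^ 2 ∂AddCircle.haarAddCircle := by
    apply integral_congr_ae
    filter_upwards [ContinuousMap.coeFn_toLp (p := 2) (𝕜 := ℂ)
      (AddCircle.haarAddCircle (T := 2 * π)) (onCircle h hc hp)] with x hx
    rw [hx]
  rw [h2, AddCircle.integral_haarAddCircle,
    ← AddCircle.intervalIntegral_preimage (2 * π) 0 (fun t => ‖onCircle h hc hp t‖ ^ 2)]
  rw [zero_add, smul_eq_mul]
  congr 1
  apply intervalIntegral.integral_congr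
  intro x _
  simp only
  rw [onCircle_coe, Complex.norm_real, Real.norm_eq_abs, sq_abs]

lemma hasSum_fc (h : ℝ → ℝ) (hc : Continuous h) (hp : Function.Periodic h (2 * π))
    (hs : Summable (fc h)) (x : ℝ) :
    HasSum (fun k : ℤ => fc h k * Complex.exp ((k * x : ℝ) * Complex.I)) (h x : ℂ) := by
  have h1 : Summable (fourierCoeff (onCircle h hc hp)) := by
    have : fourierCoeff (onCircle h hc hp) = fc h := by
      funext k; exact fourierCoeff_onCircle h hc hp k
    rw [this]; exact hs
  have h2 := has_pointwise_sum_fourier_series_of_summable h1 (x : AddCircle (2 * π))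
  rw [onCircle_coe] at h2
  refine h2.congr_fun ?_
  intro k
  rw [fourierCoeff_onCircle, fourier_two_pi, smul_eq_mul]

lemma fc_shift (h : ℝ → ℝ) (hp : Function.Periodic h (2 * π)) (δ : ℝ)
    (k : ℤ) : fc (fun x => h (x + δ)) k = Complex.exp ((k * δ : ℝ) * Complex.I) * fc h k := by
  unfold fc
  have h1 := intervalIntegral.integral_comp_add_right (a := 0) (b := 2 * π)
    (fun x => Complex.exp (-(k * (x - δ) : ℝ) * Complex.I) * (h x : ℂ)) δ
  have h2 : ∫ x in (0 : ℝ)..(2 * π), Complex.exp (-(k * x : ℝ) * Complex.I) * (h (x + δ) : ℂ)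
      = ∫ x in (0 : ℝ)..(2 * π), Complex.exp (-(k * (x + δ - δ) : ℝ) * Complex.I)
        * (h (x + δ) : ℂ) := by
    apply intervalIntegral.integral_congr
    intro x _
    simp only [add_sub_cancel_right]
  rw [h2, h1]
  have hper : Function.Periodic
      (fun x => Complex.exp (-(k * (x - δ) : ℝ) * Complex.I) * (h x : ℂ)) (2 * π) := by
    intro x
    simp only
    rw [hp x]
    congr 1
    have : (-(k * (x + 2 * π - δ) : ℝ) * Complex.I : ℂ)
        = (-(k * (x - δ) : ℝ) * Complex.I) - (k : ℂ) * (2 * π * Complex.I) := by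
      push_cast; ring
    rw [this, Complex.exp_sub, Complex.exp_int_mul_two_pi_mul_I, div_one]
  have h3 := hper.intervalIntegral_add_eq δ 0
  rw [zero_add] at h3
  rw [zero_add, add_comm (2 * π) δ, h3]
  have h4 : ∀ x : ℝ, Complex.exp (-(k * (x - δ) : ℝ) * Complex.I) * (h x : ℂ)
      = Complex.exp ((k * δ : ℝ) * Complex.I) * (Complex.exp (-(k * x : ℝ) * Complex.I) * (h x : ℂ)) := by
    intro x
    rw [← mul_assoc, ← Complex.exp_add]
    congr 2
    push_cast; ring
  simp_rw [h4]
  rw [intervalIntegral.integral_const_mul]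
  ring

lemma fc_sub (h g : ℝ → ℝ) (hh : Continuous h) (hg : Continuous g) (k : ℤ) :
    fc (fun x => h x - g x) k = fc h k - fc g k := by
  unfold fc
  rw [← mul_sub, ← intervalIntegral.integral_sub]
  · congr 1
    apply intervalIntegral.integral_congr
    intro x _
    simp only
    push_cast; ring
  all_goals
    apply Continuous.intervalIntegrable
    fun_prop

end

end Pool.Agent.MP_3737e1_gt
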