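import Mathlib
import Pool.Agent.MP_3737e1_gt.Defs

namespace Pool.Agent.MP_3737e1_gt

open MeasureTheory Set Real

noncomputable section

/-- scalar product with the unit vector at angle `θ` -/
def dot (z : ℂ) (θ : ℝ) : ℝ := z.re * cos θ + z.im * sin θ

/-- the support function of a set -/
def supp (S : Set ℂ) (θ : ℝ) : ℝ := sSup ((fun z => dot z θ) '' S)

lemma continuous_dot : Continuous (fun p : ℂ × ℝ => dot p.1 p.2) := by
  unfold dot
  have := Complex.continuous_re
  have := Complex.continuous_im
  fun_prop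

lemma continuous_dot_left (θ : ℝ) : Continuous (fun z : ℂ => dot z θ) :=
  continuous_dot.comp (Continuous.prodMk_left θ)

lemma continuous_dot_right (z : ℂ) : Continuous (fun θ : ℝ => dot z θ) :=
  continuous_dot.comp (Continuous.prodMk_right z)

lemma dot_add_pi_div_two (z : ℂ) (θ : ℝ) : dot z (θ + π / 2) = -z.re * sin θ + z.im * cos θ := by
  unfold dot; rw [cos_add_pi_div_two, sin_add_pi_div_two]; ring

lemma dot_add (z : ℂ) (θ δ : ℝ) :
    dot z (θ + δ) = dot z θ * cos δ + dot z (θ + π / 2) * sin δ := by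
  rw [dot_add_pi_div_two]; unfold dot; rw [cos_add, sin_add]; ring

lemma dot_sub (z : ℂ) (θ δ : ℝ) :
    dot z (θ - δ) = dot z θ * cos δ - dot z (θ + π / 2) * sin δ := by
  rw [dot_add_pi_div_two]; unfold dot; rw [cos_sub, sin_sub]; ring

lemma dot_add_two_pi (z : ℂ) (θ : ℝ) : dot z (θ + 2 * π) = dot z θ := by
  unfold dot; rw [cos_add_two_pi, sin_add_two_pi]

lemma dot_add_pi (z : ℂ) (θ : ℝ) : dot z (θ + π) = - dot z θ := by
  unfold dot; rw [cos_add_pi, sin_add_pi]; ring

variable {S : Set ℂ}

lemma dot_le_supp (hS : IsCompact S) {z : ℂ} (hz : z ∈ S) (θ : ℝ) : dot z θ ≤ supp S θ := by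
  apply le_csSup
  · exact (hS.image (continuous_dot_left θ)).bddAbove
  · exact mem_image_of_mem _ hz

lemma supp_le (hne : S.Nonempty) {θ c : ℝ} (h : ∀ z ∈ S, dot z θ ≤ c) : supp S θ ≤ c := by
  apply csSup_le (hne.image _)
  rintro _ ⟨z, hz, rfl⟩
  exact h z hz

lemma exists_dot_eq_supp (hS : IsCompact S) (hne : S.Nonempty) (θ : ℝ) :
    ∃ z ∈ S, dot z θ = supp S θ := by
  obtain ⟨z, hz, h⟩ := hS.exists_sSup_image_eq hne (continuous_dot_left θ).continuousOn
  exact ⟨z, hz, h.symm⟩

lemma continuous_supp (hS : IsCompact S) : Continuous (supp S) := by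
  have h : Continuous (fun p : ℝ × ℂ => dot p.2 p.1) := continuous_dot.comp continuous_swap
  exact hS.continuous_sSup (f := fun θ z => dot z θ) h

lemma supp_periodic (S : Set ℂ) : Function.Periodic (supp S) (2 * π) := by
  intro θ
  unfold supp
  simp only [dot_add_two_pi]

lemma supp_pos (hS : IsCompact S) (h0 : (0 : ℂ) ∈ interior S) (θ : ℝ) : 0 < supp S θ := by
  obtain ⟨ε, hε, hball⟩ := Metric.isOpen_iff.mp isOpen_interior 0 h0
  have hmem : (⟨ε / 2 * cos θ, ε / 2 * sin θ⟩ : ℂ) ∈ S := by
    apply interior_subset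
    apply hball
    rw [mem_ball_zero_iff]
    have : (⟨ε / 2 * cos θ, ε / 2 * sin θ⟩ : ℂ) = ((ε / 2 : ℝ) : ℂ) * ⟨cos θ, sin θ⟩ := by
      apply Complex.ext <;> simp
    rw [this, norm_mul, Complex.norm_real, Real.norm_eq_abs, abs_of_pos (by positivity)]
    have h1 : ‖(⟨cos θ, sin θ⟩ : ℂ)‖ = 1 := by
      rw [Complex.norm_def, Complex.normSq_mk]
      have : cos θ * cos θ + sin θ * sin θ = 1 := by
        have := sin_sq_add_cos_sq θ; nlinarith
      rw [this, sqrt_one]
    rw [h1]; linarith
  have h2 := dot_le_supp hS hmem θ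
  have h3 : dot (⟨ε / 2 * cos θ, ε / 2 * sin θ⟩ : ℂ) θ = ε / 2 := by
    unfold dot
    simp only
    linear_combination (ε / 2) * sin_sq_add_cos_sq θ
  linarith

/-- sublinearity of the support function -/
lemma supp_sublinear (hS : IsCompact S) (hne : S.Nonempty) {θ θ₁ θ₂ α β : ℝ} (hα : 0 ≤ α)
    (hβ : 0 ≤ β) (hc : cos θ = α * cos θ₁ + β * cos θ₂) (hs : sin θ = α * sin θ₁ + β * sin θ₂) :
    supp S θ ≤ α * supp S θ₁ + β * supp S θ₂ := by
  apply supp_le hne
  intro z hz
  have h1 := dot_le_supp hS hz θ₁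
  have h2 := dot_le_supp hS hz θ₂
  have : dot z θ = α * dot z θ₁ + β * dot z θ₂ := by
    unfold dot; rw [hc, hs]; ring
  rw [this]
  gcongr

/-- a wedge with apex at the origin -/
def wedge (φ h m M : ℝ) : Set ℂ :=
  {z | 0 ≤ dot z φ ∧ dot z φ ≤ h ∧ -(m * dot z φ) ≤ dot z (φ + π / 2) ∧
    dot z (φ + π / 2) ≤ M * dot z φ}

lemma isClosed_wedge (φ h m M : ℝ) : IsClosed (wedge φ h m M) := by
  unfold wedge
  have h1 := continuous_dot_left φ
  have h2 := continuous_dot_left (φ + π / 2)
  exact (isClosed_le continuous_const h1).inter ((isClosed_le h1 continuous_const).inter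
    ((isClosed_le (h1.const_mul m).neg h2).inter (isClosed_le h2 (h1.const_mul M))))

lemma volume_wedge (φ : ℝ) {h m M : ℝ} (hh : 0 ≤ h) (hmM : 0 ≤ m + M) :
    volume (wedge φ h m M) = ENNReal.ofReal ((m + M) * h ^ 2 / 2) := by
  -- rotate
  set c : Circle := Circle.exp φ with hc
  have hrot := (rotation c).measurePreserving
  have h1 : (rotation c) ⁻¹' (wedge φ h m M) = wedge 0 h m M := by
    ext z
    have e1 : dot (rotation c z) φ = dot z 0 := by
      rw [rotation_apply]
      have : (c : ℂ) = ⟨cos φ, sin φ⟩ := by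
        rw [hc, Circle.coe_exp]
        apply Complex.ext
        · rw [Complex.exp_ofReal_mul_I_re]
        · rw [Complex.exp_ofReal_mul_I_im]
      rw [this]
      unfold dot
      simp only [Complex.mul_re, Complex.mul_im, cos_zero, sin_zero]
      linear_combination z.re * sin_sq_add_cos_sq φ
    have e2 : dot (rotation c z) (φ + π / 2) = dot z (0 + π / 2) := by
      rw [rotation_apply, dot_add_pi_div_two, dot_add_pi_div_two]
      have : (c : ℂ) = ⟨cos φ, sin φ⟩ := by
        rw [hc, Circle.coe_exp]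
        apply Complex.ext
        · rw [Complex.exp_ofReal_mul_I_re]
        · rw [Complex.exp_ofReal_mul_I_im]
      rw [this]
      simp only [Complex.mul_re, Complex.mul_im, cos_zero, sin_zero]
      linear_combination z.im * sin_sq_add_cos_sq φ
    simp only [wedge, mem_preimage, mem_ofPred_eq, e1, e2]
  rw [← hrot.measure_preimage (isClosed_wedge φ h m M).measurableSet.nullMeasurableSet, h1]
  -- product coordinates
  set E : Set (ℝ × ℝ) := {p | 0 ≤ p.1 ∧ p.1 ≤ h ∧ -(m * p.1) ≤ p.2 ∧ p.2 ≤ M * p.1} with hE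
  have hEm : MeasurableSet E := by
    apply IsClosed.measurableSet
    exact (isClosed_le continuous_const continuous_fst).inter
      ((isClosed_le continuous_fst continuous_const).inter
      ((isClosed_le (continuous_fst.const_mul m).neg continuous_snd).inter
      (isClosed_le continuous_snd (continuous_fst.const_mul M))))
  have hvol : volume (wedge 0 h m M) = volume E := by
    have h2 := Complex.volume_preserving_equiv_real_prod.symm
    rw [← h2.measure_preimage (isClosed_wedge 0 h m M).measurableSet.nullMeasurableSet]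
    congr 1
    ext p
    simp [wedge, hE, dot, Complex.measurableEquivRealProd]
  rw [hvol, Measure.volume_eq_prod, Measure.prod_apply hEm]
  have hslice : ∀ x : ℝ, volume (Prod.mk x ⁻¹' E)
      = (Icc 0 h).indicator (fun x => ENNReal.ofReal ((m + M) * x)) x := by
    intro x
    by_cases hx : x ∈ Icc 0 h
    · rw [indicator_of_mem hx]
      have : Prod.mk x ⁻¹' E = Icc (-(m * x)) (M * x) := by
        ext y
        simp only [hE, mem_preimage, mem_ofPred_eq, mem_Icc]
        exact ⟨fun h => h.2.2, fun h => ⟨hx.1, hx.2, h⟩⟩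
      rw [this, Real.volume_Icc]
      congr 1; ring
    · rw [indicator_of_notMem hx]
      have : Prod.mk x ⁻¹' E = ∅ := by
        ext y
        simp only [hE, mem_preimage, mem_ofPred_eq, mem_empty_iff_false, iff_false]
        intro h
        exact hx ⟨h.1, h.2.1⟩
      rw [this, measure_empty]
  simp_rw [hslice]
  rw [lintegral_indicator measurableSet_Icc, ← ofReal_integral_eq_lintegral_ofReal]
  · congr 1
    rw [integral_Icc_eq_integral_Ioc, ← intervalIntegral.integral_of_le hh,
      intervalIntegral.integral_const_mul, integral_id]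
    ring
  · apply Continuous.integrableOn_Icc; fun_prop
  · rw [Filter.EventuallyLE, ae_restrict_iff' measurableSet_Icc]
    apply Filter.Eventually.of_forall
    intro t ht
    simp only [Pi.zero_apply]
    exact mul_nonneg hmM ht.1

end

end Pool.Agent.MP_3737e1_gt
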