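import Mathlib
import Pool.Agent.MP_3737e1_gt.Support

namespace Pool.Agent.MP_3737e1_gt

open MeasureTheory Set Real

noncomputable section

variable {S : Set ℂ}

/-- the integrand of the polygonal area bound -/
def polyF (S : Set ℂ) (δ φ : ℝ) : ℝ :=
  supp S φ * (supp S (φ + δ) + supp S (φ - δ) - 2 * cos δ * supp S φ)

lemma supp_second (hS : IsCompact S) (hne : S.Nonempty) (δ φ : ℝ) :
    0 ≤ supp S (φ + δ) + supp S (φ - δ) - 2 * cos δ * supp S φ := by
  obtain ⟨z, hz, h⟩ := exists_dot_eq_supp hS hne φ
  have h1 := dot_le_supp hS hz (φ + δ)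
  have h2 := dot_le_supp hS hz (φ - δ)
  rw [dot_add] at h1
  rw [dot_sub] at h2
  rw [← h]
  linarith

lemma area_poly (hS : IsCompact S) (h0 : (0 : ℂ) ∈ interior S) {n : ℕ} (hn : 2 ≤ n) (θ : ℝ) :
    (volume S).toReal * (2 * sin (π / n)) ≤
      ∑ j ∈ Finset.range (2 * n), polyF S (π / n) (θ + j * (π / n)) := by
  have hne : S.Nonempty := ⟨0, interior_subset h0⟩
  have hn0 : (0 : ℝ) < n := by positivity
  set δ : ℝ := π / n with hδ
  have hδ0 : 0 < δ := by positivity
  have hδ1 : δ < π := by
    rw [hδ, div_lt_iff₀ hn0]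
    have : (2 : ℝ) ≤ n := by exact_mod_cast hn
    nlinarith [pi_pos]
  have hsin : 0 < sin δ := sin_pos_of_pos_of_lt_pi hδ0 hδ1
  have hnδ : n * δ = π := by rw [hδ]; field_simp
  have hp := supp_pos hS h0
  set φ : ℕ → ℝ := fun j => θ + j * δ with hφ
  set Mp : ℕ → ℝ := fun j => (supp S (φ j + δ) / supp S (φ j) - cos δ) / sin δ with hMp
  set mp : ℕ → ℝ := fun j => (supp S (φ j - δ) / supp S (φ j) - cos δ) / sin δ with hmp
  have hsum : ∀ j, mp j + Mp j =
      (supp S (φ j + δ) + supp S (φ j - δ) - 2 * cos δ * supp S (φ j)) /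
        (supp S (φ j) * sin δ) := by
    intro j
    have := (hp (φ j)).ne'
    have := hsin.ne'
    simp only [hMp, hmp]
    field_simp
    ring
  have hsum0 : ∀ j, 0 ≤ mp j + Mp j := by
    intro j
    rw [hsum]
    exact div_nonneg (supp_second hS hne δ (φ j)) (mul_pos (hp _) hsin).le
  have hcover : S ⊆ ⋃ j ∈ Finset.range (2 * n), wedge (φ j) (supp S (φ j)) (mp j) (Mp j) := by
    intro z hz
    obtain ⟨j, hj, hmax⟩ := Finset.exists_max_image (Finset.range (2 * n))
      (fun j => dot z (φ j) / supp S (φ j)) ⟨0, by simp; omega⟩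
    set g := dot z (φ j) / supp S (φ j) with hg
    have hgz : dot z (φ j) = g * supp S (φ j) := by
      rw [hg]; field_simp [(hp (φ j)).ne']
    have hrat : ∀ x : ℝ, (∃ k ∈ Finset.range (2 * n), dot z x = dot z (φ k) ∧
        supp S x = supp S (φ k)) → dot z x ≤ g * supp S x := by
      rintro x ⟨k, hk, h1, h2⟩
      have h3 := hmax k hk
      rw [h1, h2]
      rwa [div_le_iff₀ (hp _)] at h3
    have hg0 : 0 ≤ g := by
      have hf1 := hrat (φ 0) ⟨0, by simp; omega, rfl, rfl⟩
      have hf2 := hrat (φ n) ⟨n, by simp; omega, rfl, rfl⟩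
      have e1 : φ n = φ 0 + π := by simp only [hφ]; rw [hnδ]; simp
      have e2 : dot z (φ n) = - dot z (φ 0) := by rw [e1, dot_add_pi]
      rw [e2] at hf2
      by_contra hcon
      push Not at hcon
      have h1 : g * supp S (φ 0) < 0 := mul_neg_of_neg_of_pos hcon (hp _)
      have h2 : g * supp S (φ n) < 0 := mul_neg_of_neg_of_pos hcon (hp _)
      linarith
    have hplus : dot z (φ j + δ) ≤ g * supp S (φ j + δ) := by
      apply hrat
      rcases Nat.lt_or_ge (j + 1) (2 * n) with h | h
      · refine ⟨j + 1, by simpa using h, ?_, ?_⟩ <;>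
        · congr 1
          simp only [hφ]
          push_cast
          ring
      · have hj' : j + 1 = 2 * n := by
          have := Finset.mem_range.mp hj
          omega
        have e : φ j + δ = φ 0 + 2 * π := by
          have : (j : ℝ) + 1 = 2 * n := by exact_mod_cast hj'
          simp only [hφ]
          push_cast
          linear_combination δ * this + 2 * hnδ
        refine ⟨0, by simp; omega, ?_, ?_⟩
        · rw [e, dot_add_two_pi]
        · rw [e]; exact supp_periodic S _
    have hminus : dot z (φ j - δ) ≤ g * supp S (φ j - δ) := by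
      apply hrat
      rcases Nat.eq_zero_or_pos j with h | h
      · have e : φ (2 * n - 1) = (φ j - δ) + 2 * π := by
          simp only [hφ]
          rw [h, Nat.cast_sub (by omega)]
          push_cast
          linear_combination 2 * hnδ
        refine ⟨2 * n - 1, by simp; omega, ?_, ?_⟩
        · rw [e, dot_add_two_pi]
        · rw [e]; exact (supp_periodic S _).symm
      · refine ⟨j - 1, ?_, ?_, ?_⟩
        · have := Finset.mem_range.mp hj
          simp; omega
        all_goals
          congr 1
          simp only [hφ]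
          rw [Nat.cast_sub h]
          push_cast
          ring
    rw [mem_iUnion₂]
    refine ⟨j, hj, ?_, dot_le_supp hS hz _, ?_, ?_⟩
    · rw [hgz]; exact mul_nonneg hg0 (hp _).le
    · rw [dot_sub] at hminus
      have h1 : mp j * dot z (φ j) = (g * supp S (φ j - δ) - dot z (φ j) * cos δ) / sin δ := by
        simp only [hmp]
        rw [hgz]
        have := (hp (φ j)).ne'
        have := hsin.ne'
        field_simp
      rw [h1, neg_le, le_div_iff₀ hsin]
      linarith
    · rw [dot_add] at hplus
      have h1 : Mp j * dot z (φ j) = (g * supp S (φ j + δ) - dot z (φ j) * cos δ) / sin δ := by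
        simp only [hMp]
        rw [hgz]
        have := (hp (φ j)).ne'
        have := hsin.ne'
        field_simp
      rw [h1, le_div_iff₀ hsin]
      linarith
  have hF : ∀ j, (mp j + Mp j) * supp S (φ j) ^ 2 / 2 = polyF S δ (φ j) / (2 * sin δ) := by
    intro j
    rw [hsum]
    unfold polyF
    have := (hp (φ j)).ne'
    have := hsin.ne'
    field_simp
  have hF0 : ∀ j, 0 ≤ polyF S δ (φ j) := fun j =>
    mul_nonneg (hp _).le (supp_second hS hne δ (φ j))
  have hvol : volume S ≤ ENNReal.ofReal (∑ j ∈ Finset.range (2 * n),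
      polyF S δ (φ j) / (2 * sin δ)) := by
    calc volume S ≤ volume (⋃ j ∈ Finset.range (2 * n),
          wedge (φ j) (supp S (φ j)) (mp j) (Mp j)) := measure_mono hcover
      _ ≤ ∑ j ∈ Finset.range (2 * n), volume (wedge (φ j) (supp S (φ j)) (mp j) (Mp j)) :=
          measure_biUnion_finset_le _ _
      _ = ∑ j ∈ Finset.range (2 * n), ENNReal.ofReal (polyF S δ (φ j) / (2 * sin δ)) := by
          apply Finset.sum_congr rfl
          intro j _
          rw [volume_wedge (φ j) (hp _).le (hsum0 j), hF]
      _ = _ := by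
          rw [ENNReal.ofReal_sum_of_nonneg]
          intro j _
          exact div_nonneg (hF0 j) (by positivity)
  have hvol2 : (volume S).toReal ≤ ∑ j ∈ Finset.range (2 * n),
      polyF S δ (φ j) / (2 * sin δ) := by
    apply ENNReal.toReal_le_of_le_ofReal _ hvol
    apply Finset.sum_nonneg
    intro j _
    exact div_nonneg (hF0 j) (by positivity)
  rw [← Finset.sum_div, le_div_iff₀ (by positivity)] at hvol2
  exact hvol2

lemma area_integral (hS : IsCompact S) (h0 : (0 : ℂ) ∈ interior S) {n : ℕ} (hn : 2 ≤ n) :
    (π / n) * sin (π / n) * (volume S).toReal ≤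
      ∫ θ in (0 : ℝ)..(2 * π), (supp S θ * supp S (θ + π / n) - cos (π / n) * supp S θ ^ 2) := by
  have hn0 : (0 : ℝ) < n := by positivity
  set δ : ℝ := π / n with hδ
  have hδ0 : 0 < δ := by positivity
  have hnδ : n * δ = π := by rw [hδ]; field_simp
  have hc := continuous_supp hS
  have hFc : Continuous (polyF S δ) := by unfold polyF; fun_prop
  have h1 : ∫ θ in (0 : ℝ)..δ, (volume S).toReal * (2 * sin δ) ≤
      ∫ θ in (0 : ℝ)..δ, ∑ j ∈ Finset.range (2 * n), polyF S δ (θ + j * δ) := by
    apply intervalIntegral.integral_mono_on hδ0.le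
    · exact intervalIntegrable_const
    · apply Continuous.intervalIntegrable
      fun_prop
    · intro θ _
      exact area_poly hS h0 hn θ
  rw [intervalIntegral.integral_const] at h1
  have h2 : ∫ θ in (0 : ℝ)..δ, ∑ j ∈ Finset.range (2 * n), polyF S δ (θ + j * δ)
      = ∫ θ in (0 : ℝ)..(2 * π), polyF S δ θ := by
    rw [intervalIntegral.integral_finsetSum]
    · have h3 : ∀ j ∈ Finset.range (2 * n), ∫ θ in (0 : ℝ)..δ, polyF S δ (θ + j * δ)
          = ∫ θ in ((j : ℕ) * δ : ℝ)..((j + 1 : ℕ) * δ : ℝ), polyF S δ θ := by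
        intro j _
        rw [intervalIntegral.integral_comp_add_right]
        congr 1
        · ring
        · push_cast; ring
      rw [Finset.sum_congr rfl h3, intervalIntegral.sum_integral_adjacent_intervals
        (a := fun j : ℕ => (j : ℝ) * δ)]
      · congr 1
        · simp
        · push_cast
          linear_combination 2 * hnδ
      · intro k _
        exact hFc.intervalIntegrable _ _
    · intro j _
      apply Continuous.intervalIntegrable
      fun_prop
  have h4 : ∫ θ in (0 : ℝ)..(2 * π), polyF S δ θ
      = 2 * ∫ θ in (0 : ℝ)..(2 * π), (supp S θ * supp S (θ + δ) - cos δ * supp S θ ^ 2) := by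
    have e1 : ∫ θ in (0 : ℝ)..(2 * π), supp S θ * supp S (θ - δ)
        = ∫ θ in (0 : ℝ)..(2 * π), supp S θ * supp S (θ + δ) := by
      have e2 : ∫ θ in (0 : ℝ)..(2 * π), supp S (θ + δ) * supp S (θ + δ - δ)
          = ∫ θ in (0 : ℝ)..(2 * π), supp S θ * supp S (θ - δ) := by
        rw [intervalIntegral.integral_comp_add_right (fun x => supp S x * supp S (x - δ))]
        have hper : Function.Periodic (fun x => supp S x * supp S (x - δ)) (2 * π) := by
          intro x
          have q1 := supp_periodic S x
          have q2 := supp_periodic S (x - δ)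
          simp only
          rw [q1]
          have : x + 2 * π - δ = x - δ + 2 * π := by ring
          rw [this, q2]
        have := hper.intervalIntegral_add_eq (0 + δ) 0
        simp only [zero_add] at this ⊢
        rw [← this]
        congr 1; ring
      rw [← e2]
      apply intervalIntegral.integral_congr
      intro θ _
      simp only
      rw [add_sub_cancel_right]; ring
    have e3 : ∫ θ in (0 : ℝ)..(2 * π), polyF S δ θ
        = (∫ θ in (0 : ℝ)..(2 * π), (supp S θ * supp S (θ + δ) - cos δ * supp S θ ^ 2))
        + ((∫ θ in (0 : ℝ)..(2 * π), supp S θ * supp S (θ - δ))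
          - ∫ θ in (0 : ℝ)..(2 * π), cos δ * supp S θ ^ 2) := by
      rw [← intervalIntegral.integral_sub, ← intervalIntegral.integral_add]
      · apply intervalIntegral.integral_congr
        intro θ _
        simp only [polyF]
        ring
      all_goals
        apply Continuous.intervalIntegrable
        fun_prop
    rw [e3, e1, ← intervalIntegral.integral_sub]
    · ring
    all_goals
      apply Continuous.intervalIntegrable
      fun_prop
  rw [h2, h4] at h1
  simp only [sub_zero, smul_eq_mul] at h1
  nlinarith [h1]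

end

end Pool.Agent.MP_3737e1_gt
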