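import Mathlib
import Pool.Agent.MP_3737e1_gt.Fourier
import Pool.Agent.MP_3737e1_gt.Polygon

namespace Pool.Agent.MP_3737e1_gt

open MeasureTheory Set Real Filter Topology
open scoped ComplexConjugate

noncomputable section

/-- The integrated polygonal bound for a periodic function. -/
def AreaBound (h : ℝ → ℝ) (A : ℝ) : Prop :=
  ∀ n : ℕ, 2 ≤ n → (π / n) * sin (π / n) * A ≤
      ∫ θ in (0 : ℝ)..(2 * π), (h θ * h (θ + π / n) - cos (π / n) * h θ ^ 2)

lemma int_product (h : ℝ → ℝ) (hc : Continuous h) (hp : Function.Periodic h (2 * π)) (δ : ℝ) :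
    ∫ θ in (0 : ℝ)..(2 * π), (h θ * h (θ + δ) - cos δ * h θ ^ 2)
      = (1 - cos δ) * (∫ θ in (0 : ℝ)..(2 * π), h θ ^ 2)
        - (1 / 2) * ∫ θ in (0 : ℝ)..(2 * π), (h (θ + δ) - h θ) ^ 2 := by
  have e1 : ∫ θ in (0 : ℝ)..(2 * π), h (θ + δ) ^ 2 = ∫ θ in (0 : ℝ)..(2 * π), h θ ^ 2 := by
    rw [intervalIntegral.integral_comp_add_right (fun x => h x ^ 2)]
    have hper : Function.Periodic (fun x => h x ^ 2) (2 * π) := by
      intro x; simp only [hp x]
    have := hper.intervalIntegral_add_eq (0 + δ) 0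
    simp only [zero_add] at this ⊢
    rw [← this]
    congr 1; ring
  have e2 : ∫ θ in (0 : ℝ)..(2 * π), (h θ * h (θ + δ) - cos δ * h θ ^ 2)
      = ((∫ θ in (0 : ℝ)..(2 * π), (1 / 2 - cos δ) * h θ ^ 2)
        + ∫ θ in (0 : ℝ)..(2 * π), (1 / 2) * h (θ + δ) ^ 2)
        - ∫ θ in (0 : ℝ)..(2 * π), (1 / 2) * (h (θ + δ) - h θ) ^ 2 := by
    rw [← intervalIntegral.integral_add, ← intervalIntegral.integral_sub]
    · apply intervalIntegral.integral_congr
      intro x _
      simp only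
      ring
    all_goals
      apply Continuous.intervalIntegrable
      fun_prop
  rw [e2]
  simp only [intervalIntegral.integral_const_mul]
  rw [e1]
  ring

lemma norm_exp_sub_one_sq (x : ℝ) : ‖Complex.exp ((x : ℝ) * Complex.I) - 1‖ ^ 2 = 2 - 2 * cos x := by
  rw [← Complex.normSq_eq_norm_sq, Complex.normSq_apply]
  simp only [Complex.sub_re, Complex.sub_im, Complex.exp_ofReal_mul_I_re,
    Complex.exp_ofReal_mul_I_im, Complex.one_re, Complex.one_im, sub_zero]
  linear_combination sin_sq_add_cos_sq x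

lemma tendsto_one_sub_cos (k : ℝ) :
    Tendsto (fun n : ℕ => (1 - cos (k * (π / n))) / (π / n) ^ 2) atTop (𝓝 (k ^ 2 / 2)) := by
  have h1 : Tendsto (fun x : ℝ => (1 - cos (k * x)) / x ^ 2) (𝓝[≠] 0) (𝓝 (k ^ 2 / 2)) := by
    have h2 : Tendsto (fun x : ℝ => k ^ 2 / 2 * (sinc (k * x / 2)) ^ 2) (𝓝[≠] 0)
        (𝓝 (k ^ 2 / 2)) := by
      have hcont : Continuous (fun x : ℝ => k ^ 2 / 2 * (sinc (k * x / 2)) ^ 2) := by
        have := continuous_sinc
        fun_prop
      have h3 := hcont.tendsto 0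
      simp only [mul_zero, zero_div, sinc_zero, one_pow, mul_one] at h3
      exact h3.mono_left nhdsWithin_le_nhds
    refine h2.congr' ?_
    filter_upwards [self_mem_nhdsWithin] with x hx
    have hx' : x ≠ 0 := hx
    rcases eq_or_ne k 0 with hk | hk
    · simp [hk]
    · rw [sinc_of_ne_zero (by positivity)]
      have h4 : cos (k * x) = 1 - 2 * sin (k * x / 2) ^ 2 := by
        have := cos_sq' (k * x / 2)
        have h5 := cos_two_mul (k * x / 2)
        have h6 : 2 * (k * x / 2) = k * x := by ring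
        rw [h6] at h5
        rw [h5, this]; ring
      rw [h4]
      field_simp
      ring
  have h2 : Tendsto (fun n : ℕ => π / (n : ℝ)) atTop (𝓝[≠] 0) := by
    rw [tendsto_nhdsWithin_iff]
    refine ⟨tendsto_const_div_atTop_nhds_zero_nat π, ?_⟩
    filter_upwards [eventually_gt_atTop 0] with n hn
    have : (0 : ℝ) < n := by exact_mod_cast hn
    have : π / (n : ℝ) ≠ 0 := by positivity
    exact this
  exact h1.comp h2

lemma tendsto_sin_div : Tendsto (fun n : ℕ => (π / n) * sin (π / n) / (π / n) ^ 2) atTop (𝓝 1) := by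
  have h1 : Tendsto (fun n : ℕ => sinc (π / (n : ℝ))) atTop (𝓝 1) := by
    have h2 := (continuous_sinc.tendsto 0).comp (tendsto_const_div_atTop_nhds_zero_nat π)
    rw [sinc_zero] at h2
    exact h2
  refine h1.congr' ?_
  filter_upwards [eventually_gt_atTop 0] with n hn
  have hn' : (0 : ℝ) < n := by exact_mod_cast hn
  have : π / (n : ℝ) ≠ 0 := by positivity
  rw [sinc_of_ne_zero this]
  field_simp

/-- Fourier form of the area bound: partial sums. -/
lemma AreaBound.finset {h : ℝ → ℝ} {A : ℝ} (hA : AreaBound h A) (hc : Continuous h)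
    (hp : Function.Periodic h (2 * π)) (F : Finset ℤ) :
    A / π + ∑ k ∈ F, (k : ℝ) ^ 2 * ‖fc h k‖ ^ 2 ≤ ∑' k, ‖fc h k‖ ^ 2 := by
  have hpars := hasSum_sq_fc h hc hp
  set P := ∑' k, ‖fc h k‖ ^ 2 with hP
  have hP' : (∫ x in (0 : ℝ)..(2 * π), h x ^ 2) = 2 * π * P := by
    rw [hP, hpars.tsum_eq]
    field_simp
  have hineq : ∀ n : ℕ, 2 ≤ n → (π / n) * sin (π / n) * A + 2 * π *
      ∑ k ∈ F, (1 - cos (k * (π / n))) * ‖fc h k‖ ^ 2 ≤ (1 - cos (1 * (π / n))) * (2 * π * P) := by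
    intro n hn
    set δ := π / (n : ℝ) with hδ
    have h1 := hA n hn
    rw [← hδ, int_product h hc hp, hP'] at h1
    have hd : Continuous (fun x => h (x + δ) - h x) := by fun_prop
    have hdp : Function.Periodic (fun x => h (x + δ) - h x) (2 * π) := by
      intro x
      simp only
      rw [hp x]
      have : x + 2 * π + δ = x + δ + 2 * π := by ring
      rw [this, hp]
    have h2 := hasSum_sq_fc _ hd hdp
    have h3 : ∀ k : ℤ, ‖fc (fun x => h (x + δ) - h x) k‖ ^ 2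
        = 2 * ((1 - cos (k * δ)) * ‖fc h k‖ ^ 2) := by
      intro k
      rw [fc_sub _ _ (by fun_prop) hc, fc_shift h hp]
      have : Complex.exp ((k * δ : ℝ) * Complex.I) * fc h k - fc h k
          = (Complex.exp ((k * δ : ℝ) * Complex.I) - 1) * fc h k := by ring
      rw [this, norm_mul, mul_pow, norm_exp_sub_one_sq]
      ring
    simp_rw [h3] at h2
    have h4 := sum_le_hasSum F (fun k _ => by
      have := cos_le_one (k * δ)
      have : 0 ≤ 1 - cos (k * δ) := by linarith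
      positivity) h2
    rw [← Finset.mul_sum] at h4
    have h5 : 2 * π * (2 * ∑ i ∈ F, (1 - cos (i * δ)) * ‖fc h i‖ ^ 2)
        ≤ ∫ θ in (0 : ℝ)..(2 * π), (h (θ + δ) - h θ) ^ 2 := by
      have := mul_le_mul_of_nonneg_left h4 (by positivity : 0 ≤ 2 * π)
      rwa [mul_inv_cancel_left₀ (by positivity)] at this
    rw [one_mul]
    linarith
  -- pass to the limit
  have hL : Tendsto (fun n : ℕ => ((π / n) * sin (π / n) / (π / n) ^ 2) * A + 2 * π *
      ∑ k ∈ F, ((1 - cos (k * (π / n))) / (π / n) ^ 2) * ‖fc h k‖ ^ 2) atTop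
      (𝓝 (1 * A + 2 * π * ∑ k ∈ F, ((k : ℝ) ^ 2 / 2) * ‖fc h k‖ ^ 2)) := by
    apply (tendsto_sin_div.mul_const A).add
    apply Tendsto.const_mul
    apply tendsto_finsetSum
    intro k _
    exact (tendsto_one_sub_cos (k : ℝ)).mul_const _
  have hR : Tendsto (fun n : ℕ => ((1 - cos (1 * (π / n))) / (π / n) ^ 2) * (2 * π * P)) atTop
      (𝓝 ((1 : ℝ) ^ 2 / 2 * (2 * π * P))) := (tendsto_one_sub_cos 1).mul_const _
  have hfin := le_of_tendsto_of_tendsto hL hR (by
    filter_upwards [eventually_ge_atTop 2] with n hn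
    have h1 := hineq n hn
    have hn' : (0 : ℝ) < n := by positivity
    have hδ : 0 < (π / (n : ℝ)) ^ 2 := by positivity
    have h2 := div_le_div_of_nonneg_right h1 hδ.le
    calc _ = ((π / n) * sin (π / n) * A + 2 * π *
      ∑ k ∈ F, (1 - cos (k * (π / n))) * ‖fc h k‖ ^ 2) / (π / (n : ℝ)) ^ 2 := by
          rw [add_div, mul_div_assoc (2 * π), Finset.sum_div]
          congr 1
          · ring
          · congr 1
            apply Finset.sum_congr rfl
            intro k _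
            ring
      _ ≤ _ := h2
      _ = _ := by ring)
  have e : 2 * π * ∑ k ∈ F, ((k : ℝ) ^ 2 / 2) * ‖fc h k‖ ^ 2
      = π * ∑ k ∈ F, (k : ℝ) ^ 2 * ‖fc h k‖ ^ 2 := by
    rw [Finset.mul_sum, Finset.mul_sum]
    apply Finset.sum_congr rfl
    intro k _
    ring
  rw [e] at hfin
  have : A / π + ∑ k ∈ F, (k : ℝ) ^ 2 * ‖fc h k‖ ^ 2
      = (A + π * ∑ k ∈ F, (k : ℝ) ^ 2 * ‖fc h k‖ ^ 2) / π := by
    field_simp
  rw [this, div_le_iff₀ pi_pos]
  linarith

lemma AreaBound.summable_sq {h : ℝ → ℝ} {A : ℝ} (hA : AreaBound h A) (hc : Continuous h)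
    (hp : Function.Periodic h (2 * π)) :
    Summable (fun k : ℤ => (k : ℝ) ^ 2 * ‖fc h k‖ ^ 2) := by
  apply summable_of_sum_le (c := ∑' k, ‖fc h k‖ ^ 2 - A / π)
  · intro k; positivity
  · intro F
    have := hA.finset hc hp F
    linarith

lemma AreaBound.le {h : ℝ → ℝ} {A : ℝ} (hA : AreaBound h A) (hc : Continuous h)
    (hp : Function.Periodic h (2 * π)) :
    A / π ≤ ∑' k : ℤ, (1 - (k : ℝ) ^ 2) * ‖fc h k‖ ^ 2 := by
  have h1 := hA.summable_sq hc hp
  have h2 := (hasSum_sq_fc h hc hp).summable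
  have h3 : ∑' k : ℤ, (k : ℝ) ^ 2 * ‖fc h k‖ ^ 2 ≤ ∑' k, ‖fc h k‖ ^ 2 - A / π := by
    apply h1.tsum_le_of_sum_le
    intro F
    have := hA.finset hc hp F
    linarith
  have h4 : ∑' k : ℤ, (1 - (k : ℝ) ^ 2) * ‖fc h k‖ ^ 2
      = ∑' k, ‖fc h k‖ ^ 2 - ∑' k : ℤ, (k : ℝ) ^ 2 * ‖fc h k‖ ^ 2 := by
    rw [← h2.tsum_sub h1]
    apply tsum_congr
    intro k; ring
  rw [h4]; linarith

lemma AreaBound.summable {h : ℝ → ℝ} {A : ℝ} (hA : AreaBound h A) (hc : Continuous h)
    (hp : Function.Periodic h (2 * π)) : Summable (fun k : ℤ => ‖fc h k‖) := by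
  have h1 := hA.summable_sq hc hp
  have h2 := (hasSum_sq_fc h hc hp).summable
  have h3 : Summable (fun k : ℤ => 1 / (k : ℝ) ^ 2) := by
    have := Real.summable_one_div_int_pow (p := 2)
    exact this.mpr one_lt_two
  apply Summable.of_norm_bounded_eventually (h1.add h3)
  filter_upwards [eventually_cofinite_ne (0 : ℤ)] with k hk
  have hk' : (k : ℝ) ≠ 0 := by exact_mod_cast hk
  rw [norm_norm]
  have h4 : 0 ≤ ((k : ℝ) * ‖fc h k‖ - 1 / k) ^ 2 := sq_nonneg _
  have h5 : ((k : ℝ) * ‖fc h k‖ - 1 / k) ^ 2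
      = (k : ℝ) ^ 2 * ‖fc h k‖ ^ 2 + 1 / (k : ℝ) ^ 2 - 2 * ‖fc h k‖ := by
    field_simp
    ring
  have h6 := norm_nonneg (fc h k)
  linarith

end

end Pool.Agent.MP_3737e1_gt
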