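import Mathlib
import Pool.Agent.MP_3737e1_gt.Fourier

namespace Pool.Agent.MP_3737e1_gt

open MeasureTheory Set Real Filter Topology
open scoped ComplexConjugate

noncomputable section

local instance instTwoPiPos'' : Fact (0 < 2 * π) := Fact.mk Real.two_pi_pos

/-- Fourier coefficients of the Green kernel -/
def kap (k : ℤ) : ℝ := if k = 1 ∨ k = -1 then 1 / 4 else 1 / (1 - (k : ℝ) ^ 2)

lemma kap_zero : kap 0 = 1 := by simp [kap]

lemma kap_of_ne {k : ℤ} (h1 : k ≠ 1) (h2 : k ≠ -1) : kap k = 1 / (1 - (k : ℝ) ^ 2) := by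
  simp [kap, h1, h2]

lemma sub_ne_zero_of_ne {k : ℤ} (h1 : k ≠ 1) (h2 : k ≠ -1) : (1 : ℝ) - (k : ℝ) ^ 2 ≠ 0 := by
  have h3 : (1 : ℤ) - k ^ 2 ≠ 0 := by
    intro h
    have : (1 - k) * (1 + k) = 0 := by linear_combination h
    rcases mul_eq_zero.mp this with h | h
    · exact h1 (by omega)
    · exact h2 (by omega)
  exact_mod_cast h3

lemma summable_kap : Summable (fun k : ℤ => ‖kap k‖) := by
  have h3 : Summable (fun k : ℤ => 2 * (1 / (k : ℝ) ^ 2)) :=
    ((Real.summable_one_div_int_pow (p := 2)).mpr one_lt_two).mul_left 2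
  apply Summable.of_norm_bounded_eventually h3
  filter_upwards [eventually_cofinite_ne (0 : ℤ), eventually_cofinite_ne (1 : ℤ),
    eventually_cofinite_ne (-1 : ℤ)] with k h0 h1 h2
  rw [norm_norm, kap_of_ne h1 h2, Real.norm_eq_abs, abs_div, abs_one]
  have h4 : (2 : ℤ) ≤ |k| := by
    rcases lt_trichotomy k 0 with h | h | h
    · rw [abs_of_neg h]; omega
    · exact absurd h h0
    · rw [abs_of_pos h]; omega
  have h5 : (2 : ℝ) ≤ |(k : ℝ)| := by exact_mod_cast h4
  have h6 : (4 : ℝ) ≤ (k : ℝ) ^ 2 := by rw [← sq_abs]; nlinarith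
  have h7 : |1 - (k : ℝ) ^ 2| = (k : ℝ) ^ 2 - 1 := by
    rw [abs_of_nonpos (by linarith)]; ring
  rw [h7]
  rw [div_le_iff₀ (by linarith)]
  rw [mul_one_div, div_mul_eq_mul_div, le_div_iff₀ (by linarith)]
  linarith

lemma int_J (m : ℤ) : ∫ x in (0 : ℝ)..(2 * π),
    ((π - x : ℝ) : ℂ) * Complex.exp ((m * x : ℝ) * Complex.I)
      = if m = 0 then 0 else 2 * π * Complex.I / m := by
  split_ifs with hm
  · subst hm
    simp only [Int.cast_zero, zero_mul, Complex.ofReal_zero, Complex.exp_zero, mul_one]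
    rw [intervalIntegral.integral_ofReal, intervalIntegral.integral_sub
      (by simp) (Continuous.intervalIntegrable (by fun_prop) _ _)]
    simp
    ring
  · have hm' : (m : ℂ) ≠ 0 := by exact_mod_cast hm
    have hd : ∀ x ∈ uIcc (0 : ℝ) (2 * π), HasDerivAt
        (fun x : ℝ => ((π - x : ℝ) : ℂ) * (Complex.exp ((m * x : ℝ) * Complex.I) / (m * Complex.I))
          + Complex.exp ((m * x : ℝ) * Complex.I) / (m * Complex.I) ^ 2)
        (((π - x : ℝ) : ℂ) * Complex.exp ((m * x : ℝ) * Complex.I)) x := by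
      intro x _
      have h1 : HasDerivAt (fun x : ℝ => ((m * x : ℝ) : ℂ) * Complex.I) ((m : ℂ) * Complex.I) x := by
        have h0 : HasDerivAt (fun x : ℝ => (m : ℝ) * x) ((m : ℝ) * 1) x :=
          (hasDerivAt_id x).const_mul _
        have := h0.ofReal_comp.mul_const Complex.I
        refine this.congr_deriv ?_
        push_cast; ring
      have h2 := h1.cexp
      have h3 : HasDerivAt (fun x : ℝ => ((π - x : ℝ) : ℂ)) (-1) x := by
        have h0 : HasDerivAt (fun x : ℝ => π - x) (-1) x := (hasDerivAt_id x).const_sub π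
        have := h0.ofReal_comp
        refine this.congr_deriv ?_
        push_cast; ring
      have h4 := (h3.mul (h2.div_const ((m : ℂ) * Complex.I))).add
        (h2.div_const (((m : ℂ) * Complex.I) ^ 2))
      refine h4.congr_deriv ?_
      have hI := Complex.I_ne_zero
      field_simp
      ring
    rw [intervalIntegral.integral_eq_sub_of_hasDerivAt hd]
    · have e1 : Complex.exp ((m * (2 * π) : ℝ) * Complex.I) = 1 := by
        have : ((m * (2 * π) : ℝ) : ℂ) * Complex.I = m * (2 * π * Complex.I) := by push_cast; ring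
        rw [this]; exact Complex.exp_int_mul_two_pi_mul_I m
      rw [e1]
      simp only [mul_zero, Complex.ofReal_zero, zero_mul, Complex.exp_zero, sub_zero]
      have hI := Complex.I_ne_zero
      push_cast
      field_simp
      linear_combination (-2 * π * m * Complex.I : ℂ) * Complex.I_sq
    · apply Continuous.intervalIntegrable
      fun_prop

lemma int_kap (k : ℤ) : ∫ x in (0 : ℝ)..(2 * π),
    Complex.exp (-(k * x : ℝ) * Complex.I) * (((π - x) * sin x : ℝ) : ℂ) = 2 * π * kap k := by
  have e : ∀ x : ℝ, Complex.exp (-(k * x : ℝ) * Complex.I) * (((π - x) * sin x : ℝ) : ℂ)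
      = (Complex.I / 2) * (((π - x : ℝ) : ℂ) * Complex.exp (((-(k + 1) : ℤ) * x : ℝ) * Complex.I))
      - (Complex.I / 2) * (((π - x : ℝ) : ℂ) * Complex.exp (((-(k - 1) : ℤ) * x : ℝ) * Complex.I)) := by
    intro x
    have h1 : Complex.exp (((-(k + 1) : ℤ) * x : ℝ) * Complex.I)
        = Complex.exp (-(k * x : ℝ) * Complex.I) * Complex.exp (-(x : ℂ) * Complex.I) := by
      rw [← Complex.exp_add]; congr 1; push_cast; ring
    have h2 : Complex.exp (((-(k - 1) : ℤ) * x : ℝ) * Complex.I)
        = Complex.exp (-(k * x : ℝ) * Complex.I) * Complex.exp ((x : ℂ) * Complex.I) := by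
      rw [← Complex.exp_add]; congr 1; push_cast; ring
    rw [h1, h2]
    push_cast
    rw [Complex.sin]
    ring
  simp_rw [e]
  rw [intervalIntegral.integral_sub, intervalIntegral.integral_const_mul,
    intervalIntegral.integral_const_mul, int_J, int_J]
  · by_cases h1 : k = 1
    · subst h1
      simp [kap]
      ring_nf
      rw [Complex.I_sq]; ring
    · by_cases h2 : k = -1
      · subst h2
        simp [kap]
        ring_nf
        rw [Complex.I_sq]; ring
      · rw [kap_of_ne h1 h2]
        have h3 : ¬ (-(k + 1) = 0) := by omega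
        have h4 : ¬ (-(k - 1) = 0) := by omega
        rw [if_neg h3, if_neg h4]
        have h5 : ((k : ℂ) + 1) ≠ 0 := by
          intro h; apply h2
          have : ((k + 1 : ℤ) : ℂ) = 0 := by push_cast; exact h
          have : k + 1 = 0 := by exact_mod_cast this
          omega
        have h6 : ((k : ℂ) - 1) ≠ 0 := by
          intro h; apply h1
          have : ((k - 1 : ℤ) : ℂ) = 0 := by push_cast; exact h
          have : k - 1 = 0 := by exact_mod_cast this
          omega
        have h7 : ((1 : ℂ) - (k : ℂ) ^ 2) ≠ 0 := by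
          have : (1 : ℂ) - (k : ℂ) ^ 2 = -(((k : ℂ) + 1) * ((k : ℂ) - 1)) := by ring
          rw [this]; exact neg_ne_zero.mpr (mul_ne_zero h5 h6)
        push_cast
        have h8 : -((k : ℂ) + 1) ≠ 0 := neg_ne_zero.mpr h5
        have h9 : -((k : ℂ) - 1) ≠ 0 := neg_ne_zero.mpr h6
        rw [div_mul_div_comm, div_mul_div_comm, div_sub_div _ _ (mul_ne_zero two_ne_zero h8)
          (mul_ne_zero two_ne_zero h9), mul_one_div, div_eq_div_iff
          (mul_ne_zero (mul_ne_zero two_ne_zero h8) (mul_ne_zero two_ne_zero h9)) h7]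
        ring_nf
        rw [Complex.I_sq]; ring
  all_goals
    apply Continuous.intervalIntegrable
    fun_prop

/-- the Green kernel as a continuous function on the circle -/
def greenFun : C(AddCircle (2 * π), ℂ) where
  toFun := AddCircle.liftIco (2 * π) 0 (fun x : ℝ => (((π - x) * sin x : ℝ) : ℂ))
  continuous_toFun := by
    apply AddCircle.liftIco_zero_continuous
    · simp
    · apply Continuous.continuousOn; fun_prop

lemma greenFun_coe {x : ℝ} (hx : x ∈ Ico 0 (2 * π)) :
    greenFun (x : AddCircle (2 * π)) = (((π - x) * sin x : ℝ) : ℂ) :=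
  AddCircle.liftIco_zero_coe_apply (f := fun x : ℝ => (((π - x) * sin x : ℝ) : ℂ)) hx

lemma fourierCoeff_green (k : ℤ) : fourierCoeff greenFun k = (kap k : ℂ) := by
  rw [fourierCoeff_eq_intervalIntegral _ k 0, zero_add, Complex.real_smul]
  have h1 : ∫ x in (0 : ℝ)..(2 * π), fourier (-k) (x : AddCircle (2 * π)) •
      greenFun (x : AddCircle (2 * π))
      = ∫ x in (0 : ℝ)..(2 * π),
    Complex.exp (-(k * x : ℝ) * Complex.I) * (((π - x) * sin x : ℝ) : ℂ) := by
    apply intervalIntegral.integral_congr_Ioo_of_le (by positivity)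
    intro x hx
    simp only
    rw [greenFun_coe (Ioo_subset_Ico_self hx), fourier_two_pi, smul_eq_mul]
    congr 2
    push_cast
    ring
  rw [h1, int_kap]
  have : (π : ℂ) ≠ 0 := by exact_mod_cast pi_ne_zero
  push_cast
  field_simp

lemma green_hasSum_of_nonneg {x : ℝ} (h0 : 0 ≤ x) (h1 : x ≤ 2 * π) :
    HasSum (fun k : ℤ => (kap k : ℂ) * Complex.exp ((k * x : ℝ) * Complex.I))
      ((π * sin x - x * sin x : ℝ) : ℂ) := by
  have hs : Summable (fourierCoeff greenFun) := by
    have : fourierCoeff greenFun = fun k => (kap k : ℂ) := by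
      funext k; exact fourierCoeff_green k
    rw [this]
    apply Summable.of_norm
    simpa using summable_kap
  have h2 := has_pointwise_sum_fourier_series_of_summable hs (x : AddCircle (2 * π))
  have h3 : greenFun (x : AddCircle (2 * π)) = ((π * sin x - x * sin x : ℝ) : ℂ) := by
    rcases h1.lt_or_eq with h | h
    · rw [greenFun_coe ⟨h0, h⟩]; congr 1; ring
    · have : (x : AddCircle (2 * π)) = ((0 : ℝ) : AddCircle (2 * π)) := by
        rw [h, AddCircle.coe_period]; simp
      rw [this, greenFun_coe ⟨le_rfl, by positivity⟩, h]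
      simp
  rw [h3] at h2
  refine h2.congr_fun ?_
  intro k
  rw [fourierCoeff_green, fourier_two_pi, smul_eq_mul]

lemma kap_neg (k : ℤ) : kap (-k) = kap k := by
  unfold kap
  have : (-k = 1 ∨ -k = -1) ↔ (k = 1 ∨ k = -1) := by omega
  simp only [this]
  split_ifs
  · rfl
  · push_cast; ring

/-- The Green kernel. -/
lemma green_hasSum {x : ℝ} (hx : |x| ≤ 2 * π) :
    HasSum (fun k : ℤ => (kap k : ℂ) * Complex.exp ((k * x : ℝ) * Complex.I))
      ((π * sin |x| - x * sin x : ℝ) : ℂ) := by
  rcases le_total 0 x with h | h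
  · rw [abs_of_nonneg h] at hx ⊢
    exact green_hasSum_of_nonneg h hx
  · rw [abs_of_nonpos h] at hx ⊢
    have h1 := green_hasSum_of_nonneg (x := -x) (by linarith) hx
    have h2 := (Equiv.neg ℤ).hasSum_iff.mpr h1
    have e : ((π * sin (-x) - x * sin x : ℝ) : ℂ) = ((π * sin (-x) - -x * sin (-x) : ℝ) : ℂ) := by
      congr 1; rw [sin_neg]; ring
    rw [e]
    refine h2.congr_fun ?_
    intro k
    simp only [Function.comp, Equiv.neg_apply]
    rw [kap_neg]
    congr 2
    push_cast
    ring

/-- exponential sum attached to a right triangle -/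
def ee (k : ℤ) (s t : ℝ) : ℂ :=
  (sin s : ℂ) * Complex.exp ((k * t : ℝ) * Complex.I)
    + (cos s : ℂ) * Complex.exp ((k * (t + π / 2) : ℝ) * Complex.I)
    + Complex.exp ((k * (3 * π / 2 + t - s) : ℝ) * Complex.I)

/-- four times the mixed area of two rotated right triangles -/
def W (s s' η : ℝ) : ℝ := cos (s' - s) * sin |η| + sin (s + s') * cos η + sin |s' - s - η|

lemma ee_mul_conj (k : ℤ) (s t s' t' : ℝ) : ee k s t * conj (ee k s' t') =
    (sin s * sin s' : ℝ) * Complex.exp ((k * (t - t') : ℝ) * Complex.I)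
    + (sin s * cos s' : ℝ) * Complex.exp ((k * (t - t' - π / 2) : ℝ) * Complex.I)
    + (sin s : ℝ) * Complex.exp ((k * (t - t' + s' - 3 * π / 2) : ℝ) * Complex.I)
    + (cos s * sin s' : ℝ) * Complex.exp ((k * (t - t' + π / 2) : ℝ) * Complex.I)
    + (cos s * cos s' : ℝ) * Complex.exp ((k * (t - t') : ℝ) * Complex.I)
    + (cos s : ℝ) * Complex.exp ((k * (t - t' + s' - π) : ℝ) * Complex.I)
    + (sin s' : ℝ) * Complex.exp ((k * (3 * π / 2 + (t - t') - s) : ℝ) * Complex.I)
    + (cos s' : ℝ) * Complex.exp ((k * (π + (t - t') - s) : ℝ) * Complex.I)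
    + Complex.exp ((k * (t - t' + s' - s) : ℝ) * Complex.I) := by
  have hconj : ∀ y : ℝ, conj (Complex.exp ((y : ℝ) * Complex.I)) = Complex.exp ((-y : ℝ) * Complex.I) := by
    intro y
    rw [← Complex.exp_conj, map_mul, Complex.conj_I, Complex.conj_ofReal]
    congr 1; push_cast; ring
  unfold ee
  simp only [map_add, map_mul, hconj, Complex.conj_ofReal]
  have hm : ∀ y z w : ℝ, w = y + z → Complex.exp ((w : ℝ) * Complex.I)
      = Complex.exp ((y : ℝ) * Complex.I) * Complex.exp ((z : ℝ) * Complex.I) := by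
    intro y z w h
    rw [← Complex.exp_add, h]; congr 1; push_cast; ring
  rw [hm (k * t) (-(k * t')) (k * (t - t')) (by ring),
    hm (k * t) (-(k * (t' + π / 2))) (k * (t - t' - π / 2)) (by ring),
    hm (k * t) (-(k * (3 * π / 2 + t' - s'))) (k * (t - t' + s' - 3 * π / 2)) (by ring),
    hm (k * (t + π / 2)) (-(k * t')) (k * (t - t' + π / 2)) (by ring),
    hm (k * (t + π / 2)) (-(k * (3 * π / 2 + t' - s'))) (k * (t - t' + s' - π)) (by ring),
    hm (k * (3 * π / 2 + t - s)) (-(k * t')) (k * (3 * π / 2 + (t - t') - s)) (by ring),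
    hm (k * (3 * π / 2 + t - s)) (-(k * (t' + π / 2))) (k * (π + (t - t') - s)) (by ring),
    hm (k * (3 * π / 2 + t - s)) (-(k * (3 * π / 2 + t' - s'))) (k * (t - t' + s' - s)) (by ring)]
  have h22 : Complex.exp ((k * t : ℝ) * Complex.I) * Complex.exp ((-(k * t') : ℝ) * Complex.I)
      = Complex.exp ((k * (t + π / 2) : ℝ) * Complex.I)
        * Complex.exp ((-(k * (t' + π / 2)) : ℝ) * Complex.I) := by
    rw [← Complex.exp_add, ← Complex.exp_add]; congr 1; push_cast; ring
  push_cast at h22 ⊢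
  linear_combination (-(Complex.cos s * Complex.cos s' : ℂ)) * h22

lemma W_hasSum {s s' t t' : ℝ} (hs : s ∈ Icc 0 (π / 2)) (hs' : s' ∈ Icc 0 (π / 2))
    (ht : |t' - t| ≤ π / 2) :
    HasSum (fun k : ℤ => (kap k : ℂ) * (ee k s t * conj (ee k s' t')))
      ((π * W s s' (t' - t) : ℝ) : ℂ) := by
  obtain ⟨hu1, hu2⟩ := abs_le.mp ht
  set u := t - t' with hu
  have hπ := pi_pos
  have hs0 := hs.1
  have hs1 := hs.2
  have hs0' := hs'.1
  have hs1' := hs'.2
  have hb : ∀ y : ℝ, -(2 * π) ≤ y → y ≤ 2 * π → |y| ≤ 2 * π := fun y h1 h2 => abs_le.mpr ⟨h1, h2⟩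
  have g1 := (green_hasSum (x := u) (hb _ (by linarith) (by linarith))).mul_left
    ((sin s * sin s' : ℝ) : ℂ)
  have g2 := (green_hasSum (x := u - π / 2) (hb _ (by linarith) (by linarith))).mul_left
    ((sin s * cos s' : ℝ) : ℂ)
  have g3 := (green_hasSum (x := u + s' - 3 * π / 2) (hb _ (by linarith) (by linarith))).mul_left
    ((sin s : ℝ) : ℂ)
  have g4 := (green_hasSum (x := u + π / 2) (hb _ (by linarith) (by linarith))).mul_left
    ((cos s * sin s' : ℝ) : ℂ)
  have g5 := (green_hasSum (x := u) (hb _ (by linarith) (by linarith))).mul_left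
    ((cos s * cos s' : ℝ) : ℂ)
  have g6 := (green_hasSum (x := u + s' - π) (hb _ (by linarith) (by linarith))).mul_left
    ((cos s : ℝ) : ℂ)
  have g7 := (green_hasSum (x := 3 * π / 2 + u - s) (hb _ (by linarith) (by linarith))).mul_left
    ((sin s' : ℝ) : ℂ)
  have g8 := (green_hasSum (x := π + u - s) (hb _ (by linarith) (by linarith))).mul_left
    ((cos s' : ℝ) : ℂ)
  have g9 := (green_hasSum (x := u + s' - s) (hb _ (by linarith) (by linarith)))
  have g := (((((((g1.add g2).add g3).add g4).add g5).add g6).add g7).add g8).add g9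
  have hval : ((π * W s s' (t' - t) : ℝ) : ℂ) =
      (sin s * sin s' : ℝ) * ((π * sin |u| - u * sin u : ℝ) : ℂ)
      + (sin s * cos s' : ℝ) * ((π * sin |u - π / 2| - (u - π / 2) * sin (u - π / 2) : ℝ) : ℂ)
      + (sin s : ℝ) * ((π * sin |u + s' - 3 * π / 2|
          - (u + s' - 3 * π / 2) * sin (u + s' - 3 * π / 2) : ℝ) : ℂ)
      + (cos s * sin s' : ℝ) * ((π * sin |u + π / 2| - (u + π / 2) * sin (u + π / 2) : ℝ) : ℂ)
      + (cos s * cos s' : ℝ) * ((π * sin |u| - u * sin u : ℝ) : ℂ)
      + (cos s : ℝ) * ((π * sin |u + s' - π| - (u + s' - π) * sin (u + s' - π) : ℝ) : ℂ)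
      + (sin s' : ℝ) * ((π * sin |3 * π / 2 + u - s|
          - (3 * π / 2 + u - s) * sin (3 * π / 2 + u - s) : ℝ) : ℂ)
      + (cos s' : ℝ) * ((π * sin |π + u - s| - (π + u - s) * sin (π + u - s) : ℝ) : ℂ)
      + ((π * sin |u + s' - s| - (u + s' - s) * sin (u + s' - s) : ℝ) : ℂ) := by
    have a1 : |u - π / 2| = π / 2 - u := by rw [abs_of_nonpos (by linarith)]; ring
    have a2 : |u + s' - 3 * π / 2| = 3 * π / 2 - (u + s') := by
      rw [abs_of_nonpos (by linarith)]; ring
    have a3 : |u + π / 2| = u + π / 2 := abs_of_nonneg (by linarith)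
    have a4 : |u + s' - π| = π - (u + s') := by rw [abs_of_nonpos (by linarith)]; ring
    have a5 : |3 * π / 2 + u - s| = 3 * π / 2 + (u - s) := by
      rw [abs_of_nonneg (by linarith)]; ring
    have a6 : |π + u - s| = π + (u - s) := by rw [abs_of_nonneg (by linarith)]; ring
    have a7 : |t' - t| = |u| := by rw [hu, abs_sub_comm]
    have a8 : |s' - s - (t' - t)| = |u + s' - s| := by
      congr 1; rw [hu]; ring
    have c1 : cos (t' - t) = cos u := by rw [hu, ← cos_neg]; congr 1; ring
    have t32 : (3 * π / 2 : ℝ) = π + π / 2 := by ring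
    have b1 : sin (π / 2 - u) = cos u := sin_pi_div_two_sub u
    have b2 : sin (3 * π / 2 - (u + s')) = -cos (u + s') := by
      have : 3 * π / 2 - (u + s') = (π / 2 - (u + s')) + π := by ring
      rw [this, sin_add_pi, sin_pi_div_two_sub]
    have b3 : sin (u + π / 2) = cos u := sin_add_pi_div_two u
    have b4 : sin (π - (u + s')) = sin (u + s') := sin_pi_sub _
    have b5 : sin (3 * π / 2 + (u - s)) = - cos (u - s) := by
      have : 3 * π / 2 + (u - s) = ((u - s) + π / 2) + π := by ring
      rw [this, sin_add_pi, sin_add_pi_div_two]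
    have b6 : sin (π + (u - s)) = - sin (u - s) := by rw [add_comm, sin_add_pi]
    have d1 : sin (u - π / 2) = - cos u := sin_sub_pi_div_two u
    have d2 : sin (u + s' - 3 * π / 2) = cos (u + s') := by
      have : u + s' - 3 * π / 2 = -(3 * π / 2 - (u + s')) := by ring
      rw [this, sin_neg, b2]; ring
    have d4 : sin (u + s' - π) = - sin (u + s') := sin_sub_pi _
    have d5 : sin (3 * π / 2 + u - s) = - cos (u - s) := by
      rw [add_sub_assoc, b5]
    have d6 : sin (π + u - s) = - sin (u - s) := by rw [add_sub_assoc, b6]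
    unfold W
    rw [a1, a2, a3, a4, a5, a6, a7, a8, c1, b1, b2, b3, b4, b5, b6, d1, d2, d4, d5, d6]
    have f1 : sin (u + s' - s) = sin (u + s') * cos s - cos (u + s') * sin s := by
      rw [sin_sub]
    have f2 : sin (u + s') = sin u * cos s' + cos u * sin s' := sin_add _ _
    have f3 : cos (u + s') = cos u * cos s' - sin u * sin s' := cos_add _ _
    have f4 : sin (u - s) = sin u * cos s - cos u * sin s := sin_sub _ _
    have f5 : cos (u - s) = cos u * cos s + sin u * sin s := cos_sub _ _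
    have f6 : cos (s' - s) = cos s' * cos s + sin s' * sin s := cos_sub _ _
    have f7 : sin (s + s') = sin s * cos s' + cos s * sin s' := sin_add _ _
    rw [f1, f2, f3, f4, f5, f6, f7]
    rw [← Complex.ofReal_mul, ← Complex.ofReal_mul, ← Complex.ofReal_mul, ← Complex.ofReal_mul,
      ← Complex.ofReal_mul, ← Complex.ofReal_mul, ← Complex.ofReal_mul, ← Complex.ofReal_mul]
    simp only [← Complex.ofReal_add]
    congr 1
    ring
  rw [hval]
  refine g.congr_fun ?_
  intro k
  rw [ee_mul_conj, ← hu]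
  ring

end

end Pool.Agent.MP_3737e1_gt
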