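import Mathlib
import Pool.Agent.MP_3737e1_gt.Kernel
import Pool.Agent.MP_3737e1_gt.Curve

namespace Pool.Agent.MP_3737e1_gt

open MeasureTheory Set Real Filter Topology

noncomputable section

/-- basic inequality with strictness, for `d = s' - s ≥ 0` -/
lemma pair_aux {s s' η : ℝ} (hs : s ∈ Ioo 0 (π / 2)) (hs' : s' ∈ Ioo 0 (π / 2)) (hss : s ≤ s')
    (hη : |η| ≤ π / 2) (hne : η ≠ s' - s) : kern0 s s' < W s s' η := by
  obtain ⟨hη1, hη2⟩ := abs_le.mp hη
  have hπ := pi_pos
  obtain ⟨hs0, hs1⟩ := hs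
  obtain ⟨hs0', hs1'⟩ := hs'
  unfold kern0 W
  set d := s' - s with hd
  have hd0 : 0 ≤ d := by linarith
  have hd1 : d < π / 2 := by linarith
  rw [abs_of_nonneg hd0]
  set qq := sin (s + s') with hq
  have hq0 : 0 < qq := sin_pos_of_pos_of_lt_pi (by linarith) (by linarith)
  have hq1 : qq ≤ 1 := sin_le_one _
  have hsd0 : 0 ≤ sin d := sin_nonneg_of_nonneg_of_le_pi hd0 (by linarith)
  have hcd : 0 < cos d := cos_pos_of_mem_Ioo ⟨by linarith, hd1⟩
  have hsd1 : sin d < 1 := by
    have := sin_sq_add_cos_sq d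
    nlinarith [sin_le_one d]
  have hqd : sin d ≤ qq := by
    have h1 : qq - sin d = 2 * (sin s * cos s') := by
      rw [hq, hd, sin_add, sin_sub]; ring
    have h2 : 0 ≤ sin s := sin_nonneg_of_nonneg_of_le_pi hs0.le (by linarith)
    have h3 : 0 ≤ cos s' := cos_nonneg_of_mem_Icc ⟨by linarith, hs1'.le⟩
    have : 0 ≤ sin s * cos s' := mul_nonneg h2 h3
    linarith
  rcases le_or_gt d η with h | h
  · -- η > d
    have hlt : d < η := lt_of_le_of_ne h (Ne.symm hne)
    have hη0 : 0 ≤ η := by linarith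
    rw [abs_of_nonneg hη0, abs_of_nonpos (by linarith : d - η ≤ 0)]
    set x := η - d with hx
    have hx0 : 0 < x := by linarith
    have hx1 : x ≤ π / 2 := by linarith
    have e1 : η = d + x := by linarith
    have hsx : 0 < sin x := sin_pos_of_pos_of_lt_pi hx0 (by linarith)
    have hcη : 0 ≤ cos η := cos_nonneg_of_mem_Icc ⟨by linarith, hη2⟩
    have key : cos d * sin η + qq * cos η + sin (-(d - η)) - cos d * (sin d + qq)
        = sin x * (2 - sin d - qq) + (sin d + qq) * (sin x * (1 - sin η) + cos η * (1 - cos x)) := by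
      have e2 : -(d - η) = x := by rw [hx]; ring
      rw [e2, e1, sin_add, cos_add]
      have q1 := sin_sq_add_cos_sq d
      have q2 := sin_sq_add_cos_sq x
      linear_combination (sin x) * q1 + (sin d + qq) * cos d * q2
    have h2 : 0 ≤ sin x * (1 - sin η) := mul_nonneg hsx.le (by linarith [sin_le_one η])
    have h3 : 0 ≤ cos η * (1 - cos x) := mul_nonneg hcη (by linarith [cos_le_one x])
    have h4 : 0 < sin x * (2 - sin d - qq) := mul_pos hsx (by linarith)
    have h5 : 0 ≤ (sin d + qq) * (sin x * (1 - sin η) + cos η * (1 - cos x)) := by positivity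
    linarith
  · rw [abs_of_nonneg (by linarith : 0 ≤ d - η), sin_sub d η]
    rcases le_or_gt 0 η with h0 | h0
    · rw [abs_of_nonneg h0]
      have h1 : cos d < cos η := cos_lt_cos_of_nonneg_of_le_pi_div_two h0 hd1.le h
      have : (sin d + qq) * cos d < (sin d + qq) * cos η := by gcongr
      linarith
    · rw [abs_of_neg h0]
      obtain ⟨y, hy⟩ : ∃ y, y = -η := ⟨_, rfl⟩
      have e1 : η = -y := by rw [hy]; ring
      have e2 : cos η = cos y := by rw [e1, cos_neg]
      have e3 : sin η = - sin y := by rw [e1, sin_neg]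
      rw [← hy, e2, e3]
      have hy0 : 0 < y := by linarith
      have hy1 : y ≤ π / 2 := by linarith
      have hsy : 0 < sin y := sin_pos_of_pos_of_lt_pi hy0 (by linarith)
      have hcy : 0 ≤ cos y := cos_nonneg_of_mem_Icc ⟨by linarith, hy1⟩
      have h2 : 1 ≤ sin y + cos y := one_le_sin_add_cos hy0.le hy1
      have key : cos d * sin y + qq * cos y + (sin d * cos y - cos d * -sin y)
          - cos d * (sin d + qq)
          = (2 - qq - sin d) * (cos d * sin y)
            + (qq + sin d) * (cos y * (1 - cos d) + cos d * (sin y + cos y - 1)) := by ring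
      have h3 : 0 < (2 - qq - sin d) * (cos d * sin y) := by
        apply mul_pos (by linarith) (mul_pos hcd hsy)
      have h4 : 0 ≤ cos y * (1 - cos d) := mul_nonneg hcy (by linarith [cos_le_one d])
      have h5 : 0 ≤ cos d * (sin y + cos y - 1) := mul_nonneg hcd.le (by linarith)
      have h6 : 0 ≤ (qq + sin d) * (cos y * (1 - cos d) + cos d * (sin y + cos y - 1)) := by
        positivity
      linarith

lemma W_symm (s s' η : ℝ) : W s s' η = W s' s (-η) := by
  unfold W
  rw [abs_neg, cos_neg, add_comm s' s]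
  have h1 : cos (s - s') = cos (s' - s) := by rw [← cos_neg]; congr 1; ring
  have h2 : |s - s' - -η| = |s' - s - η| := by rw [← abs_neg]; congr 1; ring
  rw [h1, h2]

lemma kern0_symm (s s' : ℝ) : kern0 s s' = kern0 s' s := by
  unfold kern0
  rw [add_comm s' s]
  have h1 : cos (s - s') = cos (s' - s) := by rw [← cos_neg]; congr 1; ring
  have h2 : |s - s'| = |s' - s| := abs_sub_comm _ _
  rw [h1, h2]

lemma W_self (s s' : ℝ) :
    W s s' (s' - s) = kern0 s s' := by
  unfold W kern0
  rw [sub_self, abs_zero, sin_zero]; ring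

lemma kern0_lt_W {s s' η : ℝ} (hs : s ∈ Ioo 0 (π / 2)) (hs' : s' ∈ Ioo 0 (π / 2))
    (hη : |η| ≤ π / 2) (hne : η ≠ s' - s) : kern0 s s' < W s s' η := by
  rcases le_total s s' with h | h
  · exact pair_aux hs hs' h hη hne
  · rw [W_symm, kern0_symm]
    exact pair_aux hs' hs h (by rwa [abs_neg]) (by intro h2; apply hne; linarith)

lemma kern0_le_W {s s' η : ℝ} (hs : s ∈ Ioo 0 (π / 2)) (hs' : s' ∈ Ioo 0 (π / 2))
    (hη : |η| ≤ π / 2) : kern0 s s' ≤ W s s' η := by
  by_cases h : η = s' - s
  · rw [h, W_self s s']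
  · exact (kern0_lt_W hs hs' hη h).le

end

end Pool.Agent.MP_3737e1_gt
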