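import Mathlib
import Pool.Agent.MP_3737e1_gt.Pairwise
import Pool.Agent.MP_3737e1_gt.FourierArea
import Pool.Agent.MP_3737e1_gt.Sofa

namespace Pool.Agent.MP_3737e1_gt

open MeasureTheory Set Real Filter Topology
open scoped ComplexConjugate

noncomputable section

variable {τ a : ℝ}

/-- the parameter measure -/
def nu (τ : ℝ) : Measure ℝ := volume.restrict (Icc τ (π / 2 - τ))

instance (τ : ℝ) : IsFiniteMeasure (nu τ) := by
  unfold nu
  infer_instance

/-- Fourier coefficients of the surface measure of the averaged triangle -/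
def cc (τ a : ℝ) (t : ℝ → ℝ) (k : ℤ) : ℂ := ∫ s, (rho a s : ℂ) * ee k s (t s) ∂(nu τ)

lemma norm_exp_I (x : ℝ) : ‖Complex.exp ((x : ℝ) * Complex.I)‖ = 1 := Complex.norm_exp_ofReal_mul_I x

lemma norm_ee_le (k : ℤ) (s t : ℝ) : ‖ee k s t‖ ≤ 3 := by
  unfold ee
  have h1 : ‖(sin s : ℂ)‖ ≤ 1 := by
    rw [Complex.norm_real, Real.norm_eq_abs]; exact abs_sin_le_one s
  have h2 : ‖(cos s : ℂ)‖ ≤ 1 := by
    rw [Complex.norm_real, Real.norm_eq_abs]; exact abs_cos_le_one s
  calc _ ≤ ‖(sin s : ℂ) * Complex.exp ((k * t : ℝ) * Complex.I)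
        + (cos s : ℂ) * Complex.exp ((k * (t + π / 2) : ℝ) * Complex.I)‖
        + ‖Complex.exp ((k * (3 * π / 2 + t - s) : ℝ) * Complex.I)‖ := norm_add_le _ _
    _ ≤ ‖(sin s : ℂ) * Complex.exp ((k * t : ℝ) * Complex.I)‖
        + ‖(cos s : ℂ) * Complex.exp ((k * (t + π / 2) : ℝ) * Complex.I)‖
        + ‖Complex.exp ((k * (3 * π / 2 + t - s) : ℝ) * Complex.I)‖ := by
          gcongr; exact norm_add_le _ _
    _ ≤ 1 + 1 + 1 := by
          rw [norm_mul, norm_mul, norm_exp_I, norm_exp_I, norm_exp_I, mul_one, mul_one]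
          gcongr
    _ = 3 := by norm_num

lemma continuous_ee (k : ℤ) : Continuous (fun p : ℝ × ℝ => ee k p.1 p.2) := by
  unfold ee
  fun_prop

lemma abs_rho_le (P : Params τ a) (s : ℝ) : |rho a s| ≤ 8 := by
  unfold rho
  have h1 := P.a_pos
  have h2 := P.a_lt_one
  have h3 := sin_le_one s
  have h4 := neg_one_le_sin s
  have h5 := cos_le_one s
  have h6 := neg_one_le_cos s
  rw [abs_le]
  constructor <;> linarith

lemma aesm_gk {t : ℝ → ℝ} (ht : Measurable t) (a : ℝ) (k : ℤ) :
    Measurable (fun s => (rho a s : ℂ) * ee k s (t s)) := by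
  have h0 : Measurable (fun s : ℝ => (s, t s)) := measurable_id.prodMk ht
  have h1 : Measurable (fun s => ee k s (t s)) :=
    Measurable.comp (g := fun p : ℝ × ℝ => ee k p.1 p.2) (f := fun s : ℝ => (s, t s))
      (continuous_ee k).measurable h0
  have h2 : Measurable (fun s => (rho a s : ℂ)) :=
    (Complex.continuous_ofReal.comp (continuous_rho a)).measurable
  exact h2.mul h1

lemma norm_gk_le (P : Params τ a) (t : ℝ → ℝ) (k : ℤ) (s : ℝ) :
    ‖(rho a s : ℂ) * ee k s (t s)‖ ≤ 24 := by
  rw [norm_mul, Complex.norm_real, Real.norm_eq_abs]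
  calc |rho a s| * ‖ee k s (t s)‖ ≤ 8 * 3 := by
        gcongr
        · exact abs_rho_le P s
        · exact norm_ee_le _ _ _
    _ = 24 := by norm_num

lemma integrable_gk (P : Params τ a) {t : ℝ → ℝ} (ht : Measurable t) (k : ℤ) :
    Integrable (fun s => (rho a s : ℂ) * ee k s (t s)) (nu τ) :=
  Integrable.of_bound (aesm_gk ht a k).aestronglyMeasurable 24
    (Eventually.of_forall (norm_gk_le P t k))

lemma norm_cc_le (P : Params τ a) (t : ℝ → ℝ) (k : ℤ) :
    ‖cc τ a t k‖ ≤ 24 * (nu τ).real univ := by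
  unfold cc
  exact norm_integral_le_of_norm_le_const (Eventually.of_forall (norm_gk_le P t k))

lemma ae_mem (τ : ℝ) : ∀ᵐ s ∂(nu τ), s ∈ Icc τ (π / 2 - τ) :=
  ae_restrict_mem measurableSet_Icc

lemma ae_mem_prod (τ : ℝ) : ∀ᵐ p ∂((nu τ).prod (nu τ)),
    p.1 ∈ Icc τ (π / 2 - τ) ∧ p.2 ∈ Icc τ (π / 2 - τ) := by
  unfold nu
  rw [Measure.prod_restrict]
  filter_upwards [ae_restrict_mem (measurableSet_Icc.prod measurableSet_Icc)] with p hp
  exact hp

lemma Params.mem_Ioo (P : Params τ a) {s : ℝ} (hs : s ∈ Icc τ (π / 2 - τ)) : s ∈ Ioo 0 (π / 2) :=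
  ⟨lt_of_lt_of_le P.pos hs.1, by have := hs.2; have := P.pos; linarith⟩

/-- the quadratic form as a double integral -/
lemma hasSum_Qc (P : Params τ a) {t : ℝ → ℝ} (ht : Measurable t)
    (htd : ∀ s s', |t s' - t s| ≤ π / 2) :
    HasSum (fun k : ℤ => kap k * ‖cc τ a t k‖ ^ 2)
      (π * ∫ p, rho a p.1 * rho a p.2 * W p.1 p.2 (t p.2 - t p.1) ∂((nu τ).prod (nu τ))) := by
  set F : ℤ → ℝ × ℝ → ℂ := fun k p =>
    (kap k : ℂ) * (((rho a p.1 : ℂ) * ee k p.1 (t p.1)) *
      conj ((rho a p.2 : ℂ) * ee k p.2 (t p.2))) with hF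
  have hFm : ∀ k, Measurable (F k) := by
    intro k
    have h1 := aesm_gk ht a k
    have h2 : Measurable (fun p : ℝ × ℝ => (rho a p.1 : ℂ) * ee k p.1 (t p.1)) :=
      h1.comp measurable_fst
    have h3 : Measurable (fun p : ℝ × ℝ => conj ((rho a p.2 : ℂ) * ee k p.2 (t p.2))) :=
      Complex.continuous_conj.measurable.comp (h1.comp measurable_snd)
    exact (h2.mul h3).const_mul _
  have hFb : ∀ k p, ‖F k p‖ ≤ ‖kap k‖ * 576 := by
    intro k p
    simp only [hF]
    rw [norm_mul, norm_mul, RCLike.norm_conj, Complex.norm_real]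
    calc ‖kap k‖ * (‖(rho a p.1 : ℂ) * ee k p.1 (t p.1)‖ * ‖(rho a p.2 : ℂ) * ee k p.2 (t p.2)‖)
        ≤ ‖kap k‖ * (24 * 24) := by
          gcongr
          · exact norm_gk_le P t k p.1
          · exact norm_gk_le P t k p.2
      _ = ‖kap k‖ * 576 := by norm_num
  have hFi : ∀ k, Integrable (F k) ((nu τ).prod (nu τ)) := fun k =>
    Integrable.of_bound (hFm k).aestronglyMeasurable (‖kap k‖ * 576)
      (Eventually.of_forall (hFb k))
  have hsum : Summable (fun k => ∫ p, ‖F k p‖ ∂((nu τ).prod (nu τ))) := by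
    apply Summable.of_nonneg_of_le (fun k => integral_nonneg (fun p => norm_nonneg _)) (fun k => ?_)
      (summable_kap.mul_right (576 * ((nu τ).prod (nu τ)).real univ))
    calc ∫ p, ‖F k p‖ ∂((nu τ).prod (nu τ))
        ≤ ∫ p, ‖kap k‖ * 576 ∂((nu τ).prod (nu τ)) :=
          integral_mono (hFi k).norm (integrable_const _) (hFb k)
      _ = ‖kap k‖ * (576 * ((nu τ).prod (nu τ)).real univ) := by
          rw [integral_const, smul_eq_mul]; ring
  have h1 := hasSum_integral_of_summable_integral_norm hFi hsum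
  have h2 : ∫ p, (∑' k, F k p) ∂((nu τ).prod (nu τ))
      = ((π * ∫ p, rho a p.1 * rho a p.2 * W p.1 p.2 (t p.2 - t p.1) ∂((nu τ).prod (nu τ)) : ℝ) : ℂ) := by
    rw [← integral_const_mul, ← integral_complex_ofReal]
    apply integral_congr_ae
    filter_upwards [ae_mem_prod τ] with p hp
    have hs := P.mem_range hp.1
    have hs' := P.mem_range hp.2
    have h3 := (W_hasSum hs hs' (htd p.1 p.2)).mul_left ((rho a p.1 * rho a p.2 : ℝ) : ℂ)
    have h4 : HasSum (fun k => F k p) (((rho a p.1 * rho a p.2 : ℝ) : ℂ) *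
        ((π * W p.1 p.2 (t p.2 - t p.1) : ℝ) : ℂ)) := by
      refine h3.congr_fun ?_
      intro k
      simp only [hF, map_mul, Complex.conj_ofReal]
      push_cast
      ring
    rw [h4.tsum_eq]
    push_cast
    ring
  rw [h2] at h1
  have h5 : ∀ k, ∫ p, F k p ∂((nu τ).prod (nu τ)) = ((kap k * ‖cc τ a t k‖ ^ 2 : ℝ) : ℂ) := by
    intro k
    simp only [hF]
    rw [integral_const_mul, integral_prod_mul
      (fun s => (rho a s : ℂ) * ee k s (t s)) (fun s => conj ((rho a s : ℂ) * ee k s (t s))),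
      integral_conj]
    have : (∫ s, (rho a s : ℂ) * ee k s (t s) ∂(nu τ)) = cc τ a t k := rfl
    rw [this, Complex.mul_conj, Complex.normSq_eq_norm_sq]
    push_cast
    ring
  simp_rw [h5] at h1
  exact Complex.hasSum_ofReal.mp h1

/-- the width-type functional of a support function at corridor angle `t` -/
def EE (h : ℝ → ℝ) (s t : ℝ) : ℝ :=
  h t * sin s + h (t + π / 2) * cos s + h (3 * π / 2 + t - s)

lemma continuous_EE {h : ℝ → ℝ} (hc : Continuous h) : Continuous (fun p : ℝ × ℝ => EE h p.1 p.2) := by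
  unfold EE
  fun_prop

lemma hasSum_EE {h : ℝ → ℝ} (hc : Continuous h) (hp : Function.Periodic h (2 * π))
    (hs : Summable (fun k : ℤ => ‖fc h k‖)) (s t : ℝ) :
    HasSum (fun k : ℤ => fc h k * ee k s t) (EE h s t : ℂ) := by
  have hs' : Summable (fc h) := hs.of_norm
  have h1 := (hasSum_fc h hc hp hs' t).mul_right (sin s : ℂ)
  have h2 := (hasSum_fc h hc hp hs' (t + π / 2)).mul_right (cos s : ℂ)
  have h3 := hasSum_fc h hc hp hs' (3 * π / 2 + t - s)
  have h4 := (h1.add h2).add h3
  have e : (EE h s t : ℂ) = (h t : ℂ) * (sin s : ℂ) + (h (t + π / 2) : ℂ) * (cos s : ℂ)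
      + (h (3 * π / 2 + t - s) : ℂ) := by
    unfold EE; push_cast; ring
  rw [e]
  refine h4.congr_fun ?_
  intro k
  unfold ee
  ring

lemma hasSum_V (P : Params τ a) {h : ℝ → ℝ} (hc : Continuous h)
    (hp : Function.Periodic h (2 * π)) (hs : Summable (fun k : ℤ => ‖fc h k‖))
    {t : ℝ → ℝ} (ht : Measurable t) :
    HasSum (fun k : ℤ => (fc h k * cc τ a t k).re) (∫ s, rho a s * EE h s (t s) ∂(nu τ)) := by
  set F : ℤ → ℝ → ℂ := fun k s => fc h k * ((rho a s : ℂ) * ee k s (t s)) with hF
  have hFi : ∀ k, Integrable (F k) (nu τ) := fun k => (integrable_gk P ht k).const_mul _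
  have hsum : Summable (fun k => ∫ s, ‖F k s‖ ∂(nu τ)) := by
    apply Summable.of_nonneg_of_le (fun k => integral_nonneg (fun p => norm_nonneg _)) (fun k => ?_)
      (hs.mul_right (24 * (nu τ).real univ))
    calc ∫ s, ‖F k s‖ ∂(nu τ)
        ≤ ∫ s, ‖fc h k‖ * 24 ∂(nu τ) := by
          apply integral_mono (hFi k).norm (integrable_const _)
          intro s
          simp only [hF]
          rw [norm_mul]
          gcongr
          exact norm_gk_le P t k s
      _ = ‖fc h k‖ * (24 * (nu τ).real univ) := by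
          rw [integral_const, smul_eq_mul]; ring
  have h1 := hasSum_integral_of_summable_integral_norm hFi hsum
  have h2 : ∫ s, (∑' k, F k s) ∂(nu τ) = ((∫ s, rho a s * EE h s (t s) ∂(nu τ) : ℝ) : ℂ) := by
    rw [← integral_complex_ofReal]
    apply integral_congr_ae
    apply Eventually.of_forall
    intro s
    have h3 := (hasSum_EE hc hp hs s (t s)).mul_left ((rho a s : ℝ) : ℂ)
    have h4 : HasSum (fun k => F k s) (((rho a s : ℝ) : ℂ) * (EE h s (t s) : ℂ)) := by
      refine h3.congr_fun ?_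
      intro k
      simp only [hF]
      ring
    simp only
    rw [h4.tsum_eq]
    push_cast
    ring
  rw [h2] at h1
  have h5 : ∀ k, ∫ s, F k s ∂(nu τ) = fc h k * cc τ a t k := by
    intro k
    simp only [hF]
    rw [integral_const_mul]
    rfl
  simp_rw [h5] at h1
  have h6 := Complex.hasSum_re h1
  simpa using h6

lemma cc_one (τ a : ℝ) (t : ℝ → ℝ) {k : ℤ} (hk : k = 1 ∨ k = -1) : cc τ a t k = 0 := by
  unfold cc
  have h0 : ∀ s x : ℝ, ee k s x = 0 := by
    intro s x
    unfold ee
    rcases hk with hk | hk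
    · subst hk
      have e1 : Complex.exp (((1 : ℤ) * (x + π / 2) : ℝ) * Complex.I)
          = Complex.exp (((1 : ℤ) * x : ℝ) * Complex.I) * Complex.I := by
        have : (((1 : ℤ) * (x + π / 2) : ℝ) : ℂ) * Complex.I
          = (((1 : ℤ) * x : ℝ) : ℂ) * Complex.I + π / 2 * Complex.I := by push_cast; ring
        rw [this, Complex.exp_add, Complex.exp_pi_div_two_mul_I]
      have e2 : Complex.exp (((1 : ℤ) * (3 * π / 2 + x - s) : ℝ) * Complex.I)
          = - (Complex.exp (((1 : ℤ) * x : ℝ) * Complex.I) * ((sin s : ℂ) + (cos s : ℂ) * Complex.I)) := by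
        have : (((1 : ℤ) * (3 * π / 2 + x - s) : ℝ) : ℂ) * Complex.I
          = (((1 : ℤ) * x : ℝ) : ℂ) * Complex.I + ((3 * π / 2 - s : ℝ) : ℂ) * Complex.I := by
            push_cast; ring
        rw [this, Complex.exp_add]
        have e3 : Complex.exp (((3 * π / 2 - s : ℝ) : ℂ) * Complex.I)
          = -((sin s : ℂ) + (cos s : ℂ) * Complex.I) := by
          rw [Complex.exp_mul_I, ← Complex.ofReal_cos, ← Complex.ofReal_sin]
          have : 3 * π / 2 - s = (π / 2 - s) + π := by ring
          rw [this, cos_add_pi, sin_add_pi, cos_pi_div_two_sub, sin_pi_div_two_sub]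
          push_cast; ring
        rw [e3]; ring
      rw [e1, e2]
      ring
    · subst hk
      have e1 : Complex.exp (((-1 : ℤ) * (x + π / 2) : ℝ) * Complex.I)
          = - Complex.exp (((-1 : ℤ) * x : ℝ) * Complex.I) * Complex.I := by
        have : (((-1 : ℤ) * (x + π / 2) : ℝ) : ℂ) * Complex.I
          = (((-1 : ℤ) * x : ℝ) : ℂ) * Complex.I - π / 2 * Complex.I := by push_cast; ring
        rw [this, Complex.exp_sub, Complex.exp_pi_div_two_mul_I, div_eq_mul_inv, Complex.inv_I]
        ring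
      have e2 : Complex.exp (((-1 : ℤ) * (3 * π / 2 + x - s) : ℝ) * Complex.I)
          = - (Complex.exp (((-1 : ℤ) * x : ℝ) * Complex.I) * ((sin s : ℂ) - (cos s : ℂ) * Complex.I)) := by
        have : (((-1 : ℤ) * (3 * π / 2 + x - s) : ℝ) : ℂ) * Complex.I
          = (((-1 : ℤ) * x : ℝ) : ℂ) * Complex.I + ((s - 3 * π / 2 : ℝ) : ℂ) * Complex.I := by
            push_cast; ring
        rw [this, Complex.exp_add]
        have e3 : Complex.exp (((s - 3 * π / 2 : ℝ) : ℂ) * Complex.I)
          = -((sin s : ℂ) - (cos s : ℂ) * Complex.I) := by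
          rw [Complex.exp_mul_I, ← Complex.ofReal_cos, ← Complex.ofReal_sin]
          have : s - 3 * π / 2 = -((π / 2 - s) + π) := by ring
          rw [this, cos_neg, sin_neg, cos_add_pi, sin_add_pi, cos_pi_div_two_sub,
            sin_pi_div_two_sub]
          push_cast; ring
        rw [e3]; ring
      rw [e1, e2]
      ring
  simp [h0]

/-- the zeroth coefficient -/
def c0 (τ a : ℝ) : ℝ := ∫ s, rho a s * (sin s + cos s + 1) ∂(nu τ)

lemma cc_zero (τ a : ℝ) (t : ℝ → ℝ) : cc τ a t 0 = (c0 τ a : ℂ) := by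
  unfold cc c0
  rw [← integral_complex_ofReal]
  congr 1
  funext s
  unfold ee
  simp

lemma integrable_cont {f : ℝ → ℝ} (hf : Continuous f) : Integrable f (nu τ) :=
  hf.integrableOn_Icc

lemma c0_pos (P : Params τ a) : 0 < c0 τ a := by
  unfold c0 nu
  have hlt := P.lt
  have hc : Continuous (fun s => rho a s * (sin s + cos s + 1)) := by
    have := continuous_rho a
    fun_prop
  rw [integral_Icc_eq_integral_Ioc, ← intervalIntegral.integral_of_le P.tau_mem.2]
  apply intervalIntegral.intervalIntegral_pos_of_pos_on (hc.intervalIntegrable _ _)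
  · intro s hs
    have h1 : 0 ≤ s := by have := hs.1; have := P.pos; linarith
    have h2 : s ≤ π / 2 := by have := hs.2; have := P.pos; linarith
    have h3 := P.rho_pos h1 h2
    have h4 := one_le_sin_add_cos h1 h2
    have : 0 < rho a s := by linarith
    have : 0 < sin s + cos s + 1 := by linarith
    positivity
  · linarith

lemma int_nu_sum (P : Params τ a) : ∫ s, rho a s * (sin s + cos s) ∂(nu τ) = 2 * areaVal τ a := by
  unfold nu
  rw [integral_Icc_eq_integral_Ioc, ← intervalIntegral.integral_of_le P.tau_mem.2, ← int_sum_rho]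
  apply intervalIntegral.integral_congr
  intro s _
  simp only
  ring

lemma areaVal_pos (P : Params τ a) : 0 < areaVal τ a := by
  have h := int_nu_sum P
  have : 0 < ∫ s, rho a s * (sin s + cos s) ∂(nu τ) := by
    have hlt := P.lt
    have hc : Continuous (fun s => rho a s * (sin s + cos s)) := by
      have := continuous_rho a
      fun_prop
    unfold nu
    rw [integral_Icc_eq_integral_Ioc, ← intervalIntegral.integral_of_le P.tau_mem.2]
    apply intervalIntegral.intervalIntegral_pos_of_pos_on (hc.intervalIntegrable _ _)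
    · intro s hs
      have h1 : 0 ≤ s := by have := hs.1; have := P.pos; linarith
      have h2 : s ≤ π / 2 := by have := hs.2; have := P.pos; linarith
      have h3 := P.rho_pos h1 h2
      have h4 := one_le_sin_add_cos h1 h2
      have : 0 < rho a s := by linarith
      have : 0 < sin s + cos s := by linarith
      positivity
    · linarith
  linarith

lemma integral_kern0 (P : Params τ a) :
    ∫ p, rho a p.1 * rho a p.2 * kern0 p.1 p.2 ∂((nu τ).prod (nu τ)) = 4 * areaVal τ a := by
  have hc : Continuous (fun p : ℝ × ℝ => rho a p.1 * rho a p.2 * kern0 p.1 p.2) := by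
    have h1 := continuous_rho a
    have h2 := continuous_kern0
    exact ((h1.comp continuous_fst).mul (h1.comp continuous_snd)).mul h2
  have hint : Integrable (fun p : ℝ × ℝ => rho a p.1 * rho a p.2 * kern0 p.1 p.2)
      ((nu τ).prod (nu τ)) := by
    unfold nu
    rw [Measure.prod_restrict]
    exact hc.continuousOn.integrableOn_compact (isCompact_Icc.prod isCompact_Icc)
  rw [integral_prod _ hint]
  have h1 : ∀ᵐ s ∂(nu τ), ∫ r, rho a s * rho a r * kern0 s r ∂(nu τ)
      = 2 * (rho a s * (sin s + cos s)) := by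
    filter_upwards [ae_mem τ] with s hs
    have h2 := P.kkt hs
    have h3 : ∫ r, rho a s * rho a r * kern0 s r ∂(nu τ)
        = rho a s * ∫ r in τ..(π / 2 - τ), kern0 s r * rho a r := by
      unfold nu
      rw [integral_Icc_eq_integral_Ioc, ← intervalIntegral.integral_of_le P.tau_mem.2,
        ← intervalIntegral.integral_const_mul]
      apply intervalIntegral.integral_congr
      intro r _
      simp only
      ring
    rw [h3, h2]; ring
  rw [integral_congr_ae h1, integral_const_mul, int_nu_sum P]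
  ring

end

end Pool.Agent.MP_3737e1_gt
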