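import Mathlib
import Pool.Agent.MP_3737e1_gt.MainBound

namespace Pool.Agent.MP_3737e1_gt

open MeasureTheory Set Real Filter Topology
open scoped ComplexConjugate

noncomputable section

variable {τ a : ℝ}

/-- the mean of `h` -/
def a0 (h : ℝ → ℝ) : ℝ := (1 / (2 * π)) * ∫ x in (0 : ℝ)..(2 * π), h x

lemma fc_zero (h : ℝ → ℝ) : fc h 0 = (a0 h : ℂ) := by
  unfold fc a0
  simp only [Int.cast_zero, zero_mul, Complex.ofReal_zero, neg_zero, Complex.exp_zero, one_mul]
  rw [intervalIntegral.integral_ofReal]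
  push_cast
  ring

lemma conj_fc (h : ℝ → ℝ) (k : ℤ) : conj (fc h k) = fc h (-k) := by
  unfold fc
  rw [map_mul, Complex.conj_ofReal, ← intervalIntegral.intervalIntegral_conj]
  congr 1
  apply intervalIntegral.integral_congr
  intro x _
  simp only
  rw [map_mul, Complex.conj_ofReal, ← Complex.exp_conj]
  congr 2
  rw [map_mul, map_neg, Complex.conj_I, Complex.conj_ofReal]
  push_cast
  ring

/-- the terms of the deficit series -/
def Tk (τ a : ℝ) (h t : ℝ → ℝ) (k : ℤ) : ℝ :=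
  c0 τ a ^ 2 * ((1 - (k : ℝ) ^ 2) * ‖fc h k‖ ^ 2) - 2 * c0 τ a * a0 h * (fc h k * cc τ a t k).re
    + a0 h ^ 2 * (kap k * ‖cc τ a t k‖ ^ 2)

lemma Tk_eq (τ a : ℝ) (h t : ℝ → ℝ) (k : ℤ) : Tk τ a h t k = (1 - (k : ℝ) ^ 2) *
    ‖(c0 τ a : ℂ) * fc h k - (a0 h : ℂ) * ((kap k : ℂ) * conj (cc τ a t k))‖ ^ 2 := by
  have hn : ‖(c0 τ a : ℂ) * fc h k - (a0 h : ℂ) * ((kap k : ℂ) * conj (cc τ a t k))‖ ^ 2
      = c0 τ a ^ 2 * ‖fc h k‖ ^ 2 - 2 * c0 τ a * a0 h * kap k * (fc h k * cc τ a t k).re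
        + a0 h ^ 2 * kap k ^ 2 * ‖cc τ a t k‖ ^ 2 := by
    rw [← Complex.normSq_eq_norm_sq, ← Complex.normSq_eq_norm_sq, ← Complex.normSq_eq_norm_sq,
      Complex.normSq_apply, Complex.normSq_apply, Complex.normSq_apply]
    simp only [Complex.sub_re, Complex.sub_im, Complex.mul_re, Complex.mul_im, Complex.ofReal_re,
      Complex.ofReal_im, Complex.conj_re, Complex.conj_im, zero_mul, sub_zero, add_zero]
    ring
  rw [hn]
  unfold Tk
  by_cases h1 : k = 1 ∨ k = -1
  · rw [cc_one τ a t h1]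
    have : (1 : ℝ) - (k : ℝ) ^ 2 = 0 := by
      rcases h1 with h | h <;> subst h <;> norm_num
    rw [this]
    simp
  · push Not at h1
    have h2 := sub_ne_zero_of_ne h1.1 h1.2
    rw [kap_of_ne h1.1 h1.2]
    field_simp

lemma Tk_nonpos (τ a : ℝ) (h t : ℝ → ℝ) (k : ℤ) : Tk τ a h t k ≤ 0 := by
  rw [Tk_eq]
  rcases eq_or_ne k 0 with hk | hk
  · subst hk
    rw [fc_zero, cc_zero, kap_zero]
    have : (c0 τ a : ℂ) * (a0 h : ℂ) - (a0 h : ℂ) * (((1 : ℝ) : ℂ) * conj (c0 τ a : ℂ)) = 0 := by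
      rw [Complex.conj_ofReal]; push_cast; ring
    rw [this]
    simp
  · have h1 : (1 : ℝ) ≤ (k : ℝ) ^ 2 := by
      have : (1 : ℤ) ≤ k ^ 2 := by
        have := Int.one_le_abs hk
        rw [← sq_abs]; nlinarith
      exact_mod_cast this
    apply mul_nonpos_of_nonpos_of_nonneg (by linarith) (by positivity)

lemma hasSum_Tk (P : Params τ a) {h : ℝ → ℝ} (hc : Continuous h)
    (hp : Function.Periodic h (2 * π)) {A : ℝ} (hA : AreaBound h A)
    {t : ℝ → ℝ} (ht : Measurable t) (htd : ∀ s s', |t s' - t s| ≤ π / 2) :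
    HasSum (Tk τ a h t) (c0 τ a ^ 2 * (∑' k : ℤ, (1 - (k : ℝ) ^ 2) * ‖fc h k‖ ^ 2)
      - 2 * c0 τ a * a0 h * (∫ s, rho a s * EE h s (t s) ∂(nu τ))
      + a0 h ^ 2 * (π * ∫ p, rho a p.1 * rho a p.2 * W p.1 p.2 (t p.2 - t p.1)
        ∂((nu τ).prod (nu τ)))) := by
  have h1 : Summable (fun k : ℤ => (1 - (k : ℝ) ^ 2) * ‖fc h k‖ ^ 2) := by
    have h2 := (hasSum_sq_fc h hc hp).summable.sub (hA.summable_sq hc hp)
    refine h2.congr (fun k => ?_)
    ring
  exact ((h1.hasSum.mul_left _).sub ((hasSum_V P hc hp (hA.summable hc hp) ht).mul_left _)).add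
    ((hasSum_Qc P ht htd).mul_left _)

lemma integrable_W (P : Params τ a) {t : ℝ → ℝ} (ht : Measurable t) :
    Integrable (fun p : ℝ × ℝ => rho a p.1 * rho a p.2 * W p.1 p.2 (t p.2 - t p.1))
      ((nu τ).prod (nu τ)) := by
  have hm : Measurable (fun p : ℝ × ℝ => rho a p.1 * rho a p.2 * W p.1 p.2 (t p.2 - t p.1)) := by
    have h1 := (continuous_rho a).measurable
    have h2 : Measurable (fun p : ℝ × ℝ => t p.2 - t p.1) :=
      (ht.comp measurable_snd).sub (ht.comp measurable_fst)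
    unfold W
    have e1 : Measurable (fun p : ℝ × ℝ => cos (p.2 - p.1) * sin |t p.2 - t p.1|) :=
      (measurable_cos.comp (measurable_snd.sub measurable_fst)).mul
        (measurable_sin.comp (continuous_abs.measurable.comp h2))
    have e2 : Measurable (fun p : ℝ × ℝ => sin (p.1 + p.2) * cos (t p.2 - t p.1)) :=
      (measurable_sin.comp (measurable_fst.add measurable_snd)).mul (measurable_cos.comp h2)
    have e3 : Measurable (fun p : ℝ × ℝ => sin |p.2 - p.1 - (t p.2 - t p.1)|) :=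
      measurable_sin.comp (continuous_abs.measurable.comp
        ((measurable_snd.sub measurable_fst).sub h2))
    exact ((h1.comp measurable_fst).mul (h1.comp measurable_snd)).mul ((e1.add e2).add e3)
  apply Integrable.of_bound hm.aestronglyMeasurable 192
  apply Eventually.of_forall
  intro p
  rw [norm_mul, norm_mul]
  have h3 : ‖W p.1 p.2 (t p.2 - t p.1)‖ ≤ 3 := by
    unfold W
    generalize p.2 - p.1 = x
    generalize t p.2 - t p.1 = y
    generalize p.1 + p.2 = z
    rw [Real.norm_eq_abs]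
    have b1 : |cos x * sin (abs y)| ≤ 1 := by
      rw [abs_mul]
      calc |cos x| * |sin (abs y)| ≤ 1 * 1 := by
            gcongr
            · exact abs_cos_le_one _
            · exact abs_sin_le_one _
        _ = 1 := by norm_num
    have b2 : |sin z * cos y| ≤ 1 := by
      rw [abs_mul]
      calc |sin z| * |cos y| ≤ 1 * 1 := by
            gcongr
            · exact abs_sin_le_one _
            · exact abs_cos_le_one _
        _ = 1 := by norm_num
    have b3 : |sin (abs (x - y))| ≤ 1 := abs_sin_le_one _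
    have b4 := abs_add_le (cos x * sin (abs y) + sin z * cos y) (sin (abs (x - y)))
    have b5 := abs_add_le (cos x * sin (abs y)) (sin z * cos y)
    linarith
  calc ‖rho a p.1‖ * ‖rho a p.2‖ * ‖W p.1 p.2 (t p.2 - t p.1)‖ ≤ 8 * 8 * 3 := by
        gcongr
        · exact abs_rho_le P _
        · exact abs_rho_le P _
    _ = 192 := by norm_num

lemma integrable_kern0 (τ a : ℝ) : Integrable (fun p : ℝ × ℝ => rho a p.1 * rho a p.2 * kern0 p.1 p.2)
      ((nu τ).prod (nu τ)) := by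
  have hc : Continuous (fun p : ℝ × ℝ => rho a p.1 * rho a p.2 * kern0 p.1 p.2) := by
    have h1 := continuous_rho a
    have h2 := continuous_kern0
    exact ((h1.comp continuous_fst).mul (h1.comp continuous_snd)).mul h2
  unfold nu
  rw [Measure.prod_restrict]
  exact hc.continuousOn.integrableOn_compact (isCompact_Icc.prod isCompact_Icc)

lemma kern_le_ae (P : Params τ a) {t : ℝ → ℝ} (htd : ∀ s s', |t s' - t s| ≤ π / 2) :
    ∀ᵐ p ∂((nu τ).prod (nu τ)), rho a p.1 * rho a p.2 * kern0 p.1 p.2 ≤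
      rho a p.1 * rho a p.2 * W p.1 p.2 (t p.2 - t p.1) := by
  filter_upwards [ae_mem_prod τ] with p hp
  have h1 := P.rho_pos (P.mem_range hp.1).1 (P.mem_range hp.1).2
  have h2 := P.rho_pos (P.mem_range hp.2).1 (P.mem_range hp.2).2
  have h3 := kern0_le_W (P.mem_Ioo hp.1) (P.mem_Ioo hp.2) (htd p.1 p.2)
  have : 0 < rho a p.1 * rho a p.2 := mul_pos (by linarith) (by linarith)
  gcongr

lemma int_W_ge (P : Params τ a) {t : ℝ → ℝ} (ht : Measurable t)
    (htd : ∀ s s', |t s' - t s| ≤ π / 2) :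
    4 * areaVal τ a ≤ ∫ p, rho a p.1 * rho a p.2 * W p.1 p.2 (t p.2 - t p.1)
        ∂((nu τ).prod (nu τ)) := by
  rw [← integral_kern0 P]
  exact integral_mono_ae (integrable_kern0 τ a) (integrable_W P ht) (kern_le_ae P htd)

lemma int_E_le (P : Params τ a) {h : ℝ → ℝ} (hc : Continuous h) {t : ℝ → ℝ} (ht : Measurable t)
    (hE : ∀ s ∈ Icc τ (π / 2 - τ), EE h s (t s) ≤ sin s + cos s)
    (hb : ∃ C, ∀ x, |h x| ≤ C) :
    ∫ s, rho a s * EE h s (t s) ∂(nu τ) ≤ 2 * areaVal τ a := by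
  obtain ⟨C, hC⟩ := hb
  rw [← int_nu_sum P]
  apply integral_mono_ae
  · have hm : Measurable (fun s => rho a s * EE h s (t s)) := by
      have h0 : Measurable (fun s : ℝ => (s, t s)) := measurable_id.prodMk ht
      have h1 : Measurable (fun s => EE h s (t s)) :=
        Measurable.comp (g := fun p : ℝ × ℝ => EE h p.1 p.2) (f := fun s : ℝ => (s, t s))
          (continuous_EE hc).measurable h0
      exact (continuous_rho a).measurable.mul h1
    apply Integrable.of_bound hm.aestronglyMeasurable (8 * (C * 1 + C * 1 + C))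
    apply Eventually.of_forall
    intro s
    rw [norm_mul]
    gcongr
    · exact abs_rho_le P s
    · unfold EE
      rw [Real.norm_eq_abs]
      calc _ ≤ |h (t s) * sin s + h (t s + π / 2) * cos s| + |h (3 * π / 2 + t s - s)| :=
            abs_add_le _ _
        _ ≤ |h (t s) * sin s| + |h (t s + π / 2) * cos s| + |h (3 * π / 2 + t s - s)| := by
            gcongr; exact abs_add_le _ _
        _ ≤ C * 1 + C * 1 + C := by
            have hC0 : 0 ≤ C := (abs_nonneg _).trans (hC 0)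
            rw [abs_mul, abs_mul]
            gcongr
            · exact hC _
            · exact abs_sin_le_one _
            · exact hC _
            · exact abs_cos_le_one _
            · exact hC _
  · exact integrable_cont (by have := continuous_rho a; fun_prop)
  · filter_upwards [ae_mem τ] with s hs
    have h1 := P.rho_pos (P.mem_range hs).1 (P.mem_range hs).2
    have h2 := hE s hs
    have : 0 < rho a s := by linarith
    gcongr

/-- the central inequality -/
lemma central (P : Params τ a) {h : ℝ → ℝ} (hc : Continuous h)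
    (hp : Function.Periodic h (2 * π)) (ha0 : 0 ≤ a0 h) {A : ℝ} (hA : AreaBound h A)
    {t : ℝ → ℝ} (ht : Measurable t) (htd : ∀ s s', |t s' - t s| ≤ π / 2)
    (hE : ∀ s ∈ Icc τ (π / 2 - τ), EE h s (t s) ≤ sin s + cos s)
    (hb : ∃ C, ∀ x, |h x| ≤ C) (k : ℤ) :
    c0 τ a ^ 2 * ((A - areaVal τ a) / π) + areaVal τ a / π * (c0 τ a - 2 * π * a0 h) ^ 2
      + a0 h ^ 2 * (π * (∫ p, rho a p.1 * rho a p.2 * W p.1 p.2 (t p.2 - t p.1)
        ∂((nu τ).prod (nu τ)) - 4 * areaVal τ a)) ≤ Tk τ a h t k := by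
  have h1 := hasSum_Tk P hc hp hA ht htd
  have h2 := hA.le hc hp
  have h3 := int_E_le P hc ht hE hb
  have h4 : c0 τ a ^ 2 * (∑' k : ℤ, (1 - (k : ℝ) ^ 2) * ‖fc h k‖ ^ 2)
      - 2 * c0 τ a * a0 h * (∫ s, rho a s * EE h s (t s) ∂(nu τ))
      + a0 h ^ 2 * (π * ∫ p, rho a p.1 * rho a p.2 * W p.1 p.2 (t p.2 - t p.1)
        ∂((nu τ).prod (nu τ))) ≤ Tk τ a h t k := by
    have h5 := h1.neg
    have h6 := le_hasSum h5 k (fun j _ => by have := Tk_nonpos τ a h t j; linarith)
    linarith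
  have hc0 := c0_pos P
  have h7 : c0 τ a ^ 2 * (A / π) ≤ c0 τ a ^ 2 * (∑' k : ℤ, (1 - (k : ℝ) ^ 2) * ‖fc h k‖ ^ 2) := by
    gcongr
  have h8 : 2 * c0 τ a * a0 h * (∫ s, rho a s * EE h s (t s) ∂(nu τ))
      ≤ 2 * c0 τ a * a0 h * (2 * areaVal τ a) := by
    gcongr
  have h9 : c0 τ a ^ 2 * ((A - areaVal τ a) / π) + areaVal τ a / π * (c0 τ a - 2 * π * a0 h) ^ 2
      = c0 τ a ^ 2 * (A / π) - 2 * c0 τ a * a0 h * (2 * areaVal τ a)
        + a0 h ^ 2 * (π * (4 * areaVal τ a)) := by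
    field_simp
    ring
  rw [h9]
  linarith

/-- **Upper bound.** -/
theorem area_le (P : Params τ a) {h : ℝ → ℝ} (hc : Continuous h)
    (hp : Function.Periodic h (2 * π)) (ha0 : 0 ≤ a0 h) {A : ℝ} (hA : AreaBound h A)
    {t : ℝ → ℝ} (ht : Measurable t) (htd : ∀ s s', |t s' - t s| ≤ π / 2)
    (hE : ∀ s ∈ Icc τ (π / 2 - τ), EE h s (t s) ≤ sin s + cos s)
    (hb : ∃ C, ∀ x, |h x| ≤ C) : A ≤ areaVal τ a := by
  have h1 := central P hc hp ha0 hA ht htd hE hb 0
  have h2 := Tk_nonpos τ a h t 0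
  have h3 := int_W_ge P ht htd
  have h4 := areaVal_pos P
  have h5 := c0_pos P
  by_contra hcon
  push Not at hcon
  have h6 : 0 < c0 τ a ^ 2 * ((A - areaVal τ a) / π) := by
    apply mul_pos (by positivity)
    apply div_pos (by linarith) pi_pos
  have h7 : 0 ≤ areaVal τ a / π * (c0 τ a - 2 * π * a0 h) ^ 2 := by positivity
  have h8 : 0 ≤ a0 h ^ 2 * (π * (∫ p, rho a p.1 * rho a p.2 * W p.1 p.2 (t p.2 - t p.1)
        ∂((nu τ).prod (nu τ)) - 4 * areaVal τ a)) := by
    apply mul_nonneg (by positivity)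
    apply mul_nonneg pi_pos.le (by linarith)
  linarith

end

end Pool.Agent.MP_3737e1_gt
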