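import Mathlib
import Pool.Agent.MP_3737e1_gt.Final

namespace Pool.Agent.MP_3737e1_gt

open MeasureTheory Set Real Filter Topology
open scoped ComplexConjugate

noncomputable section

variable {τ a : ℝ}

/-- universal Fourier coefficients -/
def UU (τ a : ℝ) (k : ℤ) : ℂ :=
  if k = 1 ∨ k = -1 then 0 else (kap k : ℂ) * conj (cc τ a id k) / (2 * π)

/-- universal support function -/
def GG (τ a : ℝ) (x : ℝ) : ℂ := ∑' k : ℤ, UU τ a k * Complex.exp ((k * x : ℝ) * Complex.I)

lemma ae_shift (P : Params τ a) {t : ℝ → ℝ} (ht : Measurable t)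
    (htd : ∀ s s', |t s' - t s| ≤ π / 2)
    (heq : ∫ p, rho a p.1 * rho a p.2 * W p.1 p.2 (t p.2 - t p.1)
        ∂((nu τ).prod (nu τ)) = 4 * areaVal τ a) :
    ∃ δ : ℝ, ∀ᵐ s ∂(nu τ), t s = s + δ := by
  have h1 : ∫ p, (rho a p.1 * rho a p.2 * W p.1 p.2 (t p.2 - t p.1)
      - rho a p.1 * rho a p.2 * kern0 p.1 p.2) ∂((nu τ).prod (nu τ)) = 0 := by
    rw [integral_sub (integrable_W P ht) (integrable_kern0 τ a), heq, integral_kern0 P]
    ring
  have h2 := (integral_eq_zero_iff_of_nonneg_ae (by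
    filter_upwards [kern_le_ae P htd] with p hp
    simp only [Pi.zero_apply, Pi.sub_apply]
    linarith) ((integrable_W P ht).sub (integrable_kern0 τ a))).mp h1
  have h3 : ∀ᵐ p ∂((nu τ).prod (nu τ)), t p.2 - t p.1 = p.2 - p.1 := by
    filter_upwards [h2, ae_mem_prod τ] with p hp hmem
    by_contra hne
    have h4 := kern0_lt_W (P.mem_Ioo hmem.1) (P.mem_Ioo hmem.2) (htd p.1 p.2) hne
    have h5 := P.rho_pos (P.mem_range hmem.1).1 (P.mem_range hmem.1).2
    have h6 := P.rho_pos (P.mem_range hmem.2).1 (P.mem_range hmem.2).2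
    have h7 : 0 < rho a p.1 * rho a p.2 := mul_pos (by linarith) (by linarith)
    have h8 := mul_lt_mul_of_pos_left h4 h7
    simp only [Pi.zero_apply, Pi.sub_apply] at hp
    linarith
  have h4 := Measure.ae_ae_of_ae_prod h3
  have hne : (nu τ) ≠ 0 := by
    unfold nu
    rw [Ne, Measure.restrict_eq_zero, Real.volume_Icc]
    have := P.lt
    simp only [ENNReal.ofReal_eq_zero, not_le]
    linarith
  have : NeBot (ae (nu τ)) := ae_neBot.mpr hne
  obtain ⟨s0, hs0⟩ := h4.exists
  refine ⟨t s0 - s0, ?_⟩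
  filter_upwards [hs0] with s hs
  linarith

lemma ee_shift (k : ℤ) (s δ : ℝ) :
    ee k s (s + δ) = Complex.exp ((k * δ : ℝ) * Complex.I) * ee k s s := by
  unfold ee
  have e1 : Complex.exp ((k * (s + δ) : ℝ) * Complex.I)
      = Complex.exp ((k * δ : ℝ) * Complex.I) * Complex.exp ((k * s : ℝ) * Complex.I) := by
    rw [← Complex.exp_add]; congr 1; push_cast; ring
  have e2 : Complex.exp ((k * (s + δ + π / 2) : ℝ) * Complex.I)
      = Complex.exp ((k * δ : ℝ) * Complex.I) * Complex.exp ((k * (s + π / 2) : ℝ) * Complex.I) := by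
    rw [← Complex.exp_add]; congr 1; push_cast; ring
  have e3 : Complex.exp ((k * (3 * π / 2 + (s + δ) - s) : ℝ) * Complex.I)
      = Complex.exp ((k * δ : ℝ) * Complex.I)
        * Complex.exp ((k * (3 * π / 2 + s - s) : ℝ) * Complex.I) := by
    rw [← Complex.exp_add]; congr 1; push_cast; ring
  rw [e1, e2, e3]
  ring

lemma cc_shift {t : ℝ → ℝ} {δ : ℝ} (h : ∀ᵐ s ∂(nu τ), t s = s + δ) (k : ℤ) :
    cc τ a t k = Complex.exp ((k * δ : ℝ) * Complex.I) * cc τ a id k := by
  unfold cc
  rw [← integral_const_mul]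
  apply integral_congr_ae
  filter_upwards [h] with s hs
  rw [hs, ee_shift]
  simp only [id]
  ring

/-- **Rigidity.** -/
theorem rigid (P : Params τ a) {h : ℝ → ℝ} (hc : Continuous h)
    (hp : Function.Periodic h (2 * π)) (ha0 : 0 ≤ a0 h) (hA : AreaBound h (areaVal τ a))
    {t : ℝ → ℝ} (ht : Measurable t) (htd : ∀ s s', |t s' - t s| ≤ π / 2)
    (hE : ∀ s ∈ Icc τ (π / 2 - τ), EE h s (t s) ≤ sin s + cos s)
    (hb : ∃ C, ∀ x, |h x| ≤ C) :
    ∃ (δ : ℝ) (w : ℂ), ∀ x : ℝ, (h x : ℂ) = GG τ a (x - δ) + ((w.re * cos x + w.im * sin x : ℝ) : ℂ) := by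
  have hcen := central P hc hp ha0 hA ht htd hE hb
  have h3 := int_W_ge P ht htd
  have h4 := areaVal_pos P
  have h5 := c0_pos P
  set IW := ∫ p, rho a p.1 * rho a p.2 * W p.1 p.2 (t p.2 - t p.1) ∂((nu τ).prod (nu τ)) with hIW
  have h7 : 0 ≤ areaVal τ a / π * (c0 τ a - 2 * π * a0 h) ^ 2 := by positivity
  have h8 : 0 ≤ a0 h ^ 2 * (π * (IW - 4 * areaVal τ a)) := by
    apply mul_nonneg (by positivity)
    apply mul_nonneg pi_pos.le (by linarith)
  have hT : ∀ k, Tk τ a h t k = 0 := by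
    intro k
    have h1 := hcen k
    rw [sub_self, zero_div, mul_zero, zero_add] at h1
    have h2 := Tk_nonpos τ a h t k
    linarith
  have h9 := hcen 0
  rw [sub_self, zero_div, mul_zero, zero_add, hT 0] at h9
  have h10 : c0 τ a = 2 * π * a0 h := by
    have : areaVal τ a / π * (c0 τ a - 2 * π * a0 h) ^ 2 = 0 := le_antisymm (by linarith) h7
    have h11 : areaVal τ a / π ≠ 0 := by positivity
    have := (mul_eq_zero.mp this).resolve_left h11
    have := pow_eq_zero_iff (two_ne_zero) |>.mp this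
    linarith
  have ha0' : 0 < a0 h := by
    rw [h10] at h5
    have : 0 < 2 * π := by positivity
    exact (pos_iff_pos_of_mul_pos h5).mp this
  have h12 : IW = 4 * areaVal τ a := by
    have : a0 h ^ 2 * (π * (IW - 4 * areaVal τ a)) = 0 := le_antisymm (by linarith) h8
    have h13 : a0 h ^ 2 ≠ 0 := by positivity
    have h14 := (mul_eq_zero.mp this).resolve_left h13
    have h15 := (mul_eq_zero.mp h14).resolve_left pi_ne_zero
    linarith
  obtain ⟨δ, hδ⟩ := ae_shift P ht htd h12
  -- coefficients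
  have hcoef : ∀ k : ℤ, ¬ (k = 1 ∨ k = -1) →
      fc h k = Complex.exp ((-(k * δ) : ℝ) * Complex.I) * UU τ a k := by
    intro k hk
    have hk' := hk
    push Not at hk'
    have h16 := hT k
    rw [Tk_eq] at h16
    have h17 := sub_ne_zero_of_ne hk'.1 hk'.2
    have h18 := (mul_eq_zero.mp h16).resolve_left h17
    have h19 := pow_eq_zero_iff (two_ne_zero) |>.mp h18
    rw [norm_eq_zero, sub_eq_zero] at h19
    rw [cc_shift hδ, h10] at h19
    have h20 : (a0 h : ℂ) ≠ 0 := by exact_mod_cast ha0'.ne'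
    have hπ : (π : ℂ) ≠ 0 := by exact_mod_cast pi_ne_zero
    have h21 : conj (Complex.exp ((k * δ : ℝ) * Complex.I)) = Complex.exp ((-(k * δ) : ℝ) * Complex.I) := by
      rw [← Complex.exp_conj, map_mul, Complex.conj_I, Complex.conj_ofReal]
      congr 1; push_cast; ring
    rw [map_mul, h21] at h19
    unfold UU
    rw [if_neg hk]
    have h22 : (a0 h : ℂ) * (2 * π * fc h k) = (a0 h : ℂ) * ((kap k : ℂ) *
        (Complex.exp ((-(k * δ) : ℝ) * Complex.I) * conj (cc τ a id k))) := by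
      rw [← h19]; push_cast; ring
    have h23 := mul_left_cancel₀ h20 h22
    field_simp
    linear_combination h23
  refine ⟨δ, 2 * conj (fc h 1), fun x => ?_⟩
  have hs' : Summable (fc h) := (hA.summable hc hp).of_norm
  have h24 := hasSum_fc h hc hp hs' x
  -- the two exceptional terms
  set v : ℤ → ℂ := fun k => if k = 1 ∨ k = -1 then fc h k * Complex.exp ((k * x : ℝ) * Complex.I)
    else 0 with hv
  have h25 : HasSum v (v 1 + v (-1)) := by
    have : v 1 + v (-1) = ∑ k ∈ ({1, -1} : Finset ℤ), v k := by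
      rw [Finset.sum_pair (by norm_num)]
    rw [this]
    apply hasSum_sum_of_ne_finset_zero
    intro k hk
    simp only [Finset.mem_insert, Finset.mem_singleton] at hk
    simp only [hv]
    rw [if_neg hk]
  have h26 := h24.sub h25
  have h27 : HasSum (fun k : ℤ => UU τ a k * Complex.exp ((k * (x - δ) : ℝ) * Complex.I))
      ((h x : ℂ) - (v 1 + v (-1))) := by
    refine h26.congr_fun ?_
    intro k
    simp only [hv]
    by_cases hk : k = 1 ∨ k = -1
    · rw [if_pos hk, sub_self]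
      unfold UU
      rw [if_pos hk, zero_mul]
    · rw [if_neg hk, sub_zero, hcoef k hk]
      have : Complex.exp ((k * (x - δ) : ℝ) * Complex.I)
        = Complex.exp ((-(k * δ) : ℝ) * Complex.I) * Complex.exp ((k * x : ℝ) * Complex.I) := by
        rw [← Complex.exp_add]; congr 1; push_cast; ring
      rw [this]; ring
  have h28 : GG τ a (x - δ) = (h x : ℂ) - (v 1 + v (-1)) := h27.tsum_eq
  rw [h28]
  have h29 : v 1 + v (-1) = (((2 * conj (fc h 1)).re * cos x + (2 * conj (fc h 1)).im * sin x : ℝ) : ℂ) := by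
    have hv1 : v 1 = fc h 1 * Complex.exp (((1 : ℤ) * x : ℝ) * Complex.I) := if_pos (Or.inl rfl)
    have hv2 : v (-1) = fc h (-1) * Complex.exp (((-1 : ℤ) * x : ℝ) * Complex.I) :=
      if_pos (Or.inr rfl)
    rw [hv1, hv2, ← conj_fc h 1]
    have e1 : Complex.exp (((1 : ℤ) * x : ℝ) * Complex.I) = (cos x : ℂ) + (sin x : ℂ) * Complex.I := by
      rw [Complex.exp_mul_I, ← Complex.ofReal_cos, ← Complex.ofReal_sin]
      simp
    have e2 : Complex.exp (((-1 : ℤ) * x : ℝ) * Complex.I) = (cos x : ℂ) - (sin x : ℂ) * Complex.I := by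
      rw [Complex.exp_mul_I, ← Complex.ofReal_cos, ← Complex.ofReal_sin]
      simp
      ring
    rw [e1, e2]
    apply Complex.ext
    · simp
      ring
    · simp
      ring
  rw [← h29]
  ring

end

end Pool.Agent.MP_3737e1_gt
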