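import Mathlib
import Pool.Agent.MP_3737e1_gt.MainBound

namespace Pool.Agent.MP_3737e1_gt

open MeasureTheory Set Real Filter Topology

noncomputable section

variable {S : Set ℂ}

/-- If the body lies inside the outer walls and above a line through the inner corner, the
triangle inequality holds. -/
lemma EE_le_of_place (hne : S.Nonempty) {θ s b1 b2 : ℝ} (hs0 : 0 ≤ sin s)
    (hc0 : 0 ≤ cos s) (h1 : ∀ z ∈ S, dot z θ + b1 ≤ 1) (h2 : ∀ z ∈ S, dot z (θ + π / 2) + b2 ≤ 1)
    (h3 : ∀ z ∈ S, 0 ≤ sin s * (dot z θ + b1) + cos s * (dot z (θ + π / 2) + b2)) :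
    EE (supp S) s θ ≤ sin s + cos s := by
  have e1 : supp S θ ≤ 1 - b1 := supp_le hne (fun z hz => by linarith [h1 z hz])
  have e2 : supp S (θ + π / 2) ≤ 1 - b2 := supp_le hne (fun z hz => by linarith [h2 z hz])
  have e3 : supp S (3 * π / 2 + θ - s) ≤ sin s * b1 + cos s * b2 := by
    apply supp_le hne
    intro z hz
    have h4 := h3 z hz
    have h5 : dot z (3 * π / 2 + θ - s) = -(sin s * dot z θ + cos s * dot z (θ + π / 2)) := by
      have e : 3 * π / 2 + θ - s = θ + ((π / 2 - s) + π) := by ring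
      rw [e, dot_add, cos_add_pi, sin_add_pi, cos_pi_div_two_sub, sin_pi_div_two_sub]
      ring
    rw [h5]; linarith
  unfold EE
  have e4 : supp S θ * sin s ≤ (1 - b1) * sin s := by gcongr
  have e5 : supp S (θ + π / 2) * cos s ≤ (1 - b2) * cos s := by gcongr
  linarith

lemma exp_neg_mul (z : ℂ) (θ : ℝ) : (Circle.exp (-θ) : ℂ) * z = ⟨dot z θ, dot z (θ + π / 2)⟩ := by
  rw [Circle.coe_exp, dot_add_pi_div_two]
  have e : Complex.exp ((-θ : ℝ) * Complex.I) = ⟨cos θ, -sin θ⟩ := by
    apply Complex.ext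
    · rw [Complex.exp_ofReal_mul_I_re, cos_neg]
    · rw [Complex.exp_ofReal_mul_I_im, sin_neg]
  rw [e]
  unfold dot
  apply Complex.ext
  · simp; ring
  · simp; ring

lemma armH_EE (hne : S.Nonempty) {θ : ℝ} {b : ℂ}
    (h : ∀ z ∈ S, (Circle.exp (-θ) : ℂ) * z + b ∈ armH) : EE (supp S) 0 θ ≤ sin 0 + cos 0 := by
  apply EE_le_of_place hne (b1 := b.re) (b2 := b.im) (by simp) (by simp)
  · intro z hz
    have := (h z hz).1
    rw [exp_neg_mul] at this
    simpa using this
  · intro z hz
    have := (h z hz).2.2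
    rw [exp_neg_mul] at this
    simpa using this
  · intro z hz
    have := (h z hz).2.1
    rw [exp_neg_mul] at this
    simpa using this

lemma armV_EE (hne : S.Nonempty) {θ : ℝ} {b : ℂ}
    (h : ∀ z ∈ S, (Circle.exp (-θ) : ℂ) * z + b ∈ armV) :
    EE (supp S) (π / 2) θ ≤ sin (π / 2) + cos (π / 2) := by
  apply EE_le_of_place hne (b1 := b.re) (b2 := b.im) (by simp) (by simp)
  · intro z hz
    have := (h z hz).2.1
    rw [exp_neg_mul] at this
    simpa using this
  · intro z hz
    have := (h z hz).2.2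
    rw [exp_neg_mul] at this
    simpa using this
  · intro z hz
    have := (h z hz).1
    rw [exp_neg_mul] at this
    simpa using this

/-- the open inner quadrant -/
def quad : Set ℂ := {z | z.re < 0 ∧ z.im < 0}

lemma convex_quad : Convex ℝ quad := by
  intro z hz w hw α β hα hβ hαβ
  obtain ⟨h1, h2⟩ := hz
  obtain ⟨h3, h4⟩ := hw
  refine ⟨?_, ?_⟩
  · simp only [Complex.add_re, Complex.real_smul, Complex.mul_re,
      Complex.ofReal_re, Complex.ofReal_im, zero_mul, sub_zero]
    rcases hα.eq_or_lt with h | h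
    · have hb : β = 1 := by linarith
      rw [← h, hb]; linarith
    · have : α * z.re < 0 := mul_neg_of_pos_of_neg h h1
      have : β * w.re ≤ 0 := mul_nonpos_of_nonneg_of_nonpos hβ h3.le
      linarith
  · simp only [Complex.add_im, Complex.real_smul, Complex.mul_im,
      Complex.ofReal_re, Complex.ofReal_im, zero_mul, add_zero]
    rcases hα.eq_or_lt with h | h
    · have hb : β = 1 := by linarith
      rw [← h, hb]; linarith
    · have : α * z.im < 0 := mul_neg_of_pos_of_neg h h2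
      have : β * w.im ≤ 0 := mul_nonpos_of_nonneg_of_nonpos hβ h4.le
      linarith

lemma isOpen_quad : IsOpen quad :=
  (isOpen_lt Complex.continuous_re continuous_const).inter
    (isOpen_lt Complex.continuous_im continuous_const)

lemma corridor_EE (hconv : Convex ℝ S) (hne : S.Nonempty) {θ : ℝ} {b : ℂ}
    (h : ∀ z ∈ S, (Circle.exp (-θ) : ℂ) * z + b ∈ corridor) :
    ∃ s ∈ Icc 0 (π / 2), EE (supp S) s θ ≤ sin s + cos s := by
  set T : Set ℂ := (fun z => (Circle.exp (-θ) : ℂ) * z + b) '' S with hT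
  have hTc : Convex ℝ T := by
    intro x hx y hy α β hα hβ hαβ
    obtain ⟨z, hz, rfl⟩ := hx
    obtain ⟨w, hw, rfl⟩ := hy
    refine ⟨α • z + β • w, hconv hz hw hα hβ hαβ, ?_⟩
    simp only [Complex.real_smul]
    have : (α : ℂ) + β = 1 := by exact_mod_cast hαβ
    linear_combination (-b) * this
  have hdisj : Disjoint quad T := by
    rw [Set.disjoint_left]
    rintro x hx ⟨z, hz, rfl⟩
    rcases h z hz with h1 | h1
    · exact absurd h1.2.1 (not_le.mpr hx.2)
    · exact absurd h1.1 (not_le.mpr hx.1)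
  obtain ⟨f, u, hf1, hf2⟩ := geometric_hahn_banach_open convex_quad isOpen_quad hTc hdisj
  set A := f 1 with hA
  set B := f Complex.I with hB
  have hf : ∀ z : ℂ, f z = A * z.re + B * z.im := by
    intro z
    have : z = z.re • (1 : ℂ) + z.im • Complex.I := by
      apply Complex.ext <;> simp
    conv_lhs => rw [this]
    rw [map_add, map_smul, map_smul, smul_eq_mul, smul_eq_mul]
    ring
  have hq : ∀ x y : ℝ, 0 < x → 0 < y → -(A * x) - B * y < u := by
    intro x y hx hy
    have := hf1 ⟨-x, -y⟩ ⟨by simpa using hx, by simpa using hy⟩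
    rw [hf] at this
    simp only at this
    linarith
  have hA0 : 0 ≤ A := by
    by_contra hcon
    push Not at hcon
    have h1 : 0 < |u| + |B| + 1 := by positivity
    have h2 := hq ((|u| + |B| + 1) / (-A)) 1 (div_pos h1 (by linarith)) one_pos
    have hA' : A ≠ 0 := hcon.ne
    have h3 : -(A * ((|u| + |B| + 1) / (-A))) = |u| + |B| + 1 := by
      field_simp
    rw [h3] at h2
    have h4 := le_abs_self u
    have h5 := le_abs_self B
    linarith
  have hB0 : 0 ≤ B := by
    by_contra hcon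
    push Not at hcon
    have h1 : 0 < |u| + |A| + 1 := by positivity
    have h2 := hq 1 ((|u| + |A| + 1) / (-B)) one_pos (div_pos h1 (by linarith))
    have hB' : B ≠ 0 := hcon.ne
    have h3 : B * ((|u| + |A| + 1) / (-B)) = -(|u| + |A| + 1) := by
      field_simp
    rw [h3] at h2
    have h4 := le_abs_self u
    have h5 := le_abs_self A
    linarith
  have hu0 : 0 ≤ u := by
    by_contra hcon
    push Not at hcon
    have h1 : 0 < A + B + 1 := by linarith
    set ε := -u / (2 * (A + B + 1)) with hε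
    have hε0 : 0 < ε := div_pos (by linarith) (by linarith)
    have h2 := hq ε ε hε0 hε0
    have h3 : ε * (A + B + 1) = -u / 2 := by
      rw [hε]; field_simp
    nlinarith
  have hAB : 0 < A + B := by
    obtain ⟨z, hz⟩ := hne
    have h1 := hf2 _ (mem_image_of_mem _ hz)
    have h2 := hq 1 1 one_pos one_pos
    by_contra hcon
    push Not at hcon
    have hA' : A = 0 := by linarith
    have hB' : B = 0 := by linarith
    rw [hf, hA', hB'] at h1
    rw [hA', hB'] at h2
    simp at h1 h2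
    linarith
  -- the angle
  set c : ℂ := ⟨B, A⟩ with hc
  have hc0 : c ≠ 0 := by
    intro h0
    have h1 : B = 0 := by have := congrArg Complex.re h0; simpa [hc] using this
    have h2 : A = 0 := by have := congrArg Complex.im h0; simpa [hc] using this
    linarith
  have hn : 0 < ‖c‖ := norm_pos_iff.mpr hc0
  set s := Complex.arg c with hs
  have hcos : cos s = B / ‖c‖ := by rw [hs, Complex.cos_arg hc0]
  have hsin : sin s = A / ‖c‖ := by rw [hs, Complex.sin_arg]
  have hs0 : 0 ≤ s := Complex.arg_nonneg_iff.mpr hA0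
  have hs1 : s ≤ π / 2 := by
    have := Complex.abs_arg_le_pi_div_two_iff.mpr (show 0 ≤ c.re from hB0)
    exact (abs_le.mp this).2
  refine ⟨s, ⟨hs0, hs1⟩, ?_⟩
  apply EE_le_of_place hne (b1 := b.re) (b2 := b.im)
  · rw [hsin]; positivity
  · rw [hcos]; positivity
  · intro z hz
    have h1 : ((Circle.exp (-θ) : ℂ) * z + b).re ≤ 1 := by
      rcases h z hz with h1 | h1
      · exact h1.1
      · exact h1.2.1
    rw [exp_neg_mul] at h1
    simpa using h1
  · intro z hz
    have h1 : ((Circle.exp (-θ) : ℂ) * z + b).im ≤ 1 := by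
      rcases h z hz with h1 | h1
      · exact h1.2.2
      · exact h1.2.2
    rw [exp_neg_mul] at h1
    simpa using h1
  · intro z hz
    have h1 := hf2 _ (mem_image_of_mem _ hz)
    rw [hf, exp_neg_mul] at h1
    simp only [Complex.add_re, Complex.add_im] at h1
    rw [hsin, hcos]
    have h2 : A / ‖c‖ * (dot z θ + b.re) + B / ‖c‖ * (dot z (θ + π / 2) + b.im)
        = (A * (dot z θ + b.re) + B * (dot z (θ + π / 2) + b.im)) / ‖c‖ := by
      field_simp
    rw [h2]
    apply div_nonneg _ hn.le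
    linarith

/-- sine-convexity in the tilt variable -/
lemma EE_interval (hS : IsCompact S) (hne : S.Nonempty) {t s s1 s2 : ℝ} (h1 : 0 ≤ s1)
    (h2 : s2 ≤ π / 2) (h3 : s1 ≤ s) (h4 : s ≤ s2)
    (e1 : EE (supp S) s1 t ≤ sin s1 + cos s1) (e2 : EE (supp S) s2 t ≤ sin s2 + cos s2) :
    EE (supp S) s t ≤ sin s + cos s := by
  rcases (h3.trans h4).eq_or_lt with h | h
  · have : s = s1 := le_antisymm (by linarith) h3
    rw [this]; exact e1
  · have hπ := pi_pos
    have hd : 0 < sin (s2 - s1) := sin_pos_of_pos_of_lt_pi (by linarith) (by linarith)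
    set α := sin (s2 - s) / sin (s2 - s1) with hα
    set β := sin (s - s1) / sin (s2 - s1) with hβ
    have hα0 : 0 ≤ α := div_nonneg (sin_nonneg_of_nonneg_of_le_pi (by linarith) (by linarith)) hd.le
    have hβ0 : 0 ≤ β := div_nonneg (sin_nonneg_of_nonneg_of_le_pi (by linarith) (by linarith)) hd.le
    have es : sin s = α * sin s1 + β * sin s2 := by
      rw [hα, hβ, div_mul_eq_mul_div, div_mul_eq_mul_div, ← add_div, eq_div_iff hd.ne']
      rw [sin_sub, sin_sub, sin_sub]
      ring
    have ec : cos s = α * cos s1 + β * cos s2 := by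
      rw [hα, hβ, div_mul_eq_mul_div, div_mul_eq_mul_div, ← add_div, eq_div_iff hd.ne']
      rw [sin_sub, sin_sub, sin_sub]
      ring
    have e3 : supp S (3 * π / 2 + t - s) ≤ α * supp S (3 * π / 2 + t - s1)
        + β * supp S (3 * π / 2 + t - s2) := by
      apply supp_sublinear hS hne hα0 hβ0
      · rw [cos_sub, cos_sub, cos_sub, es, ec]; ring
      · rw [sin_sub, sin_sub, sin_sub, es, ec]; ring
    unfold EE at e1 e2 ⊢
    have e4 := mul_le_mul_of_nonneg_left e1 hα0
    have e5 := mul_le_mul_of_nonneg_left e2 hβ0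
    calc supp S t * sin s + supp S (t + π / 2) * cos s + supp S (3 * π / 2 + t - s)
        ≤ supp S t * sin s + supp S (t + π / 2) * cos s + (α * supp S (3 * π / 2 + t - s1)
        + β * supp S (3 * π / 2 + t - s2)) := by gcongr
      _ = α * (supp S t * sin s1 + supp S (t + π / 2) * cos s1 + supp S (3 * π / 2 + t - s1))
        + β * (supp S t * sin s2 + supp S (t + π / 2) * cos s2 + supp S (3 * π / 2 + t - s2)) := by
          rw [es, ec]; ring
      _ ≤ α * (sin s1 + cos s1) + β * (sin s2 + cos s2) := add_le_add e4 e5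
      _ = sin s + cos s := by rw [es, ec]; ring

lemma isClosed_exists_Icc {F : ℝ → ℝ → Prop} (hF : IsClosed {p : ℝ × ℝ | F p.1 p.2}) (x y : ℝ) :
    IsClosed {t : ℝ | ∃ s ∈ Icc x y, F s t} := by
  have h1 : IsClosedMap (Prod.snd : (Icc x y) × ℝ → ℝ) := isClosedMap_snd_of_compactSpace
  have h2 : IsClosed {p : (Icc x y) × ℝ | F p.1 p.2} :=
    hF.preimage (by fun_prop : Continuous (fun p : (Icc x y) × ℝ => ((p.1 : ℝ), p.2)))
  have h3 := h1 _ h2
  convert! h3 using 1
  ext t
  constructor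
  · rintro ⟨s, hs, h⟩
    exact ⟨(⟨s, hs⟩, t), h, rfl⟩
  · rintro ⟨⟨s, t'⟩, h, rfl⟩
    exact ⟨s, s.2, h⟩

lemma isClosed_EE (hS : IsCompact S) :
    IsClosed {p : ℝ × ℝ | EE (supp S) p.1 p.2 ≤ sin p.1 + cos p.1} :=
  isClosed_le (continuous_EE (continuous_supp hS)) (by fun_prop)

/-- Every tilt value occurs. -/
lemma exists_angle (hS : IsCompact S) (hne : S.Nonempty) {p q : ℝ}
    (hp : EE (supp S) 0 p ≤ sin 0 + cos 0)
    (hq : EE (supp S) (π / 2) q ≤ sin (π / 2) + cos (π / 2))
    (hall : ∀ t ∈ uIcc p q, ∃ s ∈ Icc 0 (π / 2), EE (supp S) s t ≤ sin s + cos s)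
    {s : ℝ} (hs : s ∈ Icc 0 (π / 2)) : ∃ t ∈ uIcc p q, EE (supp S) s t ≤ sin s + cos s := by
  have hF := isClosed_EE hS
  set U : Set ℝ := {t : ℝ | ∃ s' ∈ Icc 0 s, EE (supp S) s' t ≤ sin s' + cos s'} with hU
  set V : Set ℝ := {t : ℝ | ∃ s' ∈ Icc s (π / 2), EE (supp S) s' t ≤ sin s' + cos s'} with hV
  have hUc : IsClosed U :=
    isClosed_exists_Icc (F := fun s t => EE (supp S) s t ≤ sin s + cos s) hF 0 s
  have hVc : IsClosed V :=
    isClosed_exists_Icc (F := fun s t => EE (supp S) s t ≤ sin s + cos s) hF s (π / 2)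
  have hpre : IsPreconnected (uIcc p q) := isPreconnected_uIcc
  have hcov : uIcc p q ⊆ U ∪ V := by
    intro t ht
    obtain ⟨s', hs', h⟩ := hall t ht
    rcases le_total s' s with h1 | h1
    · left; exact ⟨s', ⟨hs'.1, h1⟩, h⟩
    · right; exact ⟨s', ⟨h1, hs'.2⟩, h⟩
  obtain ⟨t, ht, ⟨s1, hs1, e1⟩, ⟨s2, hs2, e2⟩⟩ := (isPreconnected_closed_iff.mp hpre) U V hUc hVc hcov
    ⟨p, left_mem_uIcc, ⟨0, ⟨le_rfl, hs.1⟩, hp⟩⟩ ⟨q, right_mem_uIcc, ⟨π / 2, ⟨hs.2, le_rfl⟩, hq⟩⟩
  exact ⟨t, ht, EE_interval hS hne hs1.1 hs2.2 hs1.2 hs2.1 e1 e2⟩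

/-- measurable choice of the angle -/
lemma exists_measurable (hS : IsCompact S) {x y : ℝ}
    (h : ∀ s ∈ Icc 0 (π / 2), ∃ t ∈ Icc x y, EE (supp S) s t ≤ sin s + cos s) :
    ∃ t : ℝ → ℝ, Measurable t ∧ (∀ s, t s ∈ Icc x y) ∧
      ∀ s ∈ Icc 0 (π / 2), EE (supp S) s (t s) ≤ sin s + cos s := by
  set cl : ℝ → ℝ := fun s => max 0 (min s (π / 2)) with hcl
  have hclc : Continuous cl := by fun_prop
  have hclm : ∀ s, cl s ∈ Icc 0 (π / 2) := fun s =>
    ⟨le_max_left _ _, max_le (by positivity) (min_le_right _ _)⟩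
  have hF : IsClosed {p : ℝ × ℝ | EE (supp S) (cl p.2) p.1 ≤ sin (cl p.2) + cos (cl p.2)} := by
    have h1 := isClosed_EE hS
    exact h1.preimage (by fun_prop : Continuous (fun p : ℝ × ℝ => (cl p.2, p.1)))
  set D : ℝ → Set ℝ := fun s => {t | t ∈ Icc x y ∧ EE (supp S) (cl s) t ≤ sin (cl s) + cos (cl s)}
    with hD
  have hDne : ∀ s, (D s).Nonempty := fun s => by
    obtain ⟨t, ht, h2⟩ := h (cl s) (hclm s)
    exact ⟨t, ht, h2⟩
  have hDc : ∀ s, IsCompact (D s) := fun s => by
    apply isCompact_Icc.inter_right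
    have h0 : Continuous (fun t : ℝ => (cl s, t)) := by fun_prop
    have : Continuous (fun t => EE (supp S) (cl s) t) :=
      Continuous.comp (g := fun p : ℝ × ℝ => EE (supp S) p.1 p.2) (f := fun t : ℝ => (cl s, t))
        (continuous_EE (continuous_supp hS)) h0
    exact isClosed_le this continuous_const
  refine ⟨fun s => sInf (D s), ?_, ?_, ?_⟩
  · apply measurable_of_Iic
    intro z
    have : (fun s => sInf (D s)) ⁻¹' Iic z = {s | ∃ t ∈ Icc x (min y z),
        EE (supp S) (cl s) t ≤ sin (cl s) + cos (cl s)} := by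
      ext s
      constructor
      · intro hs
        have h3 := (hDc s).sInf_mem (hDne s)
        exact ⟨sInf (D s), ⟨h3.1.1, le_min h3.1.2 hs⟩, h3.2⟩
      · rintro ⟨t, ht, h3⟩
        have h4 : t ∈ D s := ⟨⟨ht.1, ht.2.trans (min_le_left _ _)⟩, h3⟩
        exact (csInf_le (hDc s).bddBelow h4).trans (ht.2.trans (min_le_right _ _))
    rw [this]
    exact (isClosed_exists_Icc
      (F := fun t s => EE (supp S) (cl s) t ≤ sin (cl s) + cos (cl s)) hF x (min y z)).measurableSet
  · intro s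
    exact ((hDc s).sInf_mem (hDne s)).1
  · intro s hs
    have h3 := ((hDc s).sInf_mem (hDne s)).2
    have h4 : cl s = s := by
      simp only [hcl]
      rw [min_eq_left hs.2, max_eq_right hs.1]
    rw [h4] at h3
    exact h3

lemma EE_half_turn (t : ℝ) :
    EE (supp S) (π / 2) (t + π / 2) = EE (supp S) 0 t ∧
    EE (supp S) (π / 2) (t - π / 2) = EE (supp S) 0 t := by
  have hper := supp_periodic S
  unfold EE
  simp only [sin_pi_div_two, cos_pi_div_two, sin_zero, cos_zero, mul_one, mul_zero, add_zero,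
    zero_add, sub_zero]
  constructor
  · congr 2; ring
  · have e1 : supp S (t - π / 2) = supp S (3 * π / 2 + t) := by
      rw [← hper (t - π / 2)]; congr 1; ring
    have e2 : supp S (3 * π / 2 + (t - π / 2) - π / 2) = supp S (t + π / 2) := by
      congr 1; ring
    rw [e1, e2]; ring

/-- **Selection.** -/
theorem selection (hS : IsCompact S) (hconv : Convex ℝ S) (hne : S.Nonempty) (hm : CanMove S) :
    ∃ t : ℝ → ℝ, Measurable t ∧ (∀ s s', |t s' - t s| ≤ π / 2) ∧
      ∀ s ∈ Icc 0 (π / 2), EE (supp S) s (t s) ≤ sin s + cos s := by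
  obtain ⟨c, b, hc, hb, hcor, hH, hV⟩ := hm
  -- lift the path of rotations
  obtain ⟨e, he⟩ : ∃ e : ℝ, Circle.exp e = c 0 := Circle.exp_surjective (c 0)
  obtain ⟨Γ, hΓ1, hΓ2⟩ := Circle.isCoveringMap_exp.exists_path_lifts ⟨c, hc⟩ e he.symm
  have hlift : ∀ t, Circle.exp (Γ t) = c t := fun t => congrFun hΓ1 t
  set θ : unitInterval → ℝ := fun t => - Γ t with hθ
  have hθc : Continuous θ := Γ.continuous.neg
  have hexp : ∀ t, Circle.exp (-(θ t)) = c t := by
    intro t; simp only [hθ, neg_neg]; exact hlift t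
  have hH' : EE (supp S) 0 (θ 0) ≤ sin 0 + cos 0 := by
    apply armH_EE hne (b := b 0)
    intro z hz
    rw [hexp]; exact hH z hz
  have hV' : EE (supp S) (π / 2) (θ 1) ≤ sin (π / 2) + cos (π / 2) := by
    apply armV_EE hne (b := b 1)
    intro z hz
    rw [hexp]; exact hV z hz
  have hall : ∀ x ∈ uIcc (θ 0) (θ 1), ∃ s ∈ Icc 0 (π / 2), EE (supp S) s x ≤ sin s + cos s := by
    intro x hx
    have h1 : x ∈ range θ := by
      have h2 : IsPreconnected (range θ) := isPreconnected_range hθc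
      exact h2.ordConnected.uIcc_subset (mem_range_self 0) (mem_range_self 1) hx
    obtain ⟨t, rfl⟩ := h1
    apply corridor_EE hconv hne (b := b t)
    intro z hz
    rw [hexp]; exact hcor t z hz
  -- choose the second end point
  obtain ⟨q, hq1, hq2, hq3⟩ : ∃ q : ℝ, |q - θ 0| ≤ π / 2 ∧ uIcc (θ 0) q ⊆ uIcc (θ 0) (θ 1) ∧
      EE (supp S) (π / 2) q ≤ sin (π / 2) + cos (π / 2) := by
    rcases le_or_gt (|θ 1 - θ 0|) (π / 2) with h | h
    · exact ⟨θ 1, h, Subset.rfl, hV'⟩
    · rcases le_total (θ 0) (θ 1) with h1 | h1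
      · rw [abs_of_nonneg (by linarith)] at h
        refine ⟨θ 0 + π / 2, ?_, ?_, ?_⟩
        · rw [add_sub_cancel_left, abs_of_nonneg (by positivity)]
        · apply uIcc_subset_uIcc left_mem_uIcc
          rw [uIcc_of_le h1]
          exact ⟨by linarith [pi_pos], by linarith⟩
        · rw [(EE_half_turn (θ 0)).1]
          simpa using hH'
      · rw [abs_of_nonpos (by linarith)] at h
        refine ⟨θ 0 - π / 2, ?_, ?_, ?_⟩
        · have : θ 0 - π / 2 - θ 0 = -(π / 2) := by ring
          rw [this, abs_neg, abs_of_nonneg (by positivity)]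
        · apply uIcc_subset_uIcc left_mem_uIcc
          rw [uIcc_of_ge h1]
          exact ⟨by linarith, by linarith [pi_pos]⟩
        · rw [(EE_half_turn (θ 0)).2]
          simpa using hH'
  have hex : ∀ s ∈ Icc 0 (π / 2), ∃ t ∈ Icc (min (θ 0) q) (max (θ 0) q),
      EE (supp S) s t ≤ sin s + cos s := by
    intro s hs
    exact exists_angle hS hne hH' hq3 (fun t ht => hall t (hq2 ht)) hs
  obtain ⟨t, ht1, ht2, ht3⟩ := exists_measurable hS hex
  refine ⟨t, ht1, fun s s' => ?_, ht3⟩
  have h1 := ht2 s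
  have h2 := ht2 s'
  have h3 : max (θ 0) q - min (θ 0) q = |q - θ 0| := by
    rw [max_sub_min_eq_abs]
  rw [abs_le]
  constructor <;> linarith [h1.1, h1.2, h2.1, h2.2]

end

end Pool.Agent.MP_3737e1_gt
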