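import Mathlib
import Pool.Agent.MP_3737e1_gt.Selection
import Pool.Agent.MP_3737e1_gt.Rigid
import Pool.Agent.MP_3737e1_gt.Move

namespace Pool.Agent.MP_3737e1_gt

open MeasureTheory Set Real Filter Topology

noncomputable section

variable {S : Set ℂ} {τ a : ℝ}

lemma continuous_rig (c : Circle) (b : ℂ) : Continuous (rig c b) := by
  unfold rig; fun_prop

lemma circle_inv_mul (c : Circle) (z : ℂ) : ((c⁻¹ : Circle) : ℂ) * ((c : ℂ) * z) = z := by
  rw [← mul_assoc, ← Circle.coe_mul, inv_mul_cancel, Circle.coe_one, one_mul]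

lemma circle_mul_inv (c : Circle) (z : ℂ) : (c : ℂ) * (((c⁻¹ : Circle) : ℂ) * z) = z := by
  rw [← mul_assoc, ← Circle.coe_mul, mul_inv_cancel, Circle.coe_one, one_mul]

lemma rig_injective (c : Circle) (b : ℂ) : Function.Injective (rig c b) := by
  intro z w h
  unfold rig at h
  have h1 := add_right_cancel h
  have h2 := congrArg (fun x => ((c⁻¹ : Circle) : ℂ) * x) h1
  simpa only [circle_inv_mul] using h2

lemma rig_image_eq_preimage (c : Circle) (b : ℂ) (S : Set ℂ) :
    rig c b '' S = rig c⁻¹ (-(((c⁻¹ : Circle) : ℂ) * b)) ⁻¹' S := by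
  ext z
  constructor
  · rintro ⟨w, hw, rfl⟩
    simp only [mem_preimage, rig, mul_add, circle_inv_mul, add_neg_cancel_right]
    exact hw
  · intro hz
    refine ⟨_, hz, ?_⟩
    simp only [rig, mul_add, circle_mul_inv, mul_neg]
    ring

lemma convex_rig (c : Circle) (b : ℂ) (hS : Convex ℝ S) : Convex ℝ (rig c b '' S) := by
  intro x hx y hy α β hα hβ hαβ
  obtain ⟨z, hz, rfl⟩ := hx
  obtain ⟨w, hw, rfl⟩ := hy
  refine ⟨α • z + β • w, hS hz hw hα hβ hαβ, ?_⟩
  simp only [Complex.real_smul, rig]
  have : (α : ℂ) + β = 1 := by exact_mod_cast hαβ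
  linear_combination (-b) * this

lemma compact_rig (c : Circle) (b : ℂ) (hS : IsCompact S) : IsCompact (rig c b '' S) :=
  hS.image (continuous_rig c b)

lemma volume_rig (c : Circle) (b : ℂ) (hS : IsCompact S) : volume (rig c b '' S) = volume S := by
  have h1 : rig c b '' S = (fun z => z + (-b)) ⁻¹' ((rotation c⁻¹) ⁻¹' S) := by
    rw [rig_image_eq_preimage]
    ext z
    simp only [mem_preimage, rig, rotation_apply, mul_add, mul_neg]
  have h2 : MeasurableSet ((rotation c⁻¹) ⁻¹' S) :=
    (hS.isClosed.preimage (rotation c⁻¹).continuous).measurableSet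
  rw [h1, measure_preimage_add_right,
    ((rotation c⁻¹).measurePreserving).measure_preimage hS.measurableSet.nullMeasurableSet]

lemma rig_comp_inv (c c' : Circle) (b b' z : ℂ) :
    rig (c' * c⁻¹) (b' - (c' : ℂ) * (((c⁻¹ : Circle) : ℂ) * b)) (rig c b z) = rig c' b' z := by
  have e := circle_inv_mul c z
  unfold rig
  rw [Circle.coe_mul, mul_add, mul_assoc, e]
  ring

lemma canMove_rig (c : Circle) (b : ℂ) (hS : CanMove S) : CanMove (rig c b '' S) := by
  obtain ⟨c', b', hc, hb, h1, h2, h3⟩ := hS
  refine ⟨fun t => c' t * c⁻¹, fun t => b' t - (c' t : ℂ) * (((c⁻¹ : Circle) : ℂ) * b),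
    hc.mul continuous_const, ?_, ?_, ?_, ?_⟩
  · have : Continuous (fun t => (c' t : ℂ)) := continuous_subtype_val.comp hc
    fun_prop
  · rintro t _ ⟨z, hz, rfl⟩
    simp only
    rw [rig_comp_inv]; exact h1 t z hz
  · rintro _ ⟨z, hz, rfl⟩
    simp only
    rw [rig_comp_inv]; exact h2 z hz
  · rintro _ ⟨z, hz, rfl⟩
    simp only
    rw [rig_comp_inv]; exact h3 z hz

/-- `z ∈ S` iff all support inequalities hold -/
lemma mem_iff_dot_le (hS : IsCompact S) (hconv : Convex ℝ S) (hne : S.Nonempty) (z : ℂ) :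
    z ∈ S ↔ ∀ x, dot z x ≤ supp S x := by
  constructor
  · intro hz x
    exact dot_le_supp hS hz x
  · intro h
    by_contra hz
    obtain ⟨f, u, hf1, hf2⟩ := geometric_hahn_banach_closed_point hconv hS.isClosed hz
    set A := f 1 with hA
    set B := f Complex.I with hB
    have hf : ∀ z : ℂ, f z = A * z.re + B * z.im := by
      intro z
      have : z = z.re • (1 : ℂ) + z.im • Complex.I := by
        apply Complex.ext <;> simp
      conv_lhs => rw [this]
      rw [map_add, map_smul, map_smul, smul_eq_mul, smul_eq_mul]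
      ring
    set c : ℂ := ⟨A, B⟩ with hc
    have hc0 : c ≠ 0 := by
      intro h0
      have h1 : A = 0 := by have := congrArg Complex.re h0; simpa [hc] using this
      have h2 : B = 0 := by have := congrArg Complex.im h0; simpa [hc] using this
      obtain ⟨w, hw⟩ := hne
      have h3 := hf1 w hw
      rw [hf, h1, h2] at h3
      rw [hf, h1, h2] at hf2
      simp at h3 hf2
      linarith
    have hn : 0 < ‖c‖ := norm_pos_iff.mpr hc0
    have hcos : cos (Complex.arg c) = A / ‖c‖ := by rw [Complex.cos_arg hc0]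
    have hsin : sin (Complex.arg c) = B / ‖c‖ := by rw [Complex.sin_arg]
    have hdot : ∀ w, dot w (Complex.arg c) = f w / ‖c‖ := by
      intro w
      unfold dot
      rw [hcos, hsin, hf]
      field_simp
    have h1 := h (Complex.arg c)
    have h2 : supp S (Complex.arg c) ≤ u / ‖c‖ := by
      apply supp_le hne
      intro w hw
      rw [hdot]
      exact div_le_div_of_nonneg_right (hf1 w hw).le hn.le
    rw [hdot] at h1
    have h3 : u / ‖c‖ < f z / ‖c‖ := div_lt_div_of_pos_right hf2 hn
    linarith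

/-- all the data needed for the analytic theorems -/
lemma prepare (hS : IsCompact S) (hconv : Convex ℝ S) (h0 : (0 : ℂ) ∈ interior S)
    (hm : CanMove S) (P : Params τ a) :
    Continuous (supp S) ∧ Function.Periodic (supp S) (2 * π) ∧ 0 ≤ a0 (supp S) ∧
    AreaBound (supp S) (volume S).toReal ∧ (∃ C, ∀ x, |supp S x| ≤ C) ∧
    ∃ t : ℝ → ℝ, Measurable t ∧ (∀ s s', |t s' - t s| ≤ π / 2) ∧
      ∀ s ∈ Icc τ (π / 2 - τ), EE (supp S) s (t s) ≤ sin s + cos s := by
  have hne : S.Nonempty := ⟨0, interior_subset h0⟩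
  refine ⟨continuous_supp hS, supp_periodic S, ?_, ?_, ?_, ?_⟩
  · unfold a0
    apply mul_nonneg (by positivity)
    apply intervalIntegral.integral_nonneg (by positivity)
    intro x _
    exact (supp_pos hS h0 x).le
  · intro n hn
    exact area_integral hS h0 hn
  · obtain ⟨R, hR⟩ := hS.isBounded.exists_norm_le
    refine ⟨R, fun x => ?_⟩
    rw [abs_of_pos (supp_pos hS h0 x)]
    apply supp_le hne
    intro z hz
    have h1 : dot z x ≤ ‖z‖ := by
      have h2 : dot z x = (((Circle.exp (-x) : Circle) : ℂ) * z).re := by rw [exp_neg_mul]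
      rw [h2]
      calc _ ≤ ‖((Circle.exp (-x) : Circle) : ℂ) * z‖ := Complex.re_le_norm _
        _ = ‖z‖ := by rw [norm_mul, Circle.norm_coe, one_mul]
    exact h1.trans (hR z hz)
  · obtain ⟨t, h1, h2, h3⟩ := selection hS hconv hne hm
    exact ⟨t, h1, h2, fun s hs => h3 s (P.mem_range hs)⟩

lemma interior_rig_zero {z0 : ℂ} (h : z0 ∈ interior S) :
    (0 : ℂ) ∈ interior (rig 1 (-z0) '' S) := by
  rw [rig_image_eq_preimage]
  have hc := continuous_rig (1⁻¹) (-((((1 : Circle)⁻¹ : Circle) : ℂ) * -z0))
  apply preimage_interior_subset_interior_preimage hc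
  simp only [mem_preimage, rig]
  simpa using h

/-- **Upper bound for the area.** -/
theorem area_le_areaVal (P : Params τ a) (hS : IsCompact S) (hconv : Convex ℝ S)
    (hm : CanMove S) : (volume S).toReal ≤ areaVal τ a := by
  by_cases hint : (interior S).Nonempty
  · obtain ⟨z0, hz0⟩ := hint
    have hS' := compact_rig 1 (-z0) hS
    obtain ⟨h1, h2, h3, h4, h5, t, h6, h7, h8⟩ := prepare hS' (convex_rig 1 (-z0) hconv)
      (interior_rig_zero hz0) (canMove_rig 1 (-z0) hm) P
    rw [volume_rig 1 (-z0) hS] at h4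
    exact area_le P h1 h2 h3 h4 h6 h7 h8 h5
  · rw [not_nonempty_iff_eq_empty] at hint
    have h1 : volume S = 0 := by
      have h2 : S ⊆ frontier S := by
        rw [hS.isClosed.frontier_eq, hint, sdiff_empty]
      exact measure_mono_null h2 (hconv.addHaar_frontier volume)
    rw [h1]
    simpa using (areaVal_pos P).le

theorem area_sofa (P : Params τ a) : (volume (sofa τ a)).toReal = areaVal τ a := by
  apply le_antisymm
  · exact area_le_areaVal P (isCompact_sofa P) (convex_sofa P) P.canMove
  · have h1 := P.area_ge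
    have h2 : volume (sofa τ a) ≠ ⊤ := (isCompact_sofa P).measure_lt_top.ne
    have h3 := ENNReal.toReal_mono h2 h1
    rwa [ENNReal.toReal_ofReal (areaVal_pos P).le] at h3

lemma interior_nonempty_of_area (P : Params τ a) (hS : IsCompact S) (hconv : Convex ℝ S)
    (hA : (volume S).toReal = areaVal τ a) : (interior S).Nonempty := by
  by_contra hint
  rw [not_nonempty_iff_eq_empty] at hint
  have h1 : volume S = 0 := by
    have h2 : S ⊆ frontier S := by
      rw [hS.isClosed.frontier_eq, hint, sdiff_empty]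
    exact measure_mono_null h2 (hconv.addHaar_frontier volume)
  rw [h1] at hA
  have := areaVal_pos P
  simp at hA
  linarith

/-- the support function of a maximiser is determined up to rotation and translation -/
lemma maximiser_support (P : Params τ a) (hS : IsCompact S) (hconv : Convex ℝ S)
    (hm : CanMove S) (hA : (volume S).toReal = areaVal τ a) :
    ∃ (δ : ℝ) (w : ℂ), ∀ x : ℝ, (supp S x : ℂ) = GG τ a (x - δ) + (dot w x : ℂ) := by
  obtain ⟨z0, hz0⟩ := interior_nonempty_of_area P hS hconv hA
  have hne : S.Nonempty := ⟨z0, interior_subset hz0⟩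
  have hS' := compact_rig 1 (-z0) hS
  obtain ⟨h1, h2, h3, h4, h5, t, h6, h7, h8⟩ := prepare hS' (convex_rig 1 (-z0) hconv)
    (interior_rig_zero hz0) (canMove_rig 1 (-z0) hm) P
  rw [volume_rig 1 (-z0) hS, hA] at h4
  obtain ⟨δ, w, h9⟩ := rigid P h1 h2 h3 h4 h6 h7 h8 h5
  refine ⟨δ, w + z0, fun x => ?_⟩
  have h10 : supp S x = supp (rig 1 (-z0) '' S) x + dot z0 x := by
    apply le_antisymm
    · apply supp_le hne
      intro z hz
      have h11 := dot_le_supp hS' (mem_image_of_mem (rig 1 (-z0)) hz) x
      have h12 : dot (rig 1 (-z0) z) x = dot z x - dot z0 x := by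
        unfold dot rig; simp; ring
      linarith
    · have h13 : supp (rig 1 (-z0) '' S) x ≤ supp S x - dot z0 x := by
        apply supp_le (hne.image _)
        rintro _ ⟨z, hz, rfl⟩
        have h11 := dot_le_supp hS hz x
        have h12 : dot (rig 1 (-z0) z) x = dot z x - dot z0 x := by
          unfold dot rig; simp; ring
        linarith
      linarith
  rw [h10]
  push_cast
  rw [h9 x]
  have h14 : dot (w + z0) x = (w.re * cos x + w.im * sin x) + dot z0 x := by
    unfold dot; simp; ring
  rw [h14]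
  push_cast
  ring

lemma dot_exp_mul (w : ℂ) (β x : ℝ) : dot ((Circle.exp β : ℂ) * w) x = dot w (x - β) := by
  rw [Circle.coe_exp]
  have e : Complex.exp ((β : ℝ) * Complex.I) = ⟨cos β, sin β⟩ := by
    apply Complex.ext
    · rw [Complex.exp_ofReal_mul_I_re]
    · rw [Complex.exp_ofReal_mul_I_im]
  rw [e]
  unfold dot
  rw [cos_sub, sin_sub]
  simp
  ring

/-- **Uniqueness of the maximiser** up to orientation-preserving rigid motions. -/
theorem unique_maximiser (P : Params τ a) (hS : IsCompact S) (hconv : Convex ℝ S)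
    (hm : CanMove S) (hA : (volume S).toReal = areaVal τ a) :
    ∃ (c : Circle) (b : ℂ), S = rig c b '' (sofa τ a) := by
  obtain ⟨δ1, w1, h1⟩ := maximiser_support P hS hconv hm hA
  obtain ⟨δ2, w2, h2⟩ := maximiser_support P (isCompact_sofa P) (convex_sofa P) P.canMove
    (area_sofa P)
  obtain ⟨z0, hz0⟩ := interior_nonempty_of_area P hS hconv hA
  have hne : S.Nonempty := ⟨z0, interior_subset hz0⟩
  obtain ⟨z1, hz1⟩ := interior_nonempty_of_area P (isCompact_sofa P) (convex_sofa P) (area_sofa P)
  have hne1 : (sofa τ a).Nonempty := ⟨z1, interior_subset hz1⟩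
  set β := δ1 - δ2 with hβ
  set w' := w1 - (Circle.exp β : ℂ) * w2 with hw'
  have h3 : ∀ x, supp S x = supp (sofa τ a) (x - β) + dot w' x := by
    intro x
    have e1 := h1 x
    have e2 := h2 (x - β)
    have e3 : x - β - δ2 = x - δ1 := by rw [hβ]; ring
    rw [e3] at e2
    have e4 : dot w' x = dot w1 x - dot w2 (x - β) := by
      rw [← dot_exp_mul]
      simp only [hw', dot, Complex.sub_re, Complex.sub_im]
      ring
    rw [e4]
    have e5 : (supp S x : ℂ) = ((supp (sofa τ a) (x - β) + (dot w1 x - dot w2 (x - β)) : ℝ) : ℂ) := by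
      rw [e1]
      push_cast
      rw [e2]
      ring
    exact_mod_cast e5
  refine ⟨Circle.exp β, w', ?_⟩
  ext z
  rw [mem_iff_dot_le hS hconv hne]
  constructor
  · intro h
    refine ⟨((Circle.exp β)⁻¹ : Circle) * (z - w'), ?_, ?_⟩
    · rw [mem_iff_dot_le (isCompact_sofa P) (convex_sofa P) hne1]
      intro y
      have h4 := h (y + β)
      rw [h3, add_sub_cancel_right] at h4
      have h5 : dot ((((Circle.exp β)⁻¹ : Circle) : ℂ) * (z - w')) y
          = dot (z - w') (y + β) := by
        have := dot_exp_mul ((((Circle.exp β)⁻¹ : Circle) : ℂ) * (z - w')) β (y + β)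
        rw [circle_mul_inv, add_sub_cancel_right] at this
        exact this.symm
      rw [h5]
      have h6 : dot (z - w') (y + β) = dot z (y + β) - dot w' (y + β) := by
        unfold dot; simp; ring
      rw [h6]; linarith
    · unfold rig
      rw [circle_mul_inv]; ring
  · rintro ⟨y, hy, rfl⟩ x
    rw [h3]
    have h4 := dot_le_supp (isCompact_sofa P) hy (x - β)
    have h5 : dot (rig (Circle.exp β) w' y) x = dot y (x - β) + dot w' x := by
      rw [← dot_exp_mul]
      unfold dot rig; simp; ring
    rw [h5]; linarith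

end

end Pool.Agent.MP_3737e1_gt
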