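import Mathlib
import Pool.Agent.MP_3737e1_gt.Curve

namespace Pool.Agent.MP_3737e1_gt

open Set Real

noncomputable section

lemma exists_tau : ∃ τ ∈ Ioo 0 (π / 8), TauEq τ := by
  set f : ℝ → ℝ := fun x =>
    (π / 4 - x) * (cos x ^ 3 - sin x ^ 3) - cos x * (cos (2 * x) - sin (2 * x)) with hf
  have hc : ContinuousOn f (Icc 0 (π / 8)) := by
    apply Continuous.continuousOn; fun_prop
  have h0 : f 0 < 0 := by
    simp only [hf]
    simp
    linarith [pi_lt_four]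
  have h1 : 0 < f (π / 8) := by
    simp only [hf]
    have e : 2 * (π / 8) = π / 4 := by ring
    rw [e, cos_pi_div_four, sin_pi_div_four, sub_self, mul_zero, sub_zero]
    have h2 : sin (π / 8) < cos (π / 8) := by
      rw [← Real.cos_pi_div_two_sub]
      apply Real.cos_lt_cos_of_nonneg_of_le_pi
      · positivity
      · linarith [pi_pos]
      · linarith [pi_pos]
    have h3 : 0 < sin (π / 8) := sin_pos_of_pos_of_lt_pi (by positivity) (by linarith [pi_pos])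
    have h4 : sin (π / 8) ^ 3 < cos (π / 8) ^ 3 := pow_lt_pow_left₀ h2 h3.le (by norm_num)
    apply mul_pos (by linarith [pi_pos]) (by linarith)
  have h2 := intermediate_value_Ioo (by positivity : (0 : ℝ) ≤ π / 8) hc
  obtain ⟨τ, hτ, h3⟩ := h2 ⟨h0, h1⟩
  refine ⟨τ, hτ, ?_⟩
  unfold TauEq
  simp only [hf] at h3
  linarith

lemma hasDerivAt_phi {u : ℝ} (hu : u ∈ Ioo (0 : ℝ) 1) :
    HasDerivAt (fun u : ℝ => π / 4 - arctan u - (1 - 2 * u - u ^ 2) / (1 - u ^ 3))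
      (-(1 / (1 + u ^ 2)) + (2 + 2 * u - 3 * u ^ 2 + 4 * u ^ 3 + u ^ 4) / (1 - u ^ 3) ^ 2) u := by
  have h0 : 1 - u ^ 3 ≠ 0 := by
    have : u ^ 3 < 1 := pow_lt_one₀ hu.1.le hu.2 (by norm_num)
    linarith
  have h1 : HasDerivAt (fun u : ℝ => 1 - 2 * u - u ^ 2) (-2 - 2 * u) u := by
    have := (((hasDerivAt_id u).const_mul 2).const_sub 1).sub ((hasDerivAt_id u).pow 2)
    exact this.congr_deriv (by simp)
  have h2 : HasDerivAt (fun u : ℝ => 1 - u ^ 3) (-(3 * u ^ 2)) u := by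
    have := ((hasDerivAt_id u).pow 3).const_sub 1
    exact this.congr_deriv (by simp)
  have h3 := ((hasDerivAt_arctan u).const_sub (π / 4)).sub (h1.div h2 h0)
  refine h3.congr_deriv ?_
  field_simp
  ring

lemma strictMono_phi : StrictMonoOn
    (fun u : ℝ => π / 4 - arctan u - (1 - 2 * u - u ^ 2) / (1 - u ^ 3)) (Ioo 0 1) := by
  apply strictMonoOn_of_deriv_pos (convex_Ioo _ _)
  · intro u hu
    exact (hasDerivAt_phi hu).continuousAt.continuousWithinAt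
  · intro u hu
    rw [interior_Ioo] at hu
    rw [(hasDerivAt_phi hu).deriv]
    obtain ⟨h0, h1⟩ := hu
    have h2 : 0 < u ^ 3 := by positivity
    have h3 : u ^ 3 < 1 := pow_lt_one₀ h0.le h1 (by norm_num)
    have h4 : 0 < (1 - u ^ 3) ^ 2 := by
      have : 0 < 1 - u ^ 3 := by linarith
      positivity
    have h5 : (1 - u ^ 3) ^ 2 ≤ 1 := by nlinarith
    have h6 : 2 ≤ 2 + 2 * u - 3 * u ^ 2 + 4 * u ^ 3 + u ^ 4 := by
      have : 0 ≤ u * (2 - 3 * u + 4 * u ^ 2) := by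
        apply mul_nonneg h0.le; nlinarith [sq_nonneg (u - 3 / 8)]
      have : 0 ≤ u ^ 4 := by positivity
      nlinarith
    have h7 : 2 ≤ (2 + 2 * u - 3 * u ^ 2 + 4 * u ^ 3 + u ^ 4) / (1 - u ^ 3) ^ 2 := by
      rw [le_div_iff₀ h4]; nlinarith
    have h8 : 1 / (1 + u ^ 2) ≤ 1 := by
      rw [div_le_one (by positivity)]; nlinarith [sq_nonneg u]
    linarith

lemma phi_of_tau {τ : ℝ} (hτ : τ ∈ Ioo 0 (π / 4)) (h : TauEq τ) :
    tan τ ∈ Ioo (0 : ℝ) 1 ∧
      π / 4 - arctan (tan τ) - (1 - 2 * tan τ - tan τ ^ 2) / (1 - tan τ ^ 3) = 0 := by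
  obtain ⟨h0, h1⟩ := hτ
  have hπ := pi_pos
  have hc : 0 < cos τ := cos_pos_of_mem_Ioo ⟨by linarith, by linarith⟩
  have hs : 0 < sin τ := sin_pos_of_pos_of_lt_pi h0 (by linarith)
  have hsc : sin τ < cos τ := by
    rw [← Real.cos_pi_div_two_sub]
    apply Real.cos_lt_cos_of_nonneg_of_le_pi
    · linarith
    · linarith
    · linarith
  have ht : tan τ = sin τ / cos τ := tan_eq_sin_div_cos τ
  have ht0 : 0 < tan τ := by rw [ht]; positivity
  have ht1 : tan τ < 1 := by rw [ht, div_lt_one hc]; exact hsc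
  refine ⟨⟨ht0, ht1⟩, ?_⟩
  have h3 : tan τ ^ 3 < 1 := pow_lt_one₀ ht0.le ht1 (by norm_num)
  have h4 : 1 - tan τ ^ 3 ≠ 0 := by linarith
  rw [arctan_tan (by linarith) (by linarith)]
  unfold TauEq at h
  rw [cos_two_mul, sin_two_mul] at h
  have e1 : (π / 4 - τ) * (1 - tan τ ^ 3) = 1 - 2 * tan τ - tan τ ^ 2 := by
    have e2 : (π / 4 - τ) * (1 - tan τ ^ 3) * cos τ ^ 3
        = (1 - 2 * tan τ - tan τ ^ 2) * cos τ ^ 3 := by
      rw [ht]
      field_simp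
      have q := sin_sq_add_cos_sq τ
      linear_combination 4 * h + 4 * (cos τ) * q
    exact mul_right_cancel₀ (by positivity) e2
  field_simp
  linarith

lemma tau_unique {τ τ' : ℝ} (hτ : τ ∈ Ioo 0 (π / 4)) (h : TauEq τ) (hτ' : τ' ∈ Ioo 0 (π / 4))
    (h' : TauEq τ') : τ = τ' := by
  obtain ⟨h1, h2⟩ := phi_of_tau hτ h
  obtain ⟨h1', h2'⟩ := phi_of_tau hτ' h'
  have h3 : tan τ = tan τ' := strictMono_phi.injOn h1 h1' (by
    show (π / 4 - arctan (tan τ) - (1 - 2 * tan τ - tan τ ^ 2) / (1 - tan τ ^ 3))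
      = (π / 4 - arctan (tan τ') - (1 - 2 * tan τ' - tan τ' ^ 2) / (1 - tan τ' ^ 3))
    rw [h2, h2'])
  have h4 := arctan_tan (x := τ) (by linarith [hτ.1, pi_pos]) (by linarith [hτ.2, pi_pos])
  have h5 := arctan_tan (x := τ') (by linarith [hτ'.1, pi_pos]) (by linarith [hτ'.2, pi_pos])
  rw [← h4, ← h5, h3]

end

end Pool.Agent.MP_3737e1_gt
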