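import Mathlib
import Pool.Agent.MP_3737e1_gt.Tau

namespace Pool.Agent.MP_3737e1_gt

open Set Real

noncomputable section

lemma le_of_deriv_le {f g f' g' : ℝ → ℝ} (h0 : f 0 = g 0) (hf : ∀ x, HasDerivAt f (f' x) x)
    (hg : ∀ x, HasDerivAt g (g' x) x) (hle : ∀ x, 0 ≤ x → f' x ≤ g' x) {x : ℝ} (hx : 0 ≤ x) :
    f x ≤ g x := by
  have hd : ∀ y, HasDerivAt (fun y => g y - f y) (g' y - f' y) y := fun y => (hg y).sub (hf y)
  have hm : MonotoneOn (fun y => g y - f y) (Ici 0) := by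
    apply monotoneOn_of_deriv_nonneg (convex_Ici 0)
    · exact fun y _ => (hd y).continuousAt.continuousWithinAt
    · exact fun y _ => (hd y).differentiableAt.differentiableWithinAt
    · intro y hy
      rw [interior_Ici] at hy
      rw [(hd y).deriv]
      have := hle y (le_of_lt hy)
      linarith
  have h1 := hm (mem_Ici.mpr le_rfl) (mem_Ici.mpr hx) hx
  simp only at h1
  linarith

lemma sin_lower3 {x : ℝ} (hx : 0 ≤ x) : x - x ^ 3 / 6 ≤ sin x := by
  rcases hx.eq_or_lt with h | h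
  · rw [← h]; simp
  · exact (sin_gt_sub_cube h).le

lemma cos_upper4 {x : ℝ} (hx : 0 ≤ x) : cos x ≤ 1 - x ^ 2 / 2 + x ^ 4 / 24 := by
  refine le_of_deriv_le (f := cos) (g := fun x => 1 - x ^ 2 / 2 + x ^ 4 / 24)
    (f' := fun x => -sin x) (g' := fun x => -(x - x ^ 3 / 6)) (by simp)
    (fun y => hasDerivAt_cos y) (fun y => ?_) (fun y hy => ?_) hx
  · have := (((hasDerivAt_id y).pow 2).div_const 2).const_sub 1 |>.add
      (((hasDerivAt_id y).pow 4).div_const 24)
    exact this.congr_deriv (by simp; ring)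
  · have := sin_lower3 hy
    linarith

lemma sin_upper5 {x : ℝ} (hx : 0 ≤ x) : sin x ≤ x - x ^ 3 / 6 + x ^ 5 / 120 := by
  refine le_of_deriv_le (f := sin) (g := fun x => x - x ^ 3 / 6 + x ^ 5 / 120)
    (f' := cos) (g' := fun x => 1 - x ^ 2 / 2 + x ^ 4 / 24) (by simp)
    (fun y => hasDerivAt_sin y) (fun y => ?_) (fun y hy => ?_) hx
  · have := ((hasDerivAt_id y).sub (((hasDerivAt_id y).pow 3).div_const 6)).add
      (((hasDerivAt_id y).pow 5).div_const 120)
    exact this.congr_deriv (by simp; ring)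
  · exact cos_upper4 hy

lemma cos_lower6 {x : ℝ} (hx : 0 ≤ x) : 1 - x ^ 2 / 2 + x ^ 4 / 24 - x ^ 6 / 720 ≤ cos x := by
  refine le_of_deriv_le (g := cos) (f := fun x => 1 - x ^ 2 / 2 + x ^ 4 / 24 - x ^ 6 / 720)
    (g' := fun x => -sin x) (f' := fun x => -(x - x ^ 3 / 6 + x ^ 5 / 120)) (by simp)
    (fun y => ?_) (fun y => hasDerivAt_cos y) (fun y hy => ?_) hx
  · have := ((((hasDerivAt_id y).pow 2).div_const 2).const_sub 1 |>.add
      (((hasDerivAt_id y).pow 4).div_const 24)).sub (((hasDerivAt_id y).pow 6).div_const 720)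
    exact this.congr_deriv (by simp; ring)
  · have := sin_upper5 hy
    linarith

lemma sin_lower7 {x : ℝ} (hx : 0 ≤ x) : x - x ^ 3 / 6 + x ^ 5 / 120 - x ^ 7 / 5040 ≤ sin x := by
  refine le_of_deriv_le (g := sin) (f := fun x => x - x ^ 3 / 6 + x ^ 5 / 120 - x ^ 7 / 5040)
    (g' := cos) (f' := fun x => 1 - x ^ 2 / 2 + x ^ 4 / 24 - x ^ 6 / 720) (by simp)
    (fun y => ?_) (fun y => hasDerivAt_sin y) (fun y hy => ?_) hx
  · have := (((hasDerivAt_id y).sub (((hasDerivAt_id y).pow 3).div_const 6)).add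
      (((hasDerivAt_id y).pow 5).div_const 120)).sub (((hasDerivAt_id y).pow 7).div_const 5040)
    exact this.congr_deriv (by simp; ring)
  · exact cos_lower6 hy

lemma s1l : 0.17987561 ≤ sin 0.18086 :=
  le_trans (by norm_num) (sin_lower7 (x := 0.18086) (by norm_num))
lemma s1u : sin 0.18086 ≤ 0.17987562 :=
  le_trans (sin_upper5 (x := 0.18086) (by norm_num)) (by norm_num)
lemma c1l : 0.98368936 ≤ cos 0.18086 :=
  le_trans (by norm_num) (cos_lower6 (x := 0.18086) (by norm_num))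
lemma c1u : cos 0.18086 ≤ 0.98368942 :=
  le_trans (cos_upper4 (x := 0.18086) (by norm_num)) (by norm_num)
lemma s2l : 0.17988544 ≤ sin 0.18087 :=
  le_trans (by norm_num) (sin_lower7 (x := 0.18087) (by norm_num))
lemma s2u : sin 0.18087 ≤ 0.17988546 :=
  le_trans (sin_upper5 (x := 0.18087) (by norm_num)) (by norm_num)
lemma c2l : 0.98368756 ≤ cos 0.18087 :=
  le_trans (by norm_num) (cos_lower6 (x := 0.18087) (by norm_num))
lemma c2u : cos 0.18087 ≤ 0.98368762 :=
  le_trans (cos_upper4 (x := 0.18087) (by norm_num)) (by norm_num)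

/-- the parameter lies in a short interval -/
lemma tau_bounds {τ : ℝ} (hτ : τ ∈ Ioo 0 (π / 4)) (h : TauEq τ) : τ ∈ Ioo 0.18086 0.18087 := by
  have hp1 : 3.14159265 < π := lt_trans (by norm_num) pi_gt_d20
  have hp2 : π < 3.14159266 := lt_trans pi_lt_d20 (by norm_num)
  set f : ℝ → ℝ := fun x =>
    (π / 4 - x) * (cos x ^ 3 - sin x ^ 3) - cos x * (cos (2 * x) - sin (2 * x)) with hf
  have hc : ContinuousOn f (Icc 0.18086 0.18087) := by
    apply Continuous.continuousOn; fun_prop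
  have h1 : f 0.18086 < 0 := by
    simp only [hf]
    rw [cos_two_mul, sin_two_mul]
    have a1 := s1l
    have a2 := s1u
    have a3 := c1l
    have a4 := c1u
    set s := sin 0.18086
    set c := cos 0.18086
    have b1 : c ^ 3 ≤ 0.98368942 ^ 3 := by gcongr
    have b2 : 0.17987561 ^ 3 ≤ s ^ 3 := by gcongr
    have b3 : (π / 4 - 0.18086) * (c ^ 3 - s ^ 3)
        ≤ (3.14159266 / 4 - 0.18086) * (0.98368942 ^ 3 - 0.17987561 ^ 3) := by
      apply mul_le_mul
      · linarith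
      · linarith
      · have : s ^ 3 ≤ c ^ 3 := by gcongr; linarith
        linarith
      · norm_num
    have b4 : (0.98368936 : ℝ) ^ 2 ≤ c ^ 2 := by gcongr
    have b5 : s * c ≤ 0.17987562 * 0.98368942 := by gcongr
    have b6 : (0.98368936 : ℝ) * (2 * 0.98368936 ^ 2 - 1 - 2 * (0.17987562 * 0.98368942))
        ≤ c * (2 * c ^ 2 - 1 - 2 * s * c) := by
      apply mul_le_mul a3
      · linarith
      · norm_num
      · linarith
    have b7 : (3.14159266 / 4 - 0.18086) * (0.98368942 ^ 3 - 0.17987561 ^ 3)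
      < (0.98368936 : ℝ) * (2 * 0.98368936 ^ 2 - 1 - 2 * (0.17987562 * 0.98368942)) := by norm_num
    linarith
  have h2 : 0 < f 0.18087 := by
    simp only [hf]
    rw [cos_two_mul, sin_two_mul]
    have a1 := s2l
    have a2 := s2u
    have a3 := c2l
    have a4 := c2u
    set s := sin 0.18087
    set c := cos 0.18087
    have b1 : (0.98368756 : ℝ) ^ 3 ≤ c ^ 3 := by gcongr
    have b2 : s ^ 3 ≤ 0.17988546 ^ 3 := by gcongr
    have b3 : (3.14159265 / 4 - 0.18087) * (0.98368756 ^ 3 - 0.17988546 ^ 3)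
        ≤ (π / 4 - 0.18087) * (c ^ 3 - s ^ 3) := by
      apply mul_le_mul
      · linarith
      · linarith
      · norm_num
      · linarith
    have b4 : c ^ 2 ≤ (0.98368762 : ℝ) ^ 2 := by gcongr
    have b5 : 0.17988544 * 0.98368756 ≤ s * c := by gcongr
    have b6 : c * (2 * c ^ 2 - 1 - 2 * s * c)
        ≤ (0.98368762 : ℝ) * (2 * 0.98368762 ^ 2 - 1 - 2 * (0.17988544 * 0.98368756)) := by
      apply mul_le_mul a4
      · linarith
      · have : (0.98368756 : ℝ) ^ 2 ≤ c ^ 2 := by gcongr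
        have : s * c ≤ 0.17988546 * 0.98368762 := by gcongr
        norm_num at *
        nlinarith
      · norm_num
    have b7 : (0.98368762 : ℝ) * (2 * 0.98368762 ^ 2 - 1 - 2 * (0.17988544 * 0.98368756))
      < (3.14159265 / 4 - 0.18087) * (0.98368756 ^ 3 - 0.17988546 ^ 3) := by norm_num
    linarith
  have h3 := intermediate_value_Ioo (by norm_num : (0.18086 : ℝ) ≤ 0.18087) hc
  obtain ⟨x, hx, h4⟩ := h3 ⟨h1, h2⟩
  have h5 : TauEq x := by
    unfold TauEq
    simp only [hf] at h4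
    linarith
  have h6 : x ∈ Ioo 0 (π / 4) := ⟨by have := hx.1; linarith, by have := hx.2; linarith⟩
  rw [tau_unique hτ h h6 h5]
  exact hx

/-- numerical value of the maximal area -/
lemma areaVal_bounds {τ : ℝ} (hτ : τ ∈ Ioo 0 (π / 4)) (h : TauEq τ) :
    1.6447 < areaVal τ (cos τ - sin τ ^ 3 / cos τ ^ 2) ∧
      areaVal τ (cos τ - sin τ ^ 3 / cos τ ^ 2) < 1.6449 := by
  have hp1 : 3.14159265 < π := lt_trans (by norm_num) pi_gt_d20
  have hp2 : π < 3.14159266 := lt_trans pi_lt_d20 (by norm_num)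
  obtain ⟨t1, t2⟩ := tau_bounds hτ h
  have a1 : 0.17987561 ≤ sin τ := s1l.trans
    (sin_le_sin_of_le_of_le_pi_div_two (by linarith) (by linarith) t1.le)
  have a2 : sin τ ≤ 0.17988546 := le_trans
    (sin_le_sin_of_le_of_le_pi_div_two (by linarith) (by linarith) t2.le) s2u
  have a3 : 0.98368756 ≤ cos τ := c2l.trans
    (cos_le_cos_of_nonneg_of_le_pi (by linarith) (by linarith) t2.le)
  have a4 : cos τ ≤ 0.98368942 := le_trans
    (cos_le_cos_of_nonneg_of_le_pi (by norm_num) (by linarith) t1.le) c1u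
  have e : areaVal τ (cos τ - sin τ ^ 3 / cos τ ^ 2) = 3 * (π / 4 - τ) + cos τ ^ 2
      + 2 * (cos τ * sin τ) - 3 / 2 + 2 * (sin τ ^ 3 * (cos τ - sin τ) / cos τ ^ 2) := by
    unfold areaVal
    rw [cos_two_mul]
    have : cos τ ≠ 0 := by
      have : 0 < cos τ := by linarith
      exact this.ne'
    field_simp
    ring
  rw [e]
  set s := sin τ
  set c := cos τ
  have b1 : (0.98368756 : ℝ) ^ 2 ≤ c ^ 2 := by gcongr
  have b2 : c ^ 2 ≤ (0.98368942 : ℝ) ^ 2 := by gcongr
  have b3 : 0.98368756 * 0.17987561 ≤ c * s := by gcongr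
  have b4 : c * s ≤ 0.98368942 * 0.17988546 := by gcongr
  have b5 : s ^ 3 ≤ 0.17988546 ^ 3 := by gcongr
  have b6 : 0.17987561 ^ 3 ≤ s ^ 3 := by gcongr
  have b7 : s ^ 3 * (c - s) / c ^ 2
      ≤ 0.17988546 ^ 3 * (0.98368942 - 0.17987561) / 0.98368756 ^ 2 := by
    gcongr
    linarith
  have b8 : 0.17987561 ^ 3 * (0.98368756 - 0.17988546) / 0.98368942 ^ 2
      ≤ s ^ 3 * (c - s) / c ^ 2 := by
    have hcs : 0 ≤ c - s := by linarith
    have hs0 : 0 ≤ s := by linarith
    have b9 : 0.17987561 ^ 3 * (0.98368756 - 0.17988546) ≤ s ^ 3 * (c - s) :=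
      mul_le_mul b6 (by linarith) (by norm_num) (by positivity)
    have b10 : 0 ≤ s ^ 3 * (c - s) := by positivity
    gcongr
  constructor
  · have : (1.6447 : ℝ) < 3 * (3.14159265 / 4 - 0.18087) + 0.98368756 ^ 2
      + 2 * (0.98368756 * 0.17987561) - 3 / 2
      + 2 * (0.17987561 ^ 3 * (0.98368756 - 0.17988546) / 0.98368942 ^ 2) := by norm_num
    linarith
  · have : 3 * (3.14159266 / 4 - 0.18086) + 0.98368942 ^ 2
      + 2 * (0.98368942 * 0.17988546) - 3 / 2
      + 2 * (0.17988546 ^ 3 * (0.98368942 - 0.17987561) / 0.98368756 ^ 2) < (1.6449 : ℝ) := by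
      norm_num
    linarith

end

end Pool.Agent.MP_3737e1_gt
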